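import Pool.Agent.MP_9bb777_an.NG.Spec

/-! From a large norm of the twisted walk to an almost invariant or anti-invariant vector. -/

namespace Pool.Agent.MP_9bb777_an.NG

open MeasureTheory Quaternion Real Module
open scoped ComplexConjugate InnerProductSpace

namespace B1P

variable {m : ℕ}

lemma re_symm (u v : H) : (⟪u, v⟫_ℂ).re = (⟪v, u⟫_ℂ).re := by
  rw [← inner_conj_symm, Complex.conj_re]

lemma nsq (u : H) : (⟪u, u⟫_ℂ).re = ‖u‖ ^ 2 := (@norm_sq_eq_re_inner ℂ _ _ _ _ u).symm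

lemma nsq_add (u v : H) (σ : ℝ) :
    ‖u + (σ : ℂ) • v‖ ^ 2 = ‖u‖ ^ 2 + 2 * σ * (⟪u, v⟫_ℂ).re + σ ^ 2 * ‖v‖ ^ 2 := by
  rw [@norm_add_sq ℂ, inner_smul_right, norm_smul, Complex.norm_real, mul_pow, Real.norm_eq_abs,
    sq_abs, RCLike.re_to_complex, Complex.re_ofReal_mul]
  ring

lemma in_add (A : Module.End ℂ H) (hs : ∀ F K, ⟪A F, K⟫_ℂ = ⟪F, A K⟫_ℂ) (f : H) (σ : ℝ) :
    (⟪f + (σ : ℂ) • A f, A (f + (σ : ℂ) • A f)⟫_ℂ).re =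
      (⟪f, A f⟫_ℂ).re + 2 * σ * ‖A f‖ ^ 2 + σ ^ 2 * (⟪A f, A (A f)⟫_ℂ).re := by
  rw [map_add, map_smul, inner_add_left, inner_add_right, inner_add_right, inner_smul_left,
    inner_smul_left, inner_smul_right, inner_smul_right, ← hs f (A f)]
  simp only [Complex.conj_ofReal, Complex.add_re, Complex.re_ofReal_mul, nsq]
  ring

lemma core_bd (A : Module.End ℂ H) (hs : ∀ F K, ⟪A F, K⟫_ℂ = ⟪F, A K⟫_ℂ)
    (hn : ∀ F, ‖A F‖ ≤ ‖F‖) (f : H) {σ : ℝ} (hσ : σ = 1 ∨ σ = -1) :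
    ‖f + (σ : ℂ) • A f‖ ^ 2 - σ * (⟪f + (σ : ℂ) • A f, A (f + (σ : ℂ) • A f)⟫_ℂ).re ≤
      2 * (‖f‖ ^ 2 - ‖A f‖ ^ 2) := by
  have h1 : ∀ F : H, |(⟪F, A F⟫_ℂ).re| ≤ ‖F‖ ^ 2 := fun F =>
    (Complex.abs_re_le_norm _).trans ((norm_inner_le_norm _ _).trans (by
      rw [sq]; exact mul_le_mul_of_nonneg_left (hn F) (norm_nonneg F)))
  have h2 := abs_le.mp (h1 (f + ((-σ : ℝ) : ℂ) • A f))
  rw [nsq_add, in_add A hs] at h2 ⊢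
  rcases hσ with rfl | rfl <;> linarith [h2.1, h2.2]

lemma sum_id (hm : 1 ≤ m) (a : Fin m → G) (z : ℍ) (x : Fin m → ℝ) (F : H) {σ : ℝ}
    (hσ : σ ^ 2 = 1) : ∑ s, ‖U a z x s F - (σ : ℂ) • F‖ ^ 2 =
      2 * m * (2 * (‖F‖ ^ 2 - σ * (⟪F, T a z x F⟫_ℂ).re)) := by
  have hm' : (m : ℝ) ≠ 0 := by exact_mod_cast (by omega : m ≠ 0)
  have h1 : ∀ s, ‖U a z x s F - (σ : ℂ) • F‖ ^ 2 =
      2 * ‖F‖ ^ 2 - 2 * σ * (⟪F, U a z x s F⟫_ℂ).re := fun s => by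
    rw [sub_eq_add_neg, ← neg_smul, ← Complex.ofReal_neg, nsq_add, norm_U, neg_sq, hσ, re_symm]
    ring
  have h2 : (⟪F, T a z x F⟫_ℂ).re = (2 * m : ℝ)⁻¹ * ∑ s, (⟪F, U a z x s F⟫_ℂ).re := by
    rw [T_def, inner_smul_right, inner_sum, ← Complex.re_sum, ← Complex.re_ofReal_mul]
    push_cast
    rfl
  simp only [h1]
  rw [Finset.sum_sub_distrib, ← Finset.mul_sum _ _ (2 * σ), h2]
  simp only [Finset.sum_const, Finset.card_univ, Fintype.card_prod, Fintype.card_fin,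
    Fintype.card_bool, nsmul_eq_mul]
  push_cast
  field_simp

end B1P

open B1P in
theorem b1_holds : B1 := by
  intro m a z x f ε hm h0 h1 h
  obtain ⟨σ, hσ, hs⟩ : ∃ σ : ℝ, (σ = 1 ∨ σ = -1) ∧ 0 ≤ σ * (⟪f, T a z x f⟫_ℂ).re := by
    rcases le_total 0 (⟪f, T a z x f⟫_ℂ).re with e | e
    · exact ⟨1, Or.inl rfl, by linarith⟩
    · exact ⟨-1, Or.inr rfl, by linarith⟩
  have hσ2 : σ ^ 2 = 1 := by rcases hσ with rfl | rfl <;> norm_num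
  have h2 : ‖f‖ ^ 2 ≤ ‖f + (σ : ℂ) • T a z x f‖ ^ 2 := by
    rw [nsq_add, hσ2]
    linarith [sq_nonneg ‖T a z x f‖]
  refine ⟨σ, by rcases hσ with rfl | rfl <;> simp, (abs_le_of_sq_le_sq' h2 (norm_nonneg _)).2, ?_⟩
  rw [sum_id hm a z x _ hσ2, mul_assoc (2 * (m : ℝ))]
  refine mul_le_mul_of_nonneg_left ?_ (by positivity)
  have h3 := core_bd (T a z x) (T_sym a z x) (norm_T a z x) f hσ
  have h4 : ((1 - ε) * ‖f‖) ^ 2 ≤ ‖T a z x f‖ ^ 2 :=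
    pow_le_pow_left₀ (mul_nonneg (by linarith) (norm_nonneg _)) h 2
  have h5 := mul_le_mul_of_nonneg_left h2 h0
  nlinarith [sq_nonneg (ε * ‖f‖)]

end Pool.Agent.MP_9bb777_an.NG
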