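import Pool.Agent.MP_9bb777_an.NG.Spec

/-! Truncation and differencing. -/

namespace Pool.Agent.MP_9bb777_an.NG

open MeasureTheory Quaternion Real Module
open scoped ComplexConjugate InnerProductSpace

namespace B2P

/-- radial truncation to the unit disc -/
noncomputable def tr (z : ℂ) : ℂ := (max 1 ‖z‖)⁻¹ • z

lemma mx_pos (z : ℂ) : 0 < max 1 ‖z‖ := lt_max_of_lt_left one_pos

lemma cont_tr : Continuous tr :=
  ((continuous_const.max continuous_norm).inv₀ fun z => (mx_pos z).ne').smul continuous_id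

lemma norm_tr (z : ℂ) : ‖tr z‖ = ‖z‖ / max 1 ‖z‖ := by
  rw [tr, norm_smul, Real.norm_of_nonneg (inv_nonneg.2 (mx_pos z).le), inv_mul_eq_div]

lemma tr_le (z : ℂ) : ‖tr z‖ ≤ 1 := by
  rw [norm_tr, div_le_one (mx_pos z)]
  exact le_max_right _ _

lemma tr_ge (z : ℂ) : 1 - ‖tr z‖ ≤ |‖z‖ - 1| := by
  rw [norm_tr]
  rcases le_total 1 ‖z‖ with h | h
  · rw [max_eq_right h, div_self (by linarith), sub_self]
    exact abs_nonneg _
  · rw [max_eq_left h, div_one, abs_sub_comm]
    exact le_abs_self _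

lemma tr_mul {c : ℂ} (hc : ‖c‖ = 1) (z : ℂ) : tr (c * z) = c * tr z := by
  rw [tr, tr, norm_mul, hc, one_mul, mul_smul_comm]

lemma tr_sub (z w : ℂ) : ‖tr z - tr w‖ ≤ 2 * ‖z - w‖ := by
  have hp := mx_pos z
  have hq := mx_pos w
  have e : tr z - tr w = (max 1 ‖z‖)⁻¹ • ((z - w) + (max 1 ‖w‖ - max 1 ‖z‖) • tr w) := by
    rw [tr, tr]
    match_scalars <;> field_simp
    ring
  have h1 : |max 1 ‖w‖ - max 1 ‖z‖| ≤ ‖z - w‖ := by
    rw [max_comm 1, max_comm 1, norm_sub_rev]
    exact (abs_max_sub_max_le_abs _ _ _).trans (abs_norm_sub_norm_le _ _)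
  have h2 : ‖(z - w) + (max 1 ‖w‖ - max 1 ‖z‖) • tr w‖ ≤ 2 * ‖z - w‖ := by
    refine (norm_add_le _ _).trans ?_
    rw [norm_smul, Real.norm_eq_abs]
    linarith [mul_le_of_le_one_right (abs_nonneg (max 1 ‖w‖ - max 1 ‖z‖)) (tr_le w)]
  rw [e, norm_smul, Real.norm_of_nonneg (inv_nonneg.2 hp.le)]
  exact (mul_le_of_le_one_left (norm_nonneg _) (inv_le_one_of_one_le₀ (le_max_left _ _))).trans h2

lemma key (p q p' q' : ℂ) :
    ‖tr p * conj (tr q) - tr p' * conj (tr q')‖ ≤ 2 * ‖p - p'‖ + 2 * ‖q - q'‖ := by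
  have e : tr p * conj (tr q) - tr p' * conj (tr q') =
      (tr p - tr p') * conj (tr q) + tr p' * conj (tr q - tr q') := by
    rw [map_sub]; ring
  rw [e]
  refine (norm_add_le _ _).trans ?_
  rw [norm_mul, norm_mul, Complex.norm_conj, Complex.norm_conj]
  exact add_le_add ((mul_le_of_le_one_right (norm_nonneg _) (tr_le q)).trans (tr_sub _ _))
    ((mul_le_of_le_one_left (norm_nonneg _) (tr_le p')).trans (tr_sub _ _))

/-- the differenced function -/
noncomputable def df (F : H) (h : G) : H :=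
  mk (fun g => tr (F g) * conj (tr (F (h⁻¹ * g))))
    ((cont_tr.comp (cont F)).mul (Complex.continuous_conj.comp (cont_tr.comp (cont (L h F)))))

lemma df_ap (F : H) (h g : G) : df F h g = tr (F g) * conj (tr (F (h⁻¹ * g))) := rfl

lemma df_sub (F F' : H) (h : G) : ‖df F h - df F' h‖ ≤ 4 * ‖F - F'‖ := by
  have := norm_le_pt2 (f := df F h - df F' h) (g := F - F') (k := L h (F - F')) zero_le_two
    zero_le_two fun g => key _ _ _ _
  rw [norm_L] at this
  linarith

lemma ab_near {F : H} {β : ℝ} (hF : ‖F‖ = 1) (h : ‖ab F - ⟪1, ab F⟫_ℂ • (1 : H)‖ ≤ β) :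
    ‖ab F - 1‖ ≤ 2 * β := by
  have e : ⟪1, ab F⟫_ℂ = ((∫ x, ‖F x‖ ∂hm : ℝ) : ℂ) := by
    rw [inner_one, ← integral_complex_ofReal]; rfl
  have h0 : 0 ≤ ∫ x, ‖F x‖ ∂hm := integral_nonneg fun _ => norm_nonneg _
  rw [e] at h
  generalize ∫ x, ‖F x‖ ∂hm = b at h h0
  have h1 := (abs_norm_sub_norm_le _ _).trans h
  rw [norm_ab, hF, norm_smul, norm_oneH, mul_one, Complex.norm_real, Real.norm_of_nonneg h0] at h1
  have e2 : ab F - 1 = (ab F - (b : ℂ) • (1 : H)) - ((1 - b : ℝ) : ℂ) • (1 : H) := by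
    ext g
    simp only [sub_ap, smul_ap, one_ap]
    push_cast
    ring
  rw [e2]
  refine (norm_sub_le _ _).trans ?_
  rw [norm_smul, norm_oneH, mul_one, Complex.norm_real, Real.norm_eq_abs]
  linarith

end B2P

open B2P in
theorem b2_holds : B2 := by
  intro m a y x F σ h K γ β e hK hγ hσ hF hL hb he
  have s1 : ‖σ‖ = 1 := by rcases hσ with rfl | rfl <;> simp
  have s2 : σ * conj σ = 1 := by rcases hσ with rfl | rfl <;> simp
  refine ⟨df F h, fun k => ?_, ?_, fun g => ?_, ?_⟩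
  · have := norm_le_pt2 (f := L k (df F h) - df F h) (g := L k F - F)
      (k := L h (L (h⁻¹ * k * h⁻¹⁻¹) F - F)) zero_le_two zero_le_two fun g => by
        have e1 : (h⁻¹ * k * h⁻¹⁻¹)⁻¹ * (h⁻¹ * g) = h⁻¹ * (k⁻¹ * g) := by group
        simp only [sub_ap, L_ap, df_ap, e1]
        exact key _ _ _ _
    have h2 := hL (h⁻¹ * k * h⁻¹⁻¹)
    rw [ds_conj] at h2
    rw [norm_L] at this
    linarith [hL k]
  · have h1 := ab_near hF hb
    have h2 := norm_le_pt2 (f := 1 - ab (df F h)) (g := ab F - 1) (k := L h (ab F - 1)) zero_le_one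
      zero_le_one fun g => by
        simp only [sub_ap, L_ap, ab_ap, one_ap, df_ap, one_mul, norm_mul, Complex.norm_conj]
        rw [← Complex.ofReal_one, ← Complex.ofReal_sub, ← Complex.ofReal_sub, ← Complex.ofReal_sub,
          Complex.norm_real, Complex.norm_real, Complex.norm_real, Real.norm_eq_abs,
          Real.norm_eq_abs, Real.norm_eq_abs]
        have a1 := tr_le (F g)
        have a2 := tr_le (F (h⁻¹ * g))
        rw [abs_of_nonneg (sub_nonneg.2 (mul_le_one₀ a1 (norm_nonneg _) a2))]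
        nlinarith [tr_ge (F g), tr_ge (F (h⁻¹ * g)),
          mul_nonneg (sub_nonneg.2 a1) (sub_nonneg.2 a2)]
    have h3 := norm_sub_norm_le (1 : H) (ab (df F h))
    rw [norm_L] at h2
    rw [norm_oneH, norm_ab] at h3
    linarith
  · rw [df_ap, norm_mul, Complex.norm_conj]
    exact mul_le_one₀ (tr_le _) (norm_nonneg _) (tr_le _)
  · refine le_trans ?_ (mul_le_mul_of_nonneg_left he (by norm_num))
    rw [Finset.mul_sum]
    refine Finset.sum_le_sum fun s _ => ?_
    have e1 : U a (y - cj h y) x s (df F h) = df (U a y x s F) h := by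
      ext g
      have e0 : ex (y - cj h y) (x s.1 • vl a s) g =
          ex y (x s.1 • vl a s) g * conj (ex y (x s.1 • vl a s) (h⁻¹ * g)) := by
        rw [← L_ap, L_ex, conj_ex, ex_ap, ex_ap, ex_ap, ← Complex.exp_add, inner_sub_left, map_neg,
          inner_neg_right]
        congr 1
        push_cast
        ring
      simp only [U_def, mul_ap, R_ap, df_ap, e0, tr_mul (norm_ex_ap _ _ _), map_mul, mul_assoc]
      ring
    have e2 : df (σ • F) h = df F h := by
      ext g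
      simp only [df_ap, smul_ap, tr_mul s1, map_mul]
      linear_combination tr (F g) * conj (tr (F (h⁻¹ * g))) * s2
    rw [e1, ← e2]
    have := pow_le_pow_left₀ (norm_nonneg _) (df_sub (U a y x s F) (σ • F) h) 2
    linarith

end Pool.Agent.MP_9bb777_an.NG
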