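import Pool.Agent.MP_9bb777_an.NG.Spec

/-! Second order lower bound for harmonic weights. -/

namespace Pool.Agent.MP_9bb777_an.NG

open MeasureTheory Quaternion Real Module
open scoped ComplexConjugate InnerProductSpace

namespace B3P

variable {m : ℕ}

lemma sum_th {a : Fin m → G} {x : Fin m → ℝ} (h : Harm a x) (z : ℍ) :
    ∑ s : Ltr m, ph z (x s.1 • vl a s) = 0 := by
  have e : ∑ s : Ltr m, x s.1 • vl a s = 0 := by
    rw [← h, Fintype.sum_prod_type]
    refine Finset.sum_congr rfl fun i _ => ?_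
    simp [vl, sub_eq_add_neg]
  ext g
  simp only [sum_ap, ph_ap, zero_ap]
  rw [← Complex.ofReal_sum, ← inner_sum, ← map_sum, e, map_zero, inner_zero_right,
    Complex.ofReal_zero]

lemma cross {a : Fin m → G} {x : Fin m → ℝ} (h : Harm a x) (z : ℍ) (r : H) (c : ℂ) :
    ∑ s : Ltr m, ⟪R (lt a s) r - r, c • ph z (x s.1 • vl a s)⟫_ℂ = 0 := by
  have e : ∀ s : Ltr m, R (lt a s)⁻¹ (ph z (x s.1 • vl a s)) =
      -ph z (x (flip s).1 • vl a (flip s)) := fun s => by
    rw [R_ph, vl_flip]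
    ext g
    simp [ph_ap, flip]
  simp only [inner_smul_right, inner_sub_left, inner_R_left, e, inner_neg_right]
  rw [← Finset.mul_sum, Finset.sum_sub_distrib, Finset.sum_neg_distrib, ← inner_sum, ← inner_sum,
    sum_flip fun s => ph z (x s.1 • vl a s), sum_th h, inner_zero_right, neg_zero, sub_zero,
    mul_zero]

lemma one (hM : Mom) {z v : ℍ} (hz : z.re = 0) (hv : v.re = 0) (ht : ‖z‖ * ‖v‖ ≤ 1 / 20) (k : G)
    {r : H} {b : ℂ} (h1 : 4 / 5 ≤ ‖b‖) (h2 : ‖b‖ ≤ 1) (hr : ‖r‖ ≤ 1 / 10) :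
    (⟪R k r - r, (Complex.I * b) • ph z v⟫_ℂ).re + (‖z‖ * ‖v‖) ^ 2 / 12 ≤
      ‖ex z v * R k (r + b • 1) - (r + b • 1)‖ ^ 2 := by
  have t0 : 0 ≤ ‖z‖ * ‖v‖ := by positivity
  have m1 := norm_add_sq (𝕜 := ℂ) (R k r - r) ((Complex.I * b) • ph z v)
  rw [norm_smul, mul_pow, hM z v hz hv, norm_mul, Complex.norm_I, one_mul, ← mul_pow] at m1
  have m2 := norm_le_pt2 (f := (R k r - r + (Complex.I * b) • ph z v) -
    (ex z v * R k (r + b • 1) - (r + b • 1))) (g := 1) (k := R k r)
    (c := ‖z‖ * ‖v‖ / 20) (d := ‖z‖ * ‖v‖) (by positivity) t0 fun g => by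
      have p := abs_ph_le z v g
      simp only [sub_ap, add_ap, mul_ap, smul_ap, R_ap, one_ap, ph_ap, ex_ap, norm_one, mul_one]
      generalize ⟪z, cj g v⟫_ℝ = θ at p
      generalize ‖z‖ * ‖v‖ = t at *
      have n1 : ‖Complex.I * θ‖ = |θ| := by simp
      have q1 := Complex.norm_exp_sub_one_sub_id_le (x := Complex.I * θ) (by linarith)
      have q2 := Real.norm_exp_I_mul_ofReal_sub_one_le (x := θ)
      rw [n1] at q1
      rw [Real.norm_eq_abs] at q2
      have e : r (g * k) - r g + Complex.I * b * θ -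
          (Complex.exp (Complex.I * θ) * (r (g * k) + b) - (r g + b)) =
          -((Complex.exp (Complex.I * θ) - 1 - Complex.I * θ) * b +
            (Complex.exp (Complex.I * θ) - 1) * r (g * k)) := by ring
      rw [e, norm_neg]
      refine (norm_add_le _ _).trans (add_le_add ?_ ?_)
      · rw [norm_mul]
        refine (mul_le_of_le_one_right (norm_nonneg _) h2).trans (q1.trans ?_)
        nlinarith [abs_nonneg θ]
      · rw [norm_mul]
        exact mul_le_mul_of_nonneg_right (q2.trans p) (norm_nonneg _)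
  rw [norm_oneH, norm_R] at m2
  have m3 := norm_sub_norm_le (R k r - r + (Complex.I * b) • ph z v)
    (ex z v * R k (r + b • 1) - (r + b • 1))
  rw [RCLike.re_to_complex] at m1
  have m0 := norm_nonneg (R k r - r + (Complex.I * b) • ph z v)
  generalize ‖R k r - r + (Complex.I * b) • ph z v‖ = A at *
  generalize ‖ex z v * R k (r + b • 1) - (r + b • 1)‖ = B at *
  generalize ‖z‖ * ‖v‖ = t at *
  have m4 : A ≤ B + 3 / 20 * t := by linarith [mul_le_mul_of_nonneg_left hr t0]
  have m5 := pow_le_pow_left₀ m0 m4 2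
  have m6 := mul_le_mul_of_nonneg_right (pow_le_pow_left₀ (by norm_num) h1 2) (sq_nonneg t)
  nlinarith [sq_nonneg (B - 3 / 20 * t), sq_nonneg ‖R k r - r‖, sq_nonneg t]

end B3P

open B3P in
theorem b3_holds : Mom → B3 := by
  intro hM m a z x W b hH hz hx _ h1 h2 hr
  have nv : ∀ s : Ltr m, ‖x s.1 • vl a s‖ = |x s.1| := fun s => by
    rw [norm_smul, norm_vl, mul_one, Real.norm_eq_abs]
  have k := Finset.sum_le_sum fun s (_ : s ∈ (Finset.univ : Finset (Ltr m))) =>
    one hM hz (v := x s.1 • vl a s) (by simp) (by rw [nv, mul_comm]; exact hx _) (lt a s) h1 h2 hr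
  rw [Finset.sum_add_distrib, ← Complex.re_sum, cross hH, Complex.zero_re, zero_add] at k
  simp only [sub_add_cancel, nv, mul_pow, sq_abs] at k
  refine le_trans (le_of_eq ?_) k
  rw [Fintype.sum_prod_type, Finset.sum_mul, Finset.sum_div]
  refine Finset.sum_congr rfl fun i _ => ?_
  rw [Fintype.sum_bool]
  ring

end Pool.Agent.MP_9bb777_an.NG
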