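import Pool.Agent.MP_9bb777_an.NG.Spec

/-! The Borel-Cantelli step: for almost every tuple the good event holds at all large scales. -/

namespace Pool.Agent.MP_9bb777_an.NG

open MeasureTheory Filter

namespace BCP

open Classical in
/-- Markov inequality for an average of indicators. -/
lemma markov {X ι : Type*} [MeasurableSpace X] (μ : Measure X) [IsProbabilityMeasure μ]
    [Fintype ι] (S : ι → Set X) (hS : ∀ i, MeasurableSet (S i)) {c B ε : ℝ} (hc : 0 ≤ c)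
    (hB : ∀ i, μ.real (S i) ≤ B) (hε : 0 < ε) (hcard : c * Fintype.card ι = 1) :
    μ.real {x | ε ≤ c * ∑ i, if x ∈ S i then (1 : ℝ) else 0} ≤ B / ε := by
  have hi : ∀ i, Integrable (fun x => if x ∈ S i then (1 : ℝ) else 0) μ := fun i =>
    (integrable_const (1 : ℝ)).indicator (hS i)
  have hI : Integrable (fun x => c * ∑ i, if x ∈ S i then (1 : ℝ) else 0) μ :=
    (integrable_finsetSum _ fun i _ => hi i).const_mul c
  have h0 : 0 ≤ᵐ[μ] fun x => c * ∑ i, if x ∈ S i then (1 : ℝ) else 0 :=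
    ae_of_all _ fun x => mul_nonneg hc (Finset.sum_nonneg fun i _ => by split_ifs <;> norm_num)
  have h1 := mul_meas_ge_le_integral_of_nonneg h0 hI ε
  rw [integral_const_mul, integral_finsetSum _ fun i _ => hi i] at h1
  have h2 : ∀ i, ∫ x, (if x ∈ S i then (1 : ℝ) else 0) ∂μ ≤ B := fun i =>
    (integral_indicator_one (hS i)).le.trans (hB i)
  have h3 : ∑ i, ∫ x, (if x ∈ S i then (1 : ℝ) else 0) ∂μ ≤ Fintype.card ι * B := by
    refine (Finset.sum_le_sum fun i _ => h2 i).trans (le_of_eq ?_)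
    simp
  rw [le_div_iff₀ hε, mul_comm]
  refine h1.trans ((mul_le_mul_of_nonneg_left h3 hc).trans (le_of_eq ?_))
  rw [← mul_assoc, hcard, one_mul]

variable {m : ℕ}

/-- the tuples on which a word is small and has the given good triple -/
def S3 (w : List (Ltr m)) (δ η : ℝ) (t : Fin m × Fin m × Fin m) : Set (Fin m → G) :=
  {a | ds (wd a w) ≤ δ ∧ η ^ 3 ≤ |det3 a w t.1 t.2.1 t.2.2|}

lemma closed_S3 (w : List (Ltr m)) (δ η : ℝ) (t : Fin m × Fin m × Fin m) :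
    IsClosed (S3 w δ η t) := by
  have h1 : IsClosed {a : Fin m → G | ds (wd a w) ≤ δ} :=
    isClosed_le (continuous_ds.comp (continuous_wd w)) continuous_const
  have h2 : Continuous fun a : Fin m → G => |det3 a w t.1 t.2.1 t.2.2| :=
    (Quaternion.continuous_re.comp (((continuous_dcol w _).mul (continuous_dcol w _)).mul
      (continuous_dcol w _))).abs
  have h3 : IsClosed {a : Fin m → G | η ^ 3 ≤ |det3 a w t.1 t.2.1 t.2.2|} :=
    isClosed_le continuous_const h2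
  exact h1.inter h3

lemma meas_union (hH : Hens) (w : List (Ltr m)) {δ η : ℝ} (hδ : 0 < δ) (hη : 0 < η)
    (hη1 : η ≤ 1) : (Measure.pi fun _ : Fin m => hm).real (⋃ t, S3 w δ η t) ≤
      (m : ℝ) ^ 3 * (1000 * δ ^ 3 * (w.length : ℝ) ^ 18 / η ^ 18) := by
  refine (measureReal_iUnion_fintype_le _).trans ?_
  refine (Finset.sum_le_sum fun t _ => hH m w t.1 t.2.1 t.2.2 δ η hδ hη hη1).trans (le_of_eq ?_)
  simp only [Finset.sum_const, Finset.card_univ, Fintype.card_prod, Fintype.card_fin,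
    nsmul_eq_mul]
  push_cast
  ring

/-- the bad event for one length -/
lemma meas_bad (hH : Hens) (hm1 : 1 ≤ m) (N : ℕ) {δ η ε : ℝ} (hδ : 0 < δ) (hη : 0 < η)
    (hη1 : η ≤ 1) (hε : 0 < ε) :
    (Measure.pi fun _ : Fin m => hm).real {a | ε ≤ pr m N fun w => ds (wd a w) ≤ δ ∧
      ∃ i j k, η ^ 3 ≤ |det3 a w i j k|} ≤
      (m : ℝ) ^ 3 * (1000 * δ ^ 3 * (N : ℝ) ^ 18 / η ^ 18) / ε := by
  have hm0 : (0 : ℝ) < m := by exact_mod_cast hm1
  have h := markov (Measure.pi fun _ : Fin m => hm)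
    (fun w : Fin N → Ltr m => ⋃ t, S3 (List.ofFn w) δ η t)
    (fun w => MeasurableSet.iUnion fun t => (closed_S3 _ δ η t).measurableSet)
    (c := ((2 * m : ℝ) ^ N)⁻¹) (B := (m : ℝ) ^ 3 * (1000 * δ ^ 3 * (N : ℝ) ^ 18 / η ^ 18))
    (by positivity) (fun w => by simpa using meas_union hH (List.ofFn w) hδ hη hη1) hε (by
      simp only [Fintype.card_fun, Fintype.card_prod, Fintype.card_fin, Fintype.card_bool]
      push_cast
      rw [mul_comm (m : ℝ) 2]
      exact inv_mul_cancel₀ (by positivity))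
  refine le_of_eq_of_le (congrArg _ ?_) h
  ext a
  simp only [Set.mem_ofPred_eq, pr]
  refine iff_of_eq (congrArg _ (congrArg _ (Finset.sum_congr rfl fun w _ => ?_)))
  have key : (ds (wd a (List.ofFn w)) ≤ δ ∧ ∃ i j k, η ^ 3 ≤ |det3 a (List.ofFn w) i j k|) ↔
      a ∈ ⋃ t, S3 (List.ofFn w) δ η t := by
    simp only [S3, Set.mem_iUnion, Set.mem_ofPred_eq, Prod.exists]
    constructor
    · rintro ⟨h1, i, j, k, h2⟩
      exact ⟨i, j, k, h1, h2⟩
    · rintro ⟨i, j, k, h1, h2⟩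
      exact ⟨h1, i, j, k, h2⟩
  by_cases h1 : a ∈ ⋃ t, S3 (List.ofFn w) δ η t
  · rw [if_pos h1, if_pos (key.2 h1)]
  · rw [if_neg h1, if_neg fun h2 => h1 (key.1 h2)]

lemma arith {M Y N : ℝ} (b : ℕ) (hb : 38 ≤ b) (hM : 0 < M) (hY : 1 ≤ Y) (hN0 : 0 ≤ N)
    (hN : N ≤ Y) :
    M ^ 3 * (1000 * (1 / Y ^ (12 * b)) ^ 3 * N ^ 18 / (1 / (2 * M * Y)) ^ 18) /
      (1 / Y ^ (35 * b)) ≤ 1000 * 2 ^ 18 * M ^ 21 / Y ^ 2 := by
  have hY0 : 0 < Y := by linarith
  obtain ⟨e, rfl⟩ := Nat.exists_eq_add_of_le hb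
  have h1 : N ^ 18 ≤ Y ^ 18 := pow_le_pow_left₀ hN0 hN 18
  have h2 : 1 ≤ Y ^ e := one_le_pow₀ hY
  have h3 : M ^ 3 * (1000 * (1 / Y ^ (12 * (38 + e))) ^ 3 * N ^ 18 / (1 / (2 * M * Y)) ^ 18) /
      (1 / Y ^ (35 * (38 + e))) = 1000 * 2 ^ 18 * M ^ 21 / Y ^ 2 * (N ^ 18 / (Y ^ 18 * Y ^ e)) := by
    field_simp
    ring
  rw [h3]
  refine mul_le_of_le_one_right (by positivity) ?_
  rw [div_le_one (by positivity)]
  exact h1.trans (le_mul_of_one_le_right (by positivity) h2)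

lemma meas_not_good (hH : Hens) (hm1 : 1 ≤ m) {b : ℕ} (hb : 38 ≤ b) (n : ℕ) :
    (Measure.pi fun _ : Fin m => hm).real {a | ¬Good b a n} ≤
      2000 * 2 ^ 18 * (m : ℝ) ^ 21 * (1 / 2) ^ n := by
  have hm0 : (1 : ℝ) ≤ m := by exact_mod_cast hm1
  have hY : (1 : ℝ) ≤ 2 ^ n := one_le_pow₀ (by norm_num)
  have hsub : {a : Fin m → G | ¬Good b a n} ⊆ ⋃ N ∈ Finset.range (2 ^ n + 1),
      {a | 1 / ((2 : ℝ) ^ n) ^ (35 * b) ≤ pr m N fun w =>
        ds (wd a w) ≤ 1 / ((2 : ℝ) ^ n) ^ (12 * b) ∧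
        ∃ i j k, (1 / (2 * m * 2 ^ n : ℝ)) ^ 3 ≤ |det3 a w i j k|} := by
    intro a ha
    simp only [Set.mem_ofPred_eq, Good, not_forall, not_le] at ha
    obtain ⟨N, hN, h⟩ := ha
    simp only [Set.mem_iUnion, Set.mem_ofPred_eq]
    refine ⟨N, Finset.mem_range.2 (by omega), ?_⟩
    rw [← pow_mul, ← pow_mul, mul_comm n, mul_comm n, ← one_div_pow]
    exact h.le
  refine (measureReal_mono hsub (measure_ne_top _ _)).trans ((measureReal_biUnion_finset_le _ _).trans ?_)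
  have h1 : ∀ N ∈ Finset.range (2 ^ n + 1), (Measure.pi fun _ : Fin m => hm).real
      {a | 1 / ((2 : ℝ) ^ n) ^ (35 * b) ≤ pr m N fun w =>
        ds (wd a w) ≤ 1 / ((2 : ℝ) ^ n) ^ (12 * b) ∧
        ∃ i j k, (1 / (2 * m * 2 ^ n : ℝ)) ^ 3 ≤ |det3 a w i j k|} ≤
      1000 * 2 ^ 18 * (m : ℝ) ^ 21 / (2 ^ n) ^ 2 := fun N hN => by
    refine (meas_bad hH hm1 N (by positivity) (by positivity) ?_ (by positivity)).trans
      (arith b hb (by linarith) hY (Nat.cast_nonneg N) ?_)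
    · rw [div_le_one (by positivity)]
      nlinarith
    · have := Finset.mem_range.1 hN
      exact_mod_cast (by omega : N ≤ 2 ^ n)
  refine (Finset.sum_le_sum h1).trans ?_
  rw [Finset.sum_const, Finset.card_range, nsmul_eq_mul, one_div_pow]
  push_cast
  have h2 : ((2 : ℝ) ^ n + 1) ≤ 2 * 2 ^ n := by linarith
  refine (mul_le_mul_of_nonneg_right h2 (by positivity)).trans (le_of_eq ?_)
  field_simp
  ring

end BCP

theorem bc_holds : Hens → BC := by
  intro hH m b hm1 hb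
  have hs : Summable fun n : ℕ => 2000 * 2 ^ 18 * (m : ℝ) ^ 21 * (1 / 2) ^ n :=
    summable_geometric_two.mul_left _
  have h : ∑' n, (Measure.pi fun _ : Fin m => hm) {a | ¬Good b a n} ≠ ⊤ := by
    refine ne_top_of_le_ne_top hs.tsum_ofReal_ne_top (ENNReal.tsum_le_tsum fun n => ?_)
    rw [← ofReal_measureReal]
    exact ENNReal.ofReal_le_ofReal (BCP.meas_not_good hH hm1 hb n)
  filter_upwards [ae_eventually_notMem h] with a ha
  obtain ⟨n1, h1⟩ := eventually_atTop.1 ha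
  exact ⟨n1, fun n hn => not_not.1 (h1 n hn)⟩

end Pool.Agent.MP_9bb777_an.NG
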