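import Pool.Agent.MP_9bb777_an.NG.Spec

/-! Decay of the twisted walk. -/

namespace Pool.Agent.MP_9bb777_an.NG

open MeasureTheory Quaternion Real Module
open scoped ComplexConjugate InnerProductSpace

namespace BMainP

lemma exists_h {t : ℝ} (h0 : 0 ≤ t) (h1 : t ≤ 1) :
    ∃ h : G, (ei.1 - cj h ei.1).re = 0 ∧ ‖ei.1 - cj h ei.1‖ = t := by
  have h2 : 0 ≤ 1 - t ^ 2 / 4 := by nlinarith
  have h3 := sq_sqrt h2
  set c := √(1 - t ^ 2 / 4)
  refine ⟨mkG ⟨c, 0, 0, t / 2⟩ (by rw [normSq_def']; simp; linarith), by simp [ei.2.1], ?_⟩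
  rw [← sq_eq_sq₀ (norm_nonneg _) h0, sq, ← normSq_eq_norm_mul_self, normSq_def', cj_def]
  simp [ei]
  have : c * c = 1 - t ^ 2 / 4 := by linarith
  rw [this]
  nlinarith

lemma ab_sub (f g : H) : ‖ab f - ab g‖ ≤ ‖f - g‖ := by
  have := norm_le_pt (f := ab f - ab g) (g := f - g) zero_le_one fun x => by
    simp only [sub_ap, ab_ap, one_mul]
    rw [← Complex.ofReal_sub, Complex.norm_real]
    exact abs_norm_sub_norm_le _ _
  simpa using this

lemma U_sub_R {m : ℕ} (a : Fin m → G) (z : ℍ) (x : Fin m → ℝ) (s : Ltr m) {W : H}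
    (hW : ∀ g, ‖W g‖ ≤ 1) : ‖U a z x s W - R (lt a s) W‖ ≤ |x s.1| * ‖z‖ := by
  refine norm_le_sup fun g => ?_
  simp only [U_def, sub_ap, mul_ap, R_ap, ex_ap]
  rw [← sub_one_mul, norm_mul]
  have h1 := Real.norm_exp_I_mul_ofReal_sub_one_le (x := ⟪z, cj g (x s.1 • vl a s)⟫_ℝ)
  have h2 := abs_ph_le z (x s.1 • vl a s) g
  rw [norm_smul, norm_vl, mul_one, Real.norm_eq_abs, mul_comm] at h2
  rw [Real.norm_eq_abs] at h1
  calc _ ≤ (|x s.1| * ‖z‖) * 1 := mul_le_mul (h1.trans h2) (hW _) (norm_nonneg _) (by positivity)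
    _ = _ := mul_one _

lemma core_false (h2 : B2) (h3 : B3) {m : ℕ} {a : Fin m → G} {x : Fin m → ℝ} {c0 K B : ℝ}
    (hm : 1 ≤ m) (hH : Harm a x) (hx1 : 1 ≤ ∑ i, x i ^ 2) (hc0 : 0 < c0) (hc0m : c0 ≤ 1 / m)
    (hK : 0 ≤ K) (hB : 4 * K * B ≤ 1 / 1000) (hB0 : 0 ≤ B)
    (hPL : ∀ (u : H) (K γ β : ℝ), 0 ≤ K → 0 ≤ γ → 0 ≤ β → LLip u K γ →
      ∑ s, ‖R (lt a s) u - u‖ ^ 2 ≤ 2 * m * (2 * c0 * β ^ 2) →
      ‖u - ⟪1, u⟫_ℂ • (1 : H)‖ ≤ β + K * B + γ)
    {F : H} {σ : ℂ} (hσ : σ = 1 ∨ σ = -1) (hF : ‖F‖ = 1) (hL : LLip F K (1 / 10000))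
    (hU : ∑ s, ‖U a ei.1 x s F - σ • F‖ ^ 2 ≤ 2 * m * (8 * (c0 / 10 ^ 6))) : False := by
  have hm' : (1 : ℝ) ≤ m := by exact_mod_cast hm
  have hσ1 : ‖σ‖ = 1 := by rcases hσ with rfl | rfl <;> simp
  have hmc : m * c0 ≤ 1 := by rwa [le_div_iff₀ (by linarith), mul_comm] at hc0m
  have hmc0 : 0 < m * c0 := by positivity
  have a1 : LLip (ab F) K (1 / 10000) := fun h =>
    (ab_sub (L h F) F).trans (hL h)
  have a2 : ∀ s, ‖R (lt a s) (ab F) - ab F‖ ≤ ‖U a ei.1 x s F - σ • F‖ := fun s => by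
    have e1 : R (lt a s) (ab F) = ab (U a ei.1 x s F) := by ext g; simp [norm_U_ap]
    have e2 : ab F = ab (σ • F) := by ext g; simp [hσ1]
    rw [e1]
    nth_rewrite 1 [e2]
    exact ab_sub _ _
  have a3 := hPL (ab F) K (1 / 10000) (2 / 1000) hK (by norm_num) (by norm_num) a1
    ((Finset.sum_le_sum fun s _ => pow_le_pow_left₀ (norm_nonneg _) (a2 s) 2).trans
      (hU.trans (le_of_eq (by ring))))
  set S := ∑ i, x i ^ 2 with hS
  have hS0 : 0 < S := by linarith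
  set t := √(m * c0 / (400 * S))
  have ht : t ^ 2 = m * c0 / (400 * S) := sq_sqrt (by positivity)
  have ht' : S * t ^ 2 = m * c0 / 400 := by rw [ht]; field_simp
  have ht0 : 0 ≤ t := sqrt_nonneg _
  have ht1 : t ≤ 1 := by nlinarith [sq_nonneg t]
  obtain ⟨h, hz0, hz⟩ := exists_h ht0 ht1
  obtain ⟨W, w1, w2, w3, w4⟩ := h2 m a ei.1 x F σ h K (1 / 10000) (1 / 100) _ hK (by norm_num) hσ
    hF hL (a3.trans (by linarith)) hU
  set z := ei.1 - cj h ei.1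
  have b1 : ∑ s, ‖R (lt a s) W - W‖ ^ 2 ≤ 2 * m * (2 * c0 * (6 / 100) ^ 2) := by
    have e1 : ∀ s, ‖R (lt a s) W - W‖ ^ 2 ≤
        2 * ‖U a z x s W - W‖ ^ 2 + 2 * (x s.1 ^ 2 * t ^ 2) := fun s => by
      have p1 := U_sub_R a z x s w3
      rw [hz] at p1
      have p2 : ‖R (lt a s) W - W‖ ≤ ‖U a z x s W - W‖ + |x s.1| * t := by
        have : R (lt a s) W - W = (U a z x s W - W) - (U a z x s W - R (lt a s) W) := by abel
        rw [this]
        exact (norm_sub_le _ _).trans (by linarith)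
      have p3 := pow_le_pow_left₀ (norm_nonneg _) p2 2
      rw [← sq_abs (x s.1), ← mul_pow]
      nlinarith [sq_nonneg (‖U a z x s W - W‖ - |x s.1| * t)]
    refine (Finset.sum_le_sum fun s _ => e1 s).trans ?_
    have e2 : ∑ s : Ltr m, 2 * (x s.1 ^ 2 * t ^ 2) = 4 * (S * t ^ 2) := by
      rw [Fintype.sum_prod_type, hS, Finset.sum_mul, Finset.mul_sum]
      refine Finset.sum_congr rfl fun i _ => ?_
      simp; ring
    rw [Finset.sum_add_distrib, ← Finset.mul_sum, e2, ht']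
    nlinarith
  have b2 := hPL W (4 * K) (4 * (1 / 10000)) (6 / 100) (by positivity) (by norm_num) (by norm_num)
    w1 b1
  have b3 : ‖⟪1, W⟫_ℂ‖ ≤ 1 := by
    have := norm_inner_le_norm (𝕜 := ℂ) (1 : H) W
    rw [norm_oneH, one_mul] at this
    exact this.trans (norm_le_sup w3)
  have b4 : 4 / 5 ≤ ‖⟪1, W⟫_ℂ‖ := by
    have := norm_sub_norm_le W (⟪1, W⟫_ℂ • (1 : H))
    rw [norm_smul, norm_oneH, mul_one] at this
    linarith
  have b5 : ∀ i, |x i| * ‖z‖ ≤ 1 / 20 := fun i => by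
    rw [hz]
    refine abs_le_of_sq_le_sq' ?_ (by norm_num) |>.2
    have : x i ^ 2 ≤ S := Finset.single_le_sum (f := fun i => x i ^ 2)
      (fun i _ => sq_nonneg _) (Finset.mem_univ i)
    rw [mul_pow, sq_abs]
    nlinarith [sq_nonneg t]
  have := h3 m a z x W _ hH hz0 b5 w3 b4 b3 (b2.trans (by linarith))
  rw [hz, ← hS, ht'] at this
  nlinarith

end BMainP

open BMainP in
theorem bmain_holds : PL → Tay → B1 → B2 → B3 → Bmain := by
  rintro ⟨C, hC, hPL⟩ hT h1 h2 h3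
  refine ⟨20000 * C, by linarith, ?_⟩
  intro m a x X c0 θ N D r hm hD hH hx1 hxX hc0 hc0m hND hr hG hθ hDθ
  have hm' : (1 : ℝ) ≤ m := by exact_mod_cast hm
  have hD' : (1 : ℝ) ≤ D := by exact_mod_cast hD
  have hr' : (1 : ℝ) ≤ r := by nlinarith
  have hr1 : 1 ≤ r := by exact_mod_cast hr'
  have hX : 0 ≤ X := (abs_nonneg _).trans (hxX ⟨0, hm⟩)
  have hc1 : c0 ≤ 1 := hc0m.trans (by rw [div_le_one (by linarith)]; exact hm')
  have he0 : 0 ≤ c0 / 10 ^ 6 := by positivity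
  have he1 : c0 / 10 ^ 6 ≤ 1 := by linarith
  have step : ∀ k : ℕ, k < N → θ ≤ ‖(T a ei.1 x ^ k) 1‖ →
      ‖T a ei.1 x ((T a ei.1 x ^ k) 1)‖ ≤ (1 - c0 / 10 ^ 6) * ‖(T a ei.1 x ^ k) 1‖ := by
    intro k hk hθk
    by_contra hlt
    obtain ⟨σ, hσ, g1, g2⟩ := h1 m a ei.1 x _ _ hm he0 he1 (not_le.mp hlt).le
    have hk' : (k : ℝ) + 1 ≤ N := by exact_mod_cast hk
    obtain ⟨p, hp, hp'⟩ := hT m a x X k D hm hxX (by nlinarith)
    obtain ⟨q, hq, hq'⟩ := hT m a x X (k + 1) D hm hxX (by push_cast; nlinarith)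
    rw [pow_succ', Module.End.mul_apply] at hq'
    set f := (T a ei.1 x ^ k) 1
    set F0 := f + σ • T a ei.1 x f with hF0
    have hσ1 : ‖σ‖ = 1 := by rcases hσ with rfl | rfl <;> simp
    have n0 : 0 < ‖F0‖ := by linarith
    have e1 : ‖F0 - (p + σ • q)‖ ≤ 4 / 10 ^ 5 * ‖F0‖ := by
      have : F0 - (p + σ • q) = (f - p) + σ • (T a ei.1 x f - q) := by rw [hF0, smul_sub]; abel
      rw [this]
      refine (norm_add_le _ _).trans ?_
      rw [norm_smul, hσ1]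
      linarith
    set κ : ℂ := ((‖F0‖⁻¹ : ℝ) : ℂ)
    have hκ : ‖κ‖ = ‖F0‖⁻¹ := by simp [κ]
    have hF : ‖κ • F0‖ = 1 := by rw [norm_smul, hκ, inv_mul_cancel₀ n0.ne']
    have hP : κ • (p + σ • q) ∈ V (2 * D) :=
      Submodule.smul_mem _ _ (add_mem hp (Submodule.smul_mem _ _ hq))
    have e2 : ‖κ • F0 - κ • (p + σ • q)‖ ≤ 4 / 10 ^ 5 := by
      rw [← smul_sub, norm_smul, hκ, inv_mul_le_iff₀ n0]; linarith
    generalize κ • (p + σ • q) = Q at hP e2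
    have e3 : ‖Q‖ ≤ 5 / 4 := by
      have := norm_sub_norm_le Q (κ • F0)
      rw [norm_sub_rev, hF] at this
      linarith
    refine core_false h2 h3 (K := 5 * D) (B := C / r) hm hH hx1 hc0 hc0m (by positivity) ?_
      (by positivity) (fun u K γ β a1 a2 a3 a4 a5 => ?_) hσ hF (fun h => ?_) ?_
    · rw [← mul_div_assoc, div_le_iff₀ (by linarith)]; linarith
    · refine (hPL m a r c0 u K γ β hm hr1 hc0 a1 a2 a3 hG a4 a5).trans (le_of_eq ?_)
      ring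
    · have e4 := bern hP h
      have e5 : L h (κ • F0) - κ • F0 = L h (κ • F0 - Q) + (L h Q - Q) - (κ • F0 - Q) := by
        rw [map_sub]; abel
      have e6 := ds_nonneg h
      rw [e5]
      refine (norm_sub_le _ _).trans ?_
      have e7 := norm_add_le (L h (κ • F0 - Q)) (L h Q - Q)
      rw [norm_L] at e7
      push_cast at e4
      have e8 : 2 * (2 * (D : ℝ)) * ds h * ‖Q‖ ≤ 2 * (2 * (D : ℝ)) * ds h * (5 / 4) := by gcongr
      linarith
    · have e4 : ∀ s, ‖U a ei.1 x s (κ • F0) - σ • κ • F0‖ ^ 2 =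
          ‖F0‖⁻¹ ^ 2 * ‖U a ei.1 x s F0 - σ • F0‖ ^ 2 := fun s => by
        rw [map_smul, smul_comm σ κ, ← smul_sub, norm_smul, hκ, mul_pow]
      simp only [e4]
      rw [← Finset.mul_sum, inv_pow, inv_mul_le_iff₀ (by positivity)]
      linarith
  have main : ∀ k : ℕ, k ≤ N → ‖(T a ei.1 x ^ k) 1‖ ≤ θ ∨
      ‖(T a ei.1 x ^ k) 1‖ ≤ (1 - c0 / 10 ^ 6) ^ k := by
    intro k
    induction k with
    | zero => intro _; right; simp
    | succ k ih =>
      intro hk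
      rw [pow_succ', Module.End.mul_apply]
      rcases le_total ‖(T a ei.1 x ^ k) 1‖ θ with h | h
      · exact Or.inl ((norm_T ..).trans h)
      · rcases ih (by omega) with h' | h'
        · exact Or.inl ((norm_T ..).trans h')
        · right
          refine (step k (by omega) h).trans ?_
          rw [pow_succ' (1 - c0 / 10 ^ 6)]
          exact mul_le_mul_of_nonneg_left h' (by linarith)
  have : 0 ≤ (1 - c0 / 10 ^ 6) ^ N := pow_nonneg (by linarith) N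
  rcases main N le_rfl with h | h <;> linarith

end Pool.Agent.MP_9bb777_an.NG
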