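import Pool.Agent.MP_9bb777_an.NG.Spec

/-! The a priori polylogarithmic gap. -/

namespace Pool.Agent.MP_9bb777_an.NG

open MeasureTheory Quaternion Real Module
open scoped ComplexConjugate InnerProductSpace

namespace BaseGapP

lemma word_bound {m : ℕ} (a : Fin m → G) {e : H} {σ : ℂ} (hσ : ‖σ‖ = 1) {ε : ℝ}
    (h : ∀ s, ‖R (lt a s) e - σ • e‖ ≤ ε) (w : List (Ltr m)) :
    ‖R (wd a w) e - σ ^ w.length • e‖ ≤ w.length * ε := by
  induction w with
  | nil => simp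
  | cons s w ih =>
    have : R (wd a (s :: w)) e - σ ^ (s :: w).length • e =
        R (lt a s) (R (wd a w) e - σ ^ w.length • e) + σ ^ w.length • (R (lt a s) e - σ • e) := by
      rw [wd_cons, ← R_R, map_sub, map_smul, List.length_cons, pow_succ, mul_smul, smul_sub]; abel
    rw [this, List.length_cons]
    refine (norm_add_le _ _).trans ?_
    rw [norm_R, norm_smul, norm_pow, hσ, one_pow, one_mul]
    push_cast
    linarith [h s]

lemma letter_bound {m : ℕ} (hm : 1 ≤ m) (a : Fin m → G) {e : H} {ev σ c : ℝ} (he : ‖e‖ = 1)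
    (hP : P a e = (ev : ℂ) • e) (hσ : σ ^ 2 = 1) (hc : 1 - c < σ * ev) (s : Ltr m) :
    ‖R (lt a s) e - (σ : ℂ) • e‖ ^ 2 ≤ 4 * m * c := by
  have hm' : (1 : ℝ) ≤ m := by exact_mod_cast hm
  have hm0 : (2 * m : ℂ) ≠ 0 := by
    have : (m : ℂ) ≠ 0 := by exact_mod_cast (by omega : m ≠ 0)
    simpa using this
  have h1 : ∀ s, ‖R (lt a s) e - (σ : ℂ) • e‖ ^ 2 = 2 - 2 * σ * (⟪e, R (lt a s) e⟫_ℂ).re := by
    intro s
    rw [norm_sub_rev, @norm_sub_sq ℂ, norm_R, norm_smul, he, inner_smul_left, Complex.norm_real,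
      mul_one, Real.norm_eq_abs, sq_abs, hσ]
    simp
    ring
  have h2 : ∑ s, ⟪e, R (lt a s) e⟫_ℂ = ((2 * m * ev : ℝ) : ℂ) := by
    have : ∑ s, R (lt a s) e = (2 * m : ℂ) • P a e := by
      rw [P_def, smul_smul, mul_inv_cancel₀ hm0, one_smul]
    rw [← inner_sum, this, hP, inner_smul_right, inner_smul_right, inner_self_eq_norm_sq_to_K, he]
    push_cast; ring
  have h3 : ∑ s, (⟪e, R (lt a s) e⟫_ℂ).re = 2 * m * ev := by
    rw [← Complex.re_sum, h2, Complex.ofReal_re]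
  refine (Finset.single_le_sum (f := fun s => ‖R (lt a s) e - (σ : ℂ) • e‖ ^ 2)
    (fun s _ => by positivity) (Finset.mem_univ s)).trans ?_
  simp only [h1]
  rw [Finset.sum_sub_distrib, ← Finset.mul_sum, h3]
  simp
  nlinarith

lemma exists_j (l : ℕ) : ∃ j : ℕ, l + 3 ≤ 2 ^ j ∧ 2 ^ j ≤ 6 * (l + 1) := by
  refine ⟨Nat.log 2 (l + 3) + 1, (Nat.lt_pow_succ_log_self (by norm_num) _).le, ?_⟩
  have := Nat.pow_log_le_self 2 (by omega : l + 3 ≠ 0)
  rw [pow_succ]; omega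

end BaseGapP

open BaseGapP in
theorem base_holds : SKnet → EL → Jack0 → Base := by
  rintro hS ⟨C, -, hE⟩ hJ m a hm hd
  obtain ⟨l0, hl0, hnet⟩ := hS m a hd
  have hm' : (1 : ℝ) ≤ m := by exact_mod_cast hm
  have hl0' : (1 : ℝ) ≤ l0 := by exact_mod_cast hl0
  refine ⟨1 / (64 * m * l0 ^ 2 * 6 ^ 16), by positivity, fun l => ?_⟩
  by_contra hn
  obtain ⟨ev, lam, E, h1, h2, h3, -, h4, -⟩ := hE m a _ _ hm hn
  obtain ⟨e0, he0, hne⟩ := Submodule.exists_mem_ne_zero_of_ne_bot h3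
  obtain ⟨e, heE, he⟩ : ∃ e ∈ E, ‖e‖ = 1 :=
    ⟨((‖e0‖⁻¹ : ℝ) : ℂ) • e0, E.smul_mem _ he0, by
      rw [norm_smul, Complex.norm_real, norm_inv, norm_norm,
        inv_mul_cancel₀ (norm_ne_zero_iff.mpr hne)]⟩
  obtain ⟨σ, hσ, hσ'⟩ : ∃ σ : ℝ, σ ^ 2 = 1 ∧ σ * ev = |ev| := by
    rcases le_total 0 ev with h | h
    · exact ⟨1, by norm_num, by rw [abs_of_nonneg h, one_mul]⟩
    · exact ⟨-1, by norm_num, by rw [abs_of_nonpos h]; ring⟩
  have hσ1 : ‖(σ : ℂ)‖ = 1 := by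
    rw [Complex.norm_real, Real.norm_eq_abs, ← sq_eq_sq₀ (abs_nonneg _) zero_le_one, sq_abs, hσ,
      one_pow]
  obtain ⟨j, hj1, hj2⟩ := exists_j l
  set len : ℝ := l0 * 6 ^ 8 * ((l : ℝ) + 1) ^ 8 with hlen
  have hlen0 : 0 < len := by positivity
  have h5 : ∀ s, ‖R (lt a s) e - (σ : ℂ) • e‖ ≤ 1 / (4 * len) := fun s => by
    refine abs_le_of_sq_le_sq' ?_ (by positivity) |>.2
    refine (letter_bound hm a he (h4 e heE).1 hσ (hσ'.symm ▸ h1) s).trans (le_of_eq ?_)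
    rw [hlen]; field_simp; norm_num
  have h6 : ∀ g, ‖R g e - e‖ ≤ 1 / 2 := fun g => by
    obtain ⟨w, hw1, hw2, hw3⟩ := hnet j g
    have a1 := word_bound a hσ1 h5 w
    have a2 : (σ : ℂ) ^ w.length = 1 := by
      obtain ⟨k, hk⟩ := hw1
      rw [hk, ← two_mul, pow_mul, ← Complex.ofReal_pow, hσ]; simp
    have a3 : (w.length : ℝ) ≤ len := by
      have : w.length ≤ l0 * 6 ^ 8 * (l + 1) ^ 8 := by
        refine hw2.trans ?_
        have e : 256 ^ j = (2 ^ j) ^ 8 := by rw [← pow_mul, mul_comm, pow_mul]; norm_num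
        rw [mul_assoc, ← mul_pow, e]
        gcongr
      rw [hlen]; exact_mod_cast this
    have a4 : (w.length : ℝ) * (1 / (4 * len)) ≤ 1 / 4 := by
      rw [mul_one_div, div_le_div_iff₀ (by positivity) (by norm_num)]; linarith
    rw [a2, one_smul] at a1
    have a5 := bernR (h2 heE) ((wd a w)⁻¹ * g)
    rw [ds_inv_mul, he, mul_one] at a5
    have a6 : (1 / 2 : ℝ) ^ 2 ^ j ≤ (1 / 2) ^ (l + 3) :=
      pow_le_pow_of_le_one (by norm_num) (by norm_num) hj1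
    have a7 : 2 * ((2 ^ l : ℕ) : ℝ) * (1 / 2) ^ (l + 3) = 1 / 4 := by
      push_cast
      rw [pow_add, one_div, inv_pow]
      field_simp; norm_num
    have a8 : 2 * ((2 ^ l : ℕ) : ℝ) * ‖(wd a w : ℍ) - g‖ ≤ 1 / 4 := by
      rw [← a7]
      exact mul_le_mul_of_nonneg_left (hw3.trans a6) (by positivity)
    have a9 : R g e - e = R (wd a w) (R ((wd a w)⁻¹ * g) e - e) + (R (wd a w) e - e) := by
      rw [map_sub, R_R, mul_inv_cancel_left]; abel
    rw [a9]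
    refine (norm_add_le _ _).trans ?_
    rw [norm_R]
    linarith
  have h7 := hJ (Iv e) (1 / 2) (by rw [← inner_Iv, Iv_Iv, map_one]; exact (h4 e heE).2)
    fun h => by rw [← Iv_R, ← map_sub, norm_Iv]; exact h6 h
  rw [norm_Iv, he] at h7
  norm_num at h7

end Pool.Agent.MP_9bb777_an.NG
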