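import Pool.Agent.MP_9bb777_an.NG.Spec

/-! The proportion of degenerate words: a second moment bound over a grid of harmonic weights. -/

namespace Pool.Agent.MP_9bb777_an.NG

open MeasureTheory Quaternion Real Module
open scoped ComplexConjugate InnerProductSpace

namespace DegPP

variable {m : ℕ}

lemma dsum_sub (a : Fin m → G) (x y : Fin m → ℝ) (w : List (Ltr m)) :
    dsum a (x - y) w = -dsum a y w + dsum a x w := by
  simp only [dsum, Pi.sub_apply, sub_smul, Finset.sum_sub_distrib]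
  abel

lemma inner_ex (z u v : ℍ) : ⟪ex z u, ex z v⟫_ℂ = ⟪1, ex z (-u + v)⟫_ℂ := by
  rw [inner_one, inner_def, ex_add]
  congr 1; funext g
  rw [conj_ex, mul_ap]

lemma norm_T_pow (a : Fin m → G) (z : ℍ) (x : Fin m → ℝ) (N : ℕ) (F : H) :
    ‖(T a z x ^ N) F‖ ≤ ‖F‖ := by
  induction N with
  | zero => simp
  | succ N ih => rw [pow_succ', Module.End.mul_apply]; exact (norm_T ..).trans ih

lemma avg_inner (a : Fin m → G) (z : ℍ) (x y : Fin m → ℝ) (N : ℕ) :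
    ((2 * m : ℝ) ^ N)⁻¹ * ∑ w : Fin N → Ltr m,
      (⟪ex z (dsum a y (List.ofFn w)), ex z (dsum a x (List.ofFn w))⟫_ℂ).re ≤
      ‖(T a z (x - y) ^ N) 1‖ := by
  have h1 : ⟪1, (T a z (x - y) ^ N) 1⟫_ℂ = ((((2 * m : ℝ) ^ N)⁻¹ : ℝ) : ℂ) *
      ∑ w : Fin N → Ltr m, ⟪ex z (dsum a y (List.ofFn w)), ex z (dsum a x (List.ofFn w))⟫_ℂ := by
    rw [T_pow, inner_smul_right, inner_sum]
    push_cast
    congr 1
    refine Finset.sum_congr rfl fun w _ => ?_
    rw [map_one, mul_one, inner_ex, dsum_sub]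
  have h2 := norm_inner_le_norm (𝕜 := ℂ) (1 : H) ((T a z (x - y) ^ N) 1)
  rw [norm_oneH, one_mul] at h2
  refine le_trans (le_of_eq ?_) ((Complex.re_le_norm _).trans h2)
  rw [h1, Complex.re_ofReal_mul, Complex.re_sum]

lemma second {ι : Type} [Fintype ι] (a : Fin m → G) (z : ℍ) (x : ι → Fin m → ℝ) (N : ℕ)
    {Θ : ℝ} (hΘ : 0 ≤ Θ) (h : ∀ n n', n ≠ n' → ‖(T a z (x n - x n') ^ N) 1‖ ≤ Θ) :
    ((2 * m : ℝ) ^ N)⁻¹ * ∑ w : Fin N → Ltr m, ‖∑ n, ex z (dsum a (x n) (List.ofFn w))‖ ^ 2 ≤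
      Fintype.card ι + (Fintype.card ι : ℝ) ^ 2 * Θ := by
  classical
  have h1 : ∀ w : Fin N → Ltr m, ‖∑ n, ex z (dsum a (x n) (List.ofFn w))‖ ^ 2 = ∑ n', ∑ n,
      (⟪ex z (dsum a (x n') (List.ofFn w)), ex z (dsum a (x n) (List.ofFn w))⟫_ℂ).re := by
    intro w
    rw [@norm_sq_eq_re_inner ℂ, sum_inner]
    simp only [inner_sum, map_sum, RCLike.re_to_complex]
  simp only [h1]
  rw [Finset.sum_comm, Finset.mul_sum]
  have h2 : ∀ n', ((2 * m : ℝ) ^ N)⁻¹ * ∑ w : Fin N → Ltr m, ∑ n,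
      (⟪ex z (dsum a (x n') (List.ofFn w)), ex z (dsum a (x n) (List.ofFn w))⟫_ℂ).re ≤
      1 + Fintype.card ι * Θ := by
    intro n'
    rw [Finset.sum_comm, Finset.mul_sum]
    calc _ ≤ ∑ n, ((if n = n' then (1 : ℝ) else 0) + Θ) := by
          refine Finset.sum_le_sum fun n _ => (avg_inner a z _ _ N).trans ?_
          split_ifs with e
          · have := norm_T_pow a z (x n - x n') N 1
            rw [norm_oneH] at this
            linarith
          · rw [zero_add]; exact h n n' e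
      _ = _ := by simp [Finset.sum_add_distrib]
  refine (Finset.sum_le_sum fun n' _ => h2 n').trans (le_of_eq ?_)
  simp
  ring

lemma lower {ι : Type} [Fintype ι] (a : Fin m → G) (x : ι → Fin m → ℝ) (w : List (Ltr m))
    {η δ : ℝ} (hη : 0 ≤ η) (hδ : 2 * δ * w.length ≤ η) (hx : ∀ n, (∑ i, |x n i|) * (2 * η) ≤ 1)
    (hw : Deg a η w) :
    (Fintype.card ι / 2 : ℝ) ^ 2 * vol δ ≤ ‖∑ n, ex ei.1 (dsum a (x n) w)‖ ^ 2 := by
  obtain ⟨y, hy⟩ := hw
  obtain ⟨g1, hg⟩ := exists_cj y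
  have hg' : cj g1 ei.1 = y.1 := congrArg Subtype.val hg
  set S : H := ∑ n, ex ei.1 (dsum a (x n) w) with hS
  have key : ∀ g : G, ‖((g1⁻¹ : G) : ℍ) - g‖ ≤ δ → (Fintype.card ι / 2 : ℝ) ≤ ‖S g‖ := by
    intro g hgδ
    have h1 : ∀ i, |⟪ei.1, cj g (dcol a w i)⟫_ℝ| ≤ 2 * η := fun i => by
      have e : ⟪ei.1, cj g (dcol a w i)⟫_ℝ = ⟪y.1, dcol a w i⟫_ℝ -
          ⟪ei.1, cj g1⁻¹ (dcol a w i) - cj g (dcol a w i)⟫_ℝ := by
        rw [inner_sub_right, inner_cj_inv, hg']; ring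
      have h2 := abs_real_inner_le_norm ei.1 (cj g1⁻¹ (dcol a w i) - cj g (dcol a w i))
      rw [ei.norm, one_mul] at h2
      have h3 : 2 * ‖((g1⁻¹ : G) : ℍ) - g‖ * ‖dcol a w i‖ ≤ 2 * δ * w.length :=
        mul_le_mul (by linarith) (norm_dcol a w i) (norm_nonneg _)
          (by linarith [norm_nonneg (((g1⁻¹ : G) : ℍ) - g)])
      have h4 := norm_cj_sub g1⁻¹ g (dcol a w i)
      rw [e]
      linarith [abs_sub ⟪y.1, dcol a w i⟫_ℝ ⟪ei.1, cj g1⁻¹ (dcol a w i) - cj g (dcol a w i)⟫_ℝ,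
        hy i]
    have h2 : ∀ n, |⟪ei.1, cj g (dsum a (x n) w)⟫_ℝ| ≤ 1 := fun n => by
      refine le_trans ?_ (hx n)
      rw [dsum, map_sum, inner_sum, Finset.sum_mul]
      refine (Finset.abs_sum_le_sum_abs _ _).trans (Finset.sum_le_sum fun i _ => ?_)
      rw [map_smul, real_inner_smul_right, abs_mul]
      exact mul_le_mul_of_nonneg_left (h1 i) (abs_nonneg _)
    refine le_trans ?_ (Complex.re_le_norm _)
    rw [hS, sum_ap, Complex.re_sum]
    calc (Fintype.card ι / 2 : ℝ) = ∑ _n : ι, (1 / 2 : ℝ) := by simp; ring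
      _ ≤ _ := by
          refine Finset.sum_le_sum fun n _ => ?_
          rw [ex_ap, mul_comm, Complex.exp_ofReal_mul_I_re]
          have h3 := (sq_le_one_iff_abs_le_one _).mpr (h2 n)
          linarith [one_sub_sq_div_two_le_cos (x := ⟪ei.1, cj g (dsum a (x n) w)⟫_ℝ)]
  have hc : Continuous fun g : G => ‖S g‖ ^ 2 := by fun_prop
  have hB : MeasurableSet {g : G | ‖((g1⁻¹ : G) : ℍ) - g‖ ≤ δ} :=
    (isClosed_le (by fun_prop) continuous_const).measurableSet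
  rw [norm_sq_def, ← vol_tr g1⁻¹ δ]
  refine (setIntegral_ge_of_const_le_real hB (measure_ne_top _ _) (fun g hg => ?_)
    (intg hc).integrableOn).trans (setIntegral_le_integral (intg hc) ?_)
  · exact pow_le_pow_left₀ (by positivity) (key g hg) 2
  · exact Filter.Eventually.of_forall fun g => by positivity

lemma basis (a : Fin m → G) : ∃ b : Fin (m - 4) → EuclideanSpace ℝ (Fin m),
    Orthonormal ℝ b ∧ ∀ j, Harm a (b j) := by
  let Φ : EuclideanSpace ℝ (Fin m) →ₗ[ℝ] ℍ :=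
    { toFun := fun x => ∑ i, x i • (cj (a i) ei.1 - ei.1)
      map_add' := fun x y => by simp only [PiLp.add_apply, add_smul, Finset.sum_add_distrib]
      map_smul' := fun c x => by
        simp only [PiLp.smul_apply, smul_eq_mul, mul_smul, RingHom.id_apply, Finset.smul_sum] }
  have h1 := Φ.finrank_range_add_finrank_ker
  have h2 : finrank ℝ (LinearMap.range Φ) ≤ 4 :=
    (Submodule.finrank_le _).trans (le_of_eq Quaternion.finrank_eq_four)
  rw [finrank_euclideanSpace_fin] at h1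
  have h3 : m - 4 ≤ finrank ℝ (LinearMap.ker Φ) := by omega
  refine ⟨fun j => (stdOrthonormalBasis ℝ (LinearMap.ker Φ) (Fin.castLE h3 j) : _), ?_,
    fun j => (stdOrthonormalBasis ℝ (LinearMap.ker Φ) (Fin.castLE h3 j)).2⟩
  exact ((stdOrthonormalBasis ℝ (LinearMap.ker Φ)).orthonormal.comp _
    (Fin.castLE_injective h3)).comp_linearIsometry (LinearMap.ker Φ).subtypeₗᵢ

lemma comb (a : Fin m → G) : ∃ φ : (Fin (m - 4) → ℝ) →ₗ[ℝ] (Fin m → ℝ),
    ∀ c, Harm a (φ c) ∧ ∑ i, φ c i ^ 2 = ∑ j, c j ^ 2 := by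
  obtain ⟨b, hb, hH⟩ := basis a
  refine ⟨{ toFun := fun c i => ∑ j, c j * b j i
            map_add' := fun c d => by
              funext i; simp only [Pi.add_apply, add_mul, Finset.sum_add_distrib]
            map_smul' := fun r c => by
              funext i
              simp only [Pi.smul_apply, smul_eq_mul, RingHom.id_apply, Finset.mul_sum, mul_assoc] },
    fun c => ⟨?_, ?_⟩⟩
  · change ∑ i, (∑ j, c j * b j i) • (cj (a i) ei.1 - ei.1) = 0
    simp only [Finset.sum_smul, mul_smul]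
    rw [Finset.sum_comm]
    refine Finset.sum_eq_zero fun j _ => ?_
    rw [← Finset.smul_sum, hH j, smul_zero]
  · change ∑ i, (∑ j, c j * b j i) ^ 2 = _
    have h1 := hb.inner_sum c c Finset.univ
    rw [real_inner_self_eq_norm_sq, EuclideanSpace.real_norm_sq_eq] at h1
    simpa [sq] using h1

lemma l1 {x : Fin m → ℝ} {B : ℝ} (hB : 0 ≤ B) (h : ∑ i, x i ^ 2 ≤ m * B ^ 2) :
    ∑ i, |x i| ≤ m * B := by
  refine abs_le_of_sq_le_sq' ?_ (by positivity) |>.2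
  refine (sq_sum_le_card_mul_sum_sq (s := Finset.univ) (f := fun i => |x i|)).trans ?_
  simp only [sq_abs, Finset.card_univ, Fintype.card_fin]
  calc (m : ℝ) * ∑ i, x i ^ 2 ≤ m * (m * B ^ 2) := by gcongr
    _ = _ := by ring

lemma sq_bd {c : Fin (m - 4) → ℝ} {B : ℝ} (h : ∀ j, |c j| ≤ B) : ∑ j, c j ^ 2 ≤ m * B ^ 2 := by
  calc ∑ j, c j ^ 2 ≤ ∑ _j : Fin (m - 4), B ^ 2 :=
        Finset.sum_le_sum fun j _ => sq_le_sq' (abs_le.mp (h j)).1 (abs_le.mp (h j)).2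
    _ = ((m - 4 : ℕ) : ℝ) * B ^ 2 := by simp
    _ ≤ _ := mul_le_mul_of_nonneg_right (by exact_mod_cast Nat.sub_le m 4) (sq_nonneg B)

lemma grid (a : Fin m → G) (Y : ℕ) : ∃ x : (Fin (m - 4) → Fin Y) → Fin m → ℝ,
    (∀ n, ∑ i, |x n i| ≤ m * Y) ∧ ∀ n n', n ≠ n' → Harm a (x n - x n') ∧
      1 ≤ ∑ i, (x n - x n') i ^ 2 ∧ ∀ i, |(x n - x n') i| ≤ m * Y := by
  obtain ⟨φ, hφ⟩ := comb a
  have hY : ∀ k : Fin Y, (0 : ℝ) ≤ (k : ℕ) ∧ ((k : ℕ) : ℝ) ≤ Y := fun k =>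
    ⟨Nat.cast_nonneg _, by exact_mod_cast k.2.le⟩
  refine ⟨fun n => φ fun j => ((n j : ℕ) : ℝ), fun n => l1 (Nat.cast_nonneg _) ?_,
    fun n n' hn => ?_⟩
  · rw [(hφ _).2]
    exact sq_bd fun j => by rw [abs_of_nonneg (hY _).1]; exact (hY _).2
  · simp only [← map_sub]
    refine ⟨(hφ _).1, ?_, fun i => ?_⟩
    · rw [(hφ _).2]
      obtain ⟨j, hj⟩ := Function.ne_iff.mp hn
      refine le_trans ?_ (Finset.single_le_sum (fun j _ => sq_nonneg _) (Finset.mem_univ j))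
      have h1 : (((n j : ℕ) : ℤ) - ((n' j : ℕ) : ℤ)) ≠ 0 := fun e => hj (Fin.ext (by omega))
      have h2 : (1 : ℤ) ≤ (((n j : ℕ) : ℤ) - ((n' j : ℕ) : ℤ)) ^ 2 := sq_pos_of_ne_zero h1
      rw [Pi.sub_apply]
      exact_mod_cast h2
    · refine le_trans (Finset.single_le_sum (f := fun i => |φ _ i|) (fun j _ => abs_nonneg _)
        (Finset.mem_univ i)) (l1 (Nat.cast_nonneg _) ?_)
      rw [(hφ _).2]
      refine sq_bd fun j => ?_
      rw [Pi.sub_apply, abs_le]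
      constructor <;> linarith [hY (n j), hY (n' j)]

end DegPP

open DegPP in
theorem degP_holds : DegP := by
  obtain ⟨c, hc, hc1, hv⟩ := vol_lower
  refine ⟨256 / c, by rw [le_div_iff₀ hc]; linarith, fun m a N Y Θ hm hN hY hΘ h => ?_⟩
  obtain ⟨x, hx1, hx2⟩ := grid a Y
  have hm' : (1 : ℝ) ≤ m := by exact_mod_cast (by omega : 1 ≤ m)
  have hN' : (1 : ℝ) ≤ N := by exact_mod_cast hN
  have hY' : (1 : ℝ) ≤ Y := by exact_mod_cast hY
  have h2 := second a ei.1 x N hΘ fun n n' e => h _ (hx2 n n' e).1 (hx2 n n' e).2.1 (hx2 n n' e).2.2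
  have hcard : (Fintype.card (Fin (m - 4) → Fin Y) : ℝ) = (Y : ℝ) ^ (m - 4) := by simp
  set K : ℝ := (Y : ℝ) ^ (m - 4) with hK
  have hK0 : 0 < K := by positivity
  set B : ℝ := (N : ℝ) * m * Y with hB
  have hB1 : 1 ≤ B := one_le_mul_of_one_le_of_one_le (one_le_mul_of_one_le_of_one_le hN' hm') hY'
  have hvol := hv (1 / (4 * B)) (by positivity) (by rw [div_le_one (by positivity)]; linarith)
  have h3 : pr m N (Deg a (1 / (2 * m * Y))) ≤ 256 / c * B ^ 3 / K ^ 2 *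
      (((2 * m : ℝ) ^ N)⁻¹ * ∑ w : Fin N → Ltr m,
        ‖∑ n, ex ei.1 (dsum a (x n) (List.ofFn w))‖ ^ 2) := by
    rw [pr, mul_left_comm, Finset.mul_sum _ _ (256 / c * B ^ 3 / K ^ 2)]
    refine mul_le_mul_of_nonneg_left (Finset.sum_le_sum fun w _ => ?_) (by positivity)
    split_ifs with e
    · have h4 := lower a x (List.ofFn w) (δ := 1 / (4 * B)) (by positivity) (le_of_eq (by
        rw [List.length_ofFn, hB]; field_simp; ring)) (fun n => by
        refine (mul_le_mul_of_nonneg_right (hx1 n) (by positivity)).trans (le_of_eq ?_)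
        field_simp) e
      rw [hcard] at h4
      calc (1 : ℝ) = 256 / c * B ^ 3 / K ^ 2 * ((K / 2) ^ 2 * (c * (1 / (4 * B)) ^ 3)) := by
            field_simp; norm_num
        _ ≤ 256 / c * B ^ 3 / K ^ 2 * ((K / 2) ^ 2 * vol (1 / (4 * B))) := by gcongr
        _ ≤ _ := by gcongr
    · positivity
  rw [hcard] at h2
  refine h3.trans ((mul_le_mul_of_nonneg_left h2 (by positivity)).trans (le_of_eq ?_))
  rw [one_div, inv_pow, ← hK]
  field_simp

end Pool.Agent.MP_9bb777_an.NG
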