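import Pool.Agent.MP_9bb777_an.NG.Spec

/-! Greedy choice of three columns, and linearisation of a word. -/

namespace Pool.Agent.MP_9bb777_an.NG

open Quaternion Real
open scoped InnerProductSpace

namespace GLP

variable {m : ℕ}

lemma pick {a : Fin m → G} {η : ℝ} {w : List (Ltr m)} (h : ¬Deg a η w) {v : ℍ} (h0 : v.re = 0)
    (hv : v ≠ 0) : ∃ i, η * ‖v‖ < |⟪v, dcol a w i⟫_ℝ| := by
  have hn : 0 < ‖v‖ := norm_pos_iff.2 hv
  by_contra hc
  push Not at hc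
  refine h ⟨⟨‖v‖⁻¹ • v, by simp [h0], ?_⟩, fun i => ?_⟩
  · rw [normSq_eq_norm_mul_self, norm_smul, norm_inv, norm_norm, inv_mul_cancel₀ hn.ne', one_mul]
  · show |⟪‖v‖⁻¹ • v, dcol a w i⟫_ℝ| ≤ η
    rw [real_inner_smul_left, abs_mul, abs_of_pos (inv_pos.2 hn), inv_mul_le_iff₀ hn, mul_comm]
    exact hc i

lemma perp (d : ℍ) : ∃ v : ℍ, v.re = 0 ∧ v ≠ 0 ∧ (d.re = 0 → ⟪v, d⟫_ℝ = 0) := by
  by_cases h : d.imI = 0
  · refine ⟨⟨0, 1, 0, 0⟩, rfl, fun e => ?_, fun _ => ?_⟩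
    · have := congrArg QuaternionAlgebra.imI e
      simp at this
    · simp [Quaternion.inner_def, h]
  · refine ⟨⟨0, -d.imJ, d.imI, 0⟩, rfl, fun e => h ?_, fun _ => ?_⟩
    · simpa using congrArg QuaternionAlgebra.imJ e
    · simp [Quaternion.inner_def]
      ring

lemma norm_im_le (x : ℍ) : ‖x.im‖ ≤ ‖x‖ := by
  refine abs_le_of_sq_le_sq' ?_ (norm_nonneg _) |>.2
  rw [sq, sq, ← normSq_eq_norm_mul_self, ← normSq_eq_norm_mul_self, normSq_def', normSq_def']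
  simp
  nlinarith [sq_nonneg x.re]

lemma triple {v d e : ℍ} (hv : v.re = 0) (hd : d.re = 0) (he : e.re = 0) (h : ⟪v, d⟫_ℝ = 0) :
    |⟪v, e⟫_ℝ| * ‖d‖ ≤ ‖v‖ * ‖(d * e).im‖ := by
  have k : (v * (d * e).im).im = ⟪v, e⟫_ℝ • d := by
    rw [Quaternion.inner_def] at h ⊢
    simp [hv, hd] at h
    ext
    · simp [hd]
    · simp [hv, hd, he]
      linear_combination (-e.imI) * h
    · simp [hv, hd, he]
      linear_combination (-e.imJ) * h
    · simp [hv, hd, he]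
      linear_combination (-e.imK) * h
  rw [← Real.norm_eq_abs, ← norm_smul, ← k, ← norm_mul]
  exact norm_im_le _

lemma det_eq {d e f : ℍ} (hf : f.re = 0) : |⟪(d * e).im, f⟫_ℝ| = |(d * e * f).re| := by
  rw [← abs_neg]
  generalize d * e = c
  simp only [Quaternion.inner_def, re_mul, hf, re_im, imI_im, imJ_im, imK_im, re_star, imI_star,
    imJ_star, imK_star]
  exact congrArg _ (by ring)

lemma letter (a : Fin m → G) (t : Fin m → ℝ) (s : Ltr m) :
    ∃ (X : Pu) (r : ℝ), lt (fun i => a i * qq ei (t i)) s * (lt a s)⁻¹ = qq X r ∧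
      |r| = |t s.1| ∧ r • X.1 = t s.1 • vl a s := by
  obtain ⟨i, _ | _⟩ := s
  · refine ⟨ei, -t i, ?_, abs_neg _, ?_⟩
    · simp [lt, qq_neg]
    · simp [vl]
  · exact ⟨cjP (a i) ei, t i, by simp [lt, qq_cj], rfl, rfl⟩

lemma lin (a : Fin m → G) (t : Fin m → ℝ) {τ : ℝ} (h1 : τ ≤ 1) (ht : ∀ i, |t i| ≤ τ)
    (w : List (Ltr m)) :
    ds (wd (fun i => a i * qq ei (t i)) w * (wd a w)⁻¹) ≤ w.length * τ ∧
    ‖((wd (fun i => a i * qq ei (t i)) w * (wd a w)⁻¹ : G) : ℍ) - 1 - dsum a t w‖ ≤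
      (w.length * τ) ^ 2 := by
  induction w with
  | nil => simp [ds]
  | cons s w ih =>
    obtain ⟨X, r, e1, e2, e3⟩ := letter a t s
    have r1 : |r| ≤ τ := e2 ▸ ht s.1
    have t0 : 0 ≤ τ := (abs_nonneg _).trans r1
    set g := wd (fun i => a i * qq ei (t i)) w * (wd a w)⁻¹ with hg
    have e : wd (fun i => a i * qq ei (t i)) (s :: w) * (wd a (s :: w))⁻¹ =
        qq X r * (lt a s * g * (lt a s)⁻¹) := by
      rw [← e1, hg, wd_cons, wd_cons]
      group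
    have d1 : ds (qq X r) ≤ τ := (ds_qq X r).trans r1
    have d2 : ds (lt a s * g * (lt a s)⁻¹) ≤ w.length * τ := (ds_conj _ _).trans_le ih.1
    rw [e, List.length_cons, dsum_cons, ← e3, Nat.cast_succ]
    refine ⟨(ds_mul_le _ _).trans (by linarith), ?_⟩
    have d3 : ‖(qq X r : ℍ) - 1 - r • X.1‖ ≤ τ ^ 2 :=
      (qq_lin X (r1.trans h1)).trans (sq_le_sq' (abs_le.1 r1).1 (abs_le.1 r1).2)
    have d4 : ‖((lt a s * g * (lt a s)⁻¹ : G) : ℍ) - 1 - cj (lt a s) (dsum a t w)‖ ≤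
        (w.length * τ) ^ 2 := by
      have : ((lt a s * g * (lt a s)⁻¹ : G) : ℍ) - 1 - cj (lt a s) (dsum a t w) =
          cj (lt a s) ((g : ℍ) - 1 - dsum a t w) := by
        rw [map_sub, map_sub, cj_coe, cj_one']
      rw [this, norm_cj]
      exact ih.2
    have d5 := mul_le_mul d1 d2 (ds_nonneg _) t0
    rw [ds, ds, ← norm_mul] at d5
    generalize lt a s * g * (lt a s)⁻¹ = h at d4 d5 ⊢
    have k : (qq X r : ℍ) * h - 1 - (r • X.1 + cj (lt a s) (dsum a t w)) =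
        ((qq X r : ℍ) - 1 - r • X.1) + ((h : ℍ) - 1 - cj (lt a s) (dsum a t w)) +
          ((qq X r : ℍ) - 1) * ((h : ℍ) - 1) := by
      rw [mul_sub, sub_mul, sub_mul, one_mul, mul_one, mul_one]
      abel
    rw [coe_mulG, k]
    refine (norm_add₃_le).trans ?_
    have n0 : (0 : ℝ) ≤ w.length := Nat.cast_nonneg _
    nlinarith [mul_nonneg n0 (mul_nonneg t0 t0)]

end GLP

theorem greedy_holds : Greedy := by
  intro m a η w h0 h
  obtain ⟨i, hi⟩ := GLP.pick h ei.2.1 (norm_pos_iff.1 (by rw [ei.norm]; exact one_pos))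
  have h1 : η < ‖dcol a w i‖ := by
    have := abs_real_inner_le_norm ei.1 (dcol a w i)
    rw [ei.norm] at hi this
    linarith
  obtain ⟨v, v0, v1, v2⟩ := GLP.perp (dcol a w i)
  obtain ⟨j, hj⟩ := GLP.pick h v0 v1
  have hv : 0 < ‖v‖ := norm_pos_iff.2 v1
  have k := GLP.triple v0 (re_dcol a w i) (re_dcol a w j) (v2 (re_dcol a w i))
  have h2 : η * ‖dcol a w i‖ < ‖(dcol a w i * dcol a w j).im‖ := by
    have := mul_lt_mul_of_pos_right hj (h0.trans_lt h1)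
    refine lt_of_mul_lt_mul_left ?_ hv.le
    linarith
  have h3 : η ^ 2 ≤ η * ‖dcol a w i‖ := by nlinarith
  obtain ⟨k, hk⟩ := GLP.pick h (v := (dcol a w i * dcol a w j).im) (re_im _)
    (norm_pos_iff.1 (lt_of_le_of_lt (by positivity) h2))
  refine ⟨i, j, k, ?_⟩
  rw [GLP.det_eq (re_dcol a w k)] at hk
  have := mul_le_mul_of_nonneg_left (h3.trans h2.le) h0
  unfold det3
  nlinarith

theorem linW_holds : LinW := fun _ a t _ w h1 ht => (GLP.lin a t h1 ht w).2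

end Pool.Agent.MP_9bb777_an.NG
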