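import Pool.Agent.MP_9bb777_an.NG.Spec

/-! Row HENS: the measure of the tuples on which a nondegenerate word is close to the identity. -/

namespace Pool.Agent.MP_9bb777_an.NG

open MeasureTheory Quaternion Real Module

namespace HensP

variable {m : ℕ}

lemma abs_re (x : ℍ) : |x.re| ≤ ‖x‖ := by
  refine abs_le_of_sq_le_sq' ?_ (norm_nonneg _) |> abs_le.2
  rw [sq ‖x‖, ← normSq_eq_norm_mul_self, normSq_def']
  nlinarith [sq_nonneg x.imI, sq_nonneg x.imJ, sq_nonneg x.imK]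

lemma cramer {p q r : ℍ} (hp : p.re = 0) (hq : q.re = 0) (hr : r.re = 0) (x y z : ℝ) :
    ((x • p + y • q + z • r) * q * r).re = x * (p * q * r).re ∧
    (p * (x • p + y • q + z • r) * r).re = y * (p * q * r).re ∧
    (p * q * (x • p + y • q + z • r)).re = z * (p * q * r).re := by
  refine ⟨?_, ?_, ?_⟩ <;> simp [hp, hq, hr] <;> ring

lemma degen {p q : ℍ} (hp : p.re = 0) (hq : q.re = 0) :
    (p * p * q).re = 0 ∧ (p * q * q).re = 0 ∧ (p * q * p).re = 0 := by
  refine ⟨?_, ?_, ?_⟩ <;> simp [hp, hq] <;> ring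

/-- weights on three coordinates -/
def tt (i j k : Fin m) (x y z : ℝ) : Fin m → ℝ := Pi.single i x + Pi.single j y + Pi.single k z

lemma dsum_tt (a : Fin m → G) (w : List (Ltr m)) (i j k : Fin m) (x y z : ℝ) :
    dsum a (tt i j k x y z) w = x • dcol a w i + y • dcol a w j + z • dcol a w k := by
  simp [dsum, tt, add_smul, Finset.sum_add_distrib, Pi.single_apply]

lemma tt_le {i j k : Fin m} (h1 : i ≠ j) (h2 : j ≠ k) (h3 : i ≠ k) {x y z s : ℝ} (hx : |x| ≤ s)
    (hy : |y| ≤ s) (hz : |z| ≤ s) (l : Fin m) : |tt i j k x y z l| ≤ s := by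
  have : 0 ≤ s := (abs_nonneg _).trans hx
  simp only [tt, Pi.add_apply, Pi.single_apply]
  split_ifs <;> simp_all

lemma tt_add (i j k : Fin m) (x y z x' y' z' : ℝ) (l : Fin m) :
    tt i j k x y z l = tt i j k x' y' z' l + tt i j k (x - x') (y - y') (z - z') l := by
  simp only [tt, Pi.add_apply, Pi.single_apply]
  split_ifs <;> ring

lemma re3 {p q r : ℍ} {A N : ℝ} (hN : 0 ≤ N) (hp : ‖p‖ ≤ A) (hq : ‖q‖ ≤ N) (hr : ‖r‖ ≤ N) :
    ‖p‖ * ‖q‖ * ‖r‖ ≤ A * N ^ 2 := by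
  have : 0 ≤ A := (norm_nonneg _).trans hp
  calc ‖p‖ * ‖q‖ * ‖r‖ ≤ A * N * N := by gcongr
    _ = A * N ^ 2 := by ring

/-- two points of the set on a short orbit are very close -/
lemma sep (hL : LinW) {a : Fin m → G} {w : List (Ltr m)} {i j k : Fin m} {δ η x y z : ℝ}
    (h1 : i ≠ j) (h2 : j ≠ k) (h3 : i ≠ k) (hη : 0 < η) (hη1 : η ≤ 1) (hN : (1 : ℝ) ≤ w.length)
    (ha : ds (wd a w) ≤ δ) (hd : η ^ 3 ≤ |det3 a w i j k|)
    (hb : ds (wd (fun l => a l * qq ei (tt i j k x y z l)) w) ≤ δ)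
    (hs : max |x| (max |y| |z|) ≤ η ^ 3 / (2 * (w.length : ℝ) ^ 4)) :
    max |x| (max |y| |z|) * η ^ 3 ≤ 4 * δ * (w.length : ℝ) ^ 2 := by
  set s := max |x| (max |y| |z|) with hsd
  set N : ℝ := (w.length : ℝ) with hNd
  have N0 : 0 < N := by linarith
  have hx : |x| ≤ s := le_max_left _ _
  have hy : |y| ≤ s := (le_max_left _ _).trans (le_max_right _ _)
  have hz : |z| ≤ s := (le_max_right _ _).trans (le_max_right _ _)
  have s0 : 0 ≤ s := (abs_nonneg _).trans hx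
  have N4 : 1 ≤ N ^ 4 := one_le_pow₀ hN
  have η3 : η ^ 3 ≤ 1 := pow_le_one₀ hη.le hη1
  rw [le_div_iff₀ (by positivity)] at hs
  have lin := hL m a (tt i j k x y z) s w (by nlinarith) (tt_le h1 h2 h3 hx hy hz)
  have hg : ds (wd (fun l => a l * qq ei (tt i j k x y z l)) w * (wd a w)⁻¹) ≤ 2 * δ := by
    have := ds_mul_le (wd (fun l => a l * qq ei (tt i j k x y z l)) w) (wd a w)⁻¹
    rw [ds_inv] at this
    linarith
  have hD : ‖dsum a (tt i j k x y z) w‖ ≤ 2 * δ + (N * s) ^ 2 := by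
    have := norm_sub_le (((wd (fun l => a l * qq ei (tt i j k x y z l)) w * (wd a w)⁻¹ : G) : ℍ) - 1)
      (((wd (fun l => a l * qq ei (tt i j k x y z l)) w * (wd a w)⁻¹ : G) : ℍ) - 1 -
        dsum a (tt i j k x y z) w)
    rw [sub_sub_cancel] at this
    exact this.trans (add_le_add hg lin)
  obtain ⟨c1, c2, c3⟩ := cramer (re_dcol a w i) (re_dcol a w j) (re_dcol a w k) x y z
  rw [← dsum_tt] at c1 c2 c3
  have ni := norm_dcol a w i
  have nj := norm_dcol a w j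
  have nk := norm_dcol a w k
  have key : ∀ (t : ℝ) (q : ℍ), q.re = t * det3 a w i j k →
      ‖q‖ ≤ (2 * δ + (N * s) ^ 2) * N ^ 2 → |t| * η ^ 3 ≤ (2 * δ + (N * s) ^ 2) * N ^ 2 := by
    intro t q e hq
    have := abs_re q
    rw [e, abs_mul] at this
    exact (mul_le_mul_of_nonneg_left hd (abs_nonneg t)).trans (this.trans hq)
  have k1 := key x _ c1 (by rw [norm_mul, norm_mul]; exact re3 N0.le hD nj nk)
  have k2 := key y _ c2 (by
    rw [norm_mul, norm_mul, mul_comm ‖dcol a w i‖]; exact re3 N0.le hD ni nk)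
  have k3 := key z _ c3 (by
    rw [norm_mul, norm_mul, mul_comm, ← mul_assoc]; exact re3 N0.le hD ni nj)
  have k : s * η ^ 3 ≤ (2 * δ + (N * s) ^ 2) * N ^ 2 := by
    rcases max_choice |x| (max |y| |z|) with e | e
    · rw [← hsd] at e
      rw [← e] at k1
      exact k1
    · rcases max_choice |y| |z| with e' | e'
      · rw [← hsd, e'] at e
        rw [← e] at k2
        exact k2
      · rw [← hsd, e'] at e
        rw [← e] at k3
        exact k3
  nlinarith [mul_le_mul_of_nonneg_left hs s0]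

lemma grid_le {n : ℕ} (u v : Fin n) {σ τ : ℝ} (hσ : 0 ≤ σ) (h : ((n : ℝ) - 1) * σ ≤ τ) :
    |σ * (u : ℕ) - σ * (v : ℕ)| ≤ τ := by
  have hu : ((u : ℕ) : ℝ) + 1 ≤ n := by exact_mod_cast u.2
  have hv : ((v : ℕ) : ℝ) + 1 ≤ n := by exact_mod_cast v.2
  have u0 : (0 : ℝ) ≤ (u : ℕ) := Nat.cast_nonneg _
  have v0 : (0 : ℝ) ≤ (v : ℕ) := Nat.cast_nonneg _
  rw [abs_le]
  constructor <;> nlinarith

lemma grid_eq {n : ℕ} {u v : Fin n} {σ : ℝ} (hσ : 0 < σ)
    (h : |σ * (u : ℕ) - σ * (v : ℕ)| < σ) : u = v := by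
  rw [abs_lt] at h
  have h1 : ((u : ℕ) : ℝ) < (v : ℕ) + 1 := by nlinarith [h.2]
  have h2 : ((v : ℕ) : ℝ) < (u : ℕ) + 1 := by nlinarith [h.1]
  have h1' : (u : ℕ) < v + 1 := by exact_mod_cast h1
  have h2' : (v : ℕ) < u + 1 := by exact_mod_cast h2
  exact Fin.ext (by omega)

end HensP

open HensP in
theorem hens_holds : LinW → Hens := by
  intro hL m w i j k δ η hδ hη hη1
  set E := {a : Fin m → G | ds (wd a w) ≤ δ ∧ η ^ 3 ≤ |det3 a w i j k|} with hE
  rcases E.eq_empty_or_nonempty with h0 | ⟨a0, -, hd0⟩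
  · rw [h0, measureReal_empty]
    positivity
  have η3 : 0 < η ^ 3 := by positivity
  have d0 : det3 a0 w i j k ≠ 0 := abs_pos.1 (η3.trans_le hd0)
  have h1 : i ≠ j := by
    rintro rfl
    exact d0 (degen (re_dcol a0 w i) (re_dcol a0 w k)).1
  have h2 : j ≠ k := by
    rintro rfl
    exact d0 (degen (re_dcol a0 w i) (re_dcol a0 w j)).2.1
  have h3 : i ≠ k := by
    rintro rfl
    exact d0 (degen (re_dcol a0 w i) (re_dcol a0 w j)).2.2
  have hN : (1 : ℝ) ≤ w.length := by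
    cases w with
    | nil => exact absurd (by simp [det3, dcol]) d0
    | cons s w => simp
  set N : ℝ := (w.length : ℝ) with hNd
  have N0 : 0 < N := by linarith
  have cd : Continuous fun a : Fin m → G => det3 a w i j k := continuous_re.comp
    (((continuous_dcol w i).mul (continuous_dcol w j)).mul (continuous_dcol w k))
  have cw : Continuous fun a : Fin m → G => ds (wd a w) := continuous_ds.comp (continuous_wd w)
  have mE : MeasurableSet E := ((isClosed_le cw continuous_const).inter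
    (isClosed_le continuous_const cd.abs)).measurableSet
  obtain ⟨τ, hτ⟩ : ∃ τ, τ = η ^ 3 / (2 * N ^ 4) := ⟨_, rfl⟩
  obtain ⟨σ, hσ⟩ : ∃ σ, σ = 5 * δ * N ^ 2 / η ^ 3 := ⟨_, rfl⟩
  have τ0 : 0 < τ := by rw [hτ]; positivity
  have σ0 : 0 < σ := by rw [hσ]; positivity
  obtain ⟨n, hn⟩ : ∃ n : ℕ, n = ⌊τ / σ⌋₊ + 1 := ⟨_, rfl⟩
  have n1 : ((n : ℝ) - 1) * σ ≤ τ := by
    rw [hn, ← le_div_iff₀ σ0]
    simpa using Nat.floor_le (div_pos τ0 σ0).le
  have n2 : τ / σ ≤ n := by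
    rw [hn]
    simpa using (Nat.lt_floor_add_one (τ / σ)).le
  let c : Fin n × Fin n × Fin n → Fin m → G := fun u l =>
    qq ei (tt i j k (σ * (u.1 : ℕ)) (σ * (u.2.1 : ℕ)) (σ * (u.2.2 : ℕ)) l)
  have hsum := sum_measureReal_le_measureReal_univ (μ := Measure.pi fun _ : Fin m => hm)
    (s := Finset.univ) (t := fun u => (fun a => a * c u) ⁻¹' E)
    (fun u _ => measurable_mul_const (c u) mE) (fun u _ v _ huv => by
      refine Set.disjoint_left.2 fun a hu hv => huv ?_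
      have e : a * c u = fun l => (a * c v) l * qq ei (tt i j k (σ * (u.1 : ℕ) - σ * (v.1 : ℕ))
          (σ * (u.2.1 : ℕ) - σ * (v.2.1 : ℕ)) (σ * (u.2.2 : ℕ) - σ * (v.2.2 : ℕ)) l) := by
        funext l
        simp only [Pi.mul_apply, c]
        rw [mul_assoc, ← qq_add, ← tt_add]
      have hb : ds (wd (a * c u) w) ≤ δ := hu.1
      rw [e] at hb
      have := sep hL h1 h2 h3 hη hη1 hN hv.1 hv.2 hb (by
        rw [← hNd, ← hτ]
        exact max_le (grid_le _ _ σ0.le n1) (max_le (grid_le _ _ σ0.le n1) (grid_le _ _ σ0.le n1)))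
      rw [← hNd, ← le_div_iff₀ η3] at this
      have lt : 4 * δ * N ^ 2 / η ^ 3 < σ := by
        rw [hσ]
        exact div_lt_div_of_pos_right (by nlinarith [mul_pos hδ (pow_pos N0 2)]) η3
      have := this.trans_lt lt
      rw [max_lt_iff, max_lt_iff] at this
      exact Prod.ext (grid_eq σ0 this.1) (Prod.ext (grid_eq σ0 this.2.1) (grid_eq σ0 this.2.2)))
  simp only [measureReal_def, measure_preimage_mul_right, measure_univ, ENNReal.toReal_one,
    Finset.sum_const, Finset.card_univ, Fintype.card_prod, Fintype.card_fin, nsmul_eq_mul] at hsum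
  push_cast at hsum
  have p3 : (τ / σ) ^ 3 ≤ (n : ℝ) * (n * n) := by
    calc (τ / σ) ^ 3 ≤ (n : ℝ) ^ 3 := pow_le_pow_left₀ (div_pos τ0 σ0).le n2 3
      _ = _ := by ring
  have fin := (mul_le_mul_of_nonneg_right p3 ENNReal.toReal_nonneg).trans hsum
  have e : 1000 * δ ^ 3 * N ^ 18 / η ^ 18 = 1 / (τ / σ) ^ 3 := by
    rw [hτ, hσ]
    field_simp
    norm_num
  rw [e, measureReal_def, le_div_iff₀ (by positivity), mul_comm]
  exact fin

end Pool.Agent.MP_9bb777_an.NG
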