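import Pool.Agent.MP_9bb777_an.NG.Spec

/-! Assembly of the near spectral gap theorem on unit quaternions. -/

namespace Pool.Agent.MP_9bb777_an.NG.MainGP

open Real

lemma exp21 : (10 : ℝ) ^ 9 ≤ Real.exp 21 := by
  have h1 : (2.718 : ℝ) ≤ Real.exp 1 := by have := Real.exp_one_gt_d9; linarith
  have h2 : Real.exp 21 = Real.exp 1 ^ 21 := by
    rw [← Real.exp_nat_mul]; norm_num
  rw [h2]
  calc (10 : ℝ) ^ 9 ≤ 2.718 ^ 21 := by norm_num
    _ ≤ Real.exp 1 ^ 21 := pow_le_pow_left₀ (by norm_num) h1 21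

lemma clog_le (J : ℕ) (hJ : 2 ≤ J) : (Nat.clog 2 J : ℝ) ≤ 3 * Real.log J := by
  have h1 : 2 ^ (Nat.clog 2 J).pred < J := Nat.pow_pred_clog_lt_self (by norm_num) (by omega)
  have h0 : 0 < Nat.clog 2 J := Nat.clog_pos (by norm_num) (by omega)
  obtain ⟨k, hk⟩ : ∃ k, Nat.clog 2 J = k + 1 := ⟨Nat.clog 2 J - 1, by omega⟩
  rw [hk] at h1 ⊢
  simp only [Nat.pred_succ] at h1
  have h2 : (2 : ℝ) ^ k ≤ J := by exact_mod_cast h1.le
  have h3 : (k : ℝ) * Real.log 2 ≤ Real.log J := by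
    rw [← Real.log_pow]; exact Real.log_le_log (by positivity) h2
  have h4 : Real.log 2 ≤ Real.log J :=
    Real.log_le_log (by norm_num) (by exact_mod_cast hJ)
  have h5 : (0.69 : ℝ) ≤ Real.log 2 := by have := Real.log_two_gt_d9; linarith
  have hk0 : (0 : ℝ) ≤ k := Nat.cast_nonneg k
  push_cast
  nlinarith

end Pool.Agent.MP_9bb777_an.NG.MainGP

namespace Pool.Agent.MP_9bb777_an.NG

open MeasureTheory Real

theorem mainG_holds : Base → BC → Step → Rec → MainG := by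
  intro hB hBC hS hR m hm
  obtain ⟨b, hb, hb1, hb2⟩ : ∃ b : ℕ, 38 ≤ b ∧ 36 * b + 4 ≤ m ∧ m ≤ 50 * b :=
    ⟨(m - 4) / 36, by omega, by omega, by omega⟩
  obtain ⟨n1, hn1⟩ := hS m b hb hb1
  filter_upwards [hBC m b (by omega) hb] with a ha hd
  obtain ⟨n2, hn2⟩ := ha
  obtain ⟨c1, hc1, hbase⟩ := hB m a (by omega) hd
  have hmR : (1400 : ℝ) ≤ m := by exact_mod_cast hm
  have hlog : 0 < Real.log (m / 100) := Real.log_pos (by linarith)
  have hA : 0 < 21 / Real.log (m / 100) := by positivity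
  have hpow : (10 : ℝ) ^ 9 ≤ ((b : ℝ) / 2) ^ (21 / Real.log (m / 100)) := by
    have h1 : (m : ℝ) / 100 ≤ (b : ℝ) / 2 := by
      have : (m : ℝ) ≤ 50 * b := by exact_mod_cast hb2
      linarith
    have h2 : ((m : ℝ) / 100) ^ (21 / Real.log (m / 100)) = Real.exp 21 := by
      rw [Real.rpow_def_of_pos (by linarith)]
      congr 1
      field_simp
    calc (10 : ℝ) ^ 9 ≤ Real.exp 21 := MainGP.exp21
      _ = ((m : ℝ) / 100) ^ (21 / Real.log (m / 100)) := h2.symm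
      _ ≤ _ := Real.rpow_le_rpow (by linarith) h1 hA.le
  obtain ⟨c, hc, hall⟩ := hR (fun l c => Gap a (2 ^ l) c) b (max n1 n2) (1 / m) c1
    (21 / Real.log (m / 100)) hb (by apply div_pos <;> linarith) hc1 hA hpow
    (fun l l' c c' h hl hc => h.mono (Nat.pow_le_pow_right (by norm_num) hl) hc) hbase
    (fun n c0 c hn h0 h1 h2 h3 h4 h5 =>
      hn1 a n c0 c (le_trans (le_max_left _ _) hn) (hn2 n (le_trans (le_max_right _ _) hn))
        h0 h1 h2 h3 h4 h5)
  refine ⟨c * (3 : ℝ) ^ (-(21 / Real.log (m / 100))), by positivity, fun J hJ => ?_⟩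
  have h0 : 0 < Nat.clog 2 J := Nat.clog_pos (by norm_num) (by omega)
  refine (hall (Nat.clog 2 J) h0).mono (Nat.le_pow_clog (by norm_num) J) ?_
  have hlJ : 0 < Real.log J := Real.log_pos (by exact_mod_cast hJ)
  rw [mul_assoc, ← Real.mul_rpow (by norm_num) hlJ.le]
  refine mul_le_mul_of_nonneg_left ?_ hc.le
  exact Real.rpow_le_rpow_of_nonpos (by exact_mod_cast h0) (MainGP.clog_le J hJ) (by linarith)

end Pool.Agent.MP_9bb777_an.NG
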