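import Pool.Agent.MP_9bb777_an.NG.Spec

/-! Projection onto polynomials: a Poincare inequality and descent of a bad eigenvalue. -/

namespace Pool.Agent.MP_9bb777_an.NG

open MeasureTheory Quaternion Real Module
open scoped ComplexConjugate InnerProductSpace

namespace PLELP

variable {m : ℕ}

lemma R_pi (k : ℕ) (s : G) (u : H) :
    (V k).starProjection (R s u) = R s ((V k).starProjection u) :=
  Submodule.eq_starProjection_of_mem_of_inner_eq_zero
    (R_mem s ((V k).starProjection_apply_mem u)) fun w hw => by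
      rw [← map_sub, inner_R_left]
      exact Submodule.starProjection_inner_eq_zero u _ (R_mem _ hw)

lemma P_pi (k : ℕ) (a : Fin m → G) (u : H) :
    (V k).starProjection (P a u) = P a ((V k).starProjection u) := by
  rw [P_def, P_def, map_smul, map_sum]
  simp only [R_pi]

lemma one_pi (k : ℕ) (u : H) : ⟪1, (V k).starProjection u⟫_ℂ = ⟪1, u⟫_ℂ := by
  rw [← Submodule.inner_starProjection_left_eq_right,
    Submodule.starProjection_eq_self_iff.2 (one_mem_V k)]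

lemma one_one : ⟪(1 : H), 1⟫_ℂ = 1 := by
  rw [inner_self_eq_norm_sq_to_K, norm_oneH]
  simp

lemma rest {k : ℕ} {u : H} {B : ℝ} (hB : 0 ≤ B) (h : ∀ v ∈ (V k)ᗮ, ‖⟪u, v⟫_ℂ‖ ≤ B * ‖v‖) :
    ‖u - (V k).starProjection u‖ ≤ B := by
  have hv : u - (V k).starProjection u ∈ (V k)ᗮ := Submodule.sub_starProjection_mem_orthogonal u
  have h1 := h _ hv
  have h2 : ⟪(V k).starProjection u, u - (V k).starProjection u⟫_ℂ = 0 :=
    Submodule.inner_right_of_mem_orthogonal ((V k).starProjection_apply_mem u) hv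
  generalize (V k).starProjection u = p at h1 h2 ⊢
  have h3 : ⟪u, u - p⟫_ℂ = ⟪u - p, u - p⟫_ℂ := by rw [inner_sub_left, h2, sub_zero]
  rw [h3, inner_self_eq_norm_sq_to_K, norm_pow, RCLike.norm_ofReal, abs_norm, sq] at h1
  rcases (norm_nonneg (u - p)).eq_or_lt with h0 | h0
  · exact h0 ▸ hB
  · exact le_of_mul_le_mul_right h1 h0

lemma energy (hm : 1 ≤ m) (a : Fin m → G) {f : H} {c : ℝ} (h : ‖P a f‖ ≤ (1 - c) * ‖f‖) :
    2 * m * (2 * c * ‖f‖ ^ 2) ≤ ∑ s, ‖R (lt a s) f - f‖ ^ 2 := by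
  have hm0 : (m : ℂ) ≠ 0 := by exact_mod_cast (by omega : m ≠ 0)
  have e1 : ∑ s, R (lt a s) f = (2 * m : ℂ) • P a f := by
    rw [P_def, smul_smul, mul_inv_cancel₀ (mul_ne_zero two_ne_zero hm0), one_smul]
  have e2 : ∑ s, RCLike.re ⟪R (lt a s) f, f⟫_ℂ ≤ 2 * m * ((1 - c) * ‖f‖ * ‖f‖) := by
    rw [← map_sum, ← sum_inner, e1]
    refine (re_inner_le_norm _ _).trans ?_
    rw [norm_smul, norm_mul, Complex.norm_two, Complex.norm_natCast, mul_assoc]
    gcongr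
  simp only [norm_sub_sq (𝕜 := ℂ), norm_R, Finset.sum_add_distrib, Finset.sum_sub_distrib,
    Finset.sum_const, Finset.card_univ, Fintype.card_prod, Fintype.card_fin, Fintype.card_bool,
    ← Finset.mul_sum, nsmul_eq_mul]
  push_cast
  linarith

end PLELP

open PLELP

theorem pl_holds : Jack → PL := by
  rintro ⟨C, hC, hJ⟩
  refine ⟨C, hC, fun m a r c0 u K γ β hm hr hc hK hγ hβ hG hL hs => ?_⟩
  have h1 := rest (u := u) (by positivity) fun v hv => hJ r hr u v K γ hK hγ hL hv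
  have h2 : (V (r ^ 4)).starProjection u - ⟪1, u⟫_ℂ • (1 : H) ∈ V (r ^ 4) :=
    sub_mem ((V _).starProjection_apply_mem u) (Submodule.smul_mem _ _ (one_mem_V _))
  have h3 := energy hm a (hG _ h2 (by
    rw [inner_sub_right, one_pi, inner_smul_right, one_one, mul_one, sub_self]))
  have h4 : ∑ s, ‖R (lt a s) ((V (r ^ 4)).starProjection u - ⟪1, u⟫_ℂ • (1 : H)) -
      ((V (r ^ 4)).starProjection u - ⟪1, u⟫_ℂ • (1 : H))‖ ^ 2 ≤ ∑ s, ‖R (lt a s) u - u‖ ^ 2 := by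
    refine Finset.sum_le_sum fun s _ => pow_le_pow_left₀ (norm_nonneg _) ?_ 2
    rw [map_sub, map_smul, map_one, sub_sub_sub_cancel_right, ← R_pi, ← map_sub]
    exact Submodule.norm_starProjection_apply_le _ _
  have hm0 : (0 : ℝ) < m := by exact_mod_cast hm
  have h5 : ‖(V (r ^ 4)).starProjection u - ⟪1, u⟫_ℂ • (1 : H)‖ ≤ β :=
    (abs_le_of_sq_le_sq' (le_of_mul_le_mul_left (le_of_mul_le_mul_left
      ((h3.trans h4).trans hs) (by positivity)) (by positivity)) hβ).2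
  calc ‖u - ⟪1, u⟫_ℂ • (1 : H)‖
      ≤ ‖u - (V (r ^ 4)).starProjection u‖ +
        ‖(V (r ^ 4)).starProjection u - ⟪1, u⟫_ℂ • (1 : H)‖ := norm_sub_le_norm_sub_add_norm_sub ..
    _ ≤ _ := by linarith

theorem el_holds : Jack → EL := by
  rintro ⟨C, hC, hJ⟩
  refine ⟨4 * C, by linarith, fun m a J c hm hG => ?_⟩
  simp only [Gap, not_forall, not_le] at hG
  obtain ⟨f, hf, hf1, hf2⟩ := hG
  let V0 : Submodule ℂ H := V J ⊓ LinearMap.ker (innerₛₗ ℂ (1 : H))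
  have mem {e : H} : e ∈ V0 ↔ e ∈ V J ∧ ⟪1, e⟫_ℂ = 0 := Iff.rfl
  have _ : FiniteDimensional ℂ V0 := Submodule.finiteDimensional_of_le inf_le_left
  have hf0 : f ≠ 0 := by
    rintro rfl
    simp at hf2
  have _ : Nontrivial V0 :=
    ⟨⟨⟨f, mem.2 ⟨hf, hf1⟩⟩, 0, fun h => hf0 (congrArg Subtype.val h)⟩⟩
  have hP : ∀ e ∈ V0, P a e ∈ V0 := fun e he =>
    mem.2 ⟨P_mem a (mem.1 he).1, by rw [← P_sym, P_one hm, (mem.1 he).2]⟩
  obtain ⟨μ, v, hv, h1, h2⟩ := eig (T := (P a).restrict hP) fun x y => P_sym a x y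
  have hμ : 1 - c < |μ| :=
    lt_of_mul_lt_mul_right (hf2.trans_le (h2 ⟨f, mem.2 ⟨hf, hf1⟩⟩)) (norm_nonneg f)
  let E : Submodule ℂ H := V0 ⊓ Module.End.eigenspace (P a) μ
  have memE {e : H} : e ∈ E ↔ e ∈ V0 ∧ P a e = (μ : ℂ) • e :=
    Submodule.mem_inf.trans (and_congr_right fun _ => Module.End.mem_eigenspace_iff)
  have hE : E ≤ V J := inf_le_left.trans inf_le_left
  have hvE : (v : H) ∈ E := memE.2 ⟨v.2, congrArg Subtype.val h1⟩
  have hv0 : (v : H) ≠ 0 := fun h => hv (Subtype.ext h)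
  have hL : ∀ h, ∀ e ∈ E, L h e ∈ E := fun h e he => memE.2 ⟨mem.2 ⟨L_mem h (hE he), by
    rw [← map_one (L h), inner_L, (mem.1 (memE.1 he).1).2]⟩, by
    rw [← L_P, (memE.1 he).2, map_smul]⟩
  obtain ⟨lam, l0, -, l1, l2⟩ := spack hE hL
  refine ⟨μ, lam, E, hμ, hE, (Submodule.ne_bot_iff _).2 ⟨v, hvE, hv0⟩, hL,
    fun e he => ⟨(memE.1 he).2, (mem.1 (memE.1 he).1).2⟩, l1, fun r hr hl hG => ?_⟩
  have hr0 : (0 : ℝ) < r := by exact_mod_cast hr
  have h3 := rest (u := (v : H)) (by positivity) fun w hw => hJ r hr v w (2 * lam * ‖(v : H)‖) 0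
    (by positivity) le_rfl (fun h => (l2 h v hvE).trans_eq (by ring)) hw
  have h4 := hG _ ((V (r ^ 4)).starProjection_apply_mem v)
    (by rw [one_pi, (mem.1 v.2).2])
  rw [← P_pi, (memE.1 hvE).2, map_smul, norm_smul, Complex.norm_real, Real.norm_eq_abs] at h4
  have h5 : (V (r ^ 4)).starProjection (v : H) = 0 := by
    by_contra h
    exact absurd (le_of_mul_le_mul_right h4 (norm_pos_iff.2 h)) (not_le.2 hμ)
  have h6 : 0 < ‖(v : H)‖ := norm_pos_iff.2 hv0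
  rw [h5, sub_zero, add_zero, le_div_iff₀ hr0] at h3
  nlinarith

end Pool.Agent.MP_9bb777_an.NG
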