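import Pool.Agent.MP_9bb777_an.NG.Spec

/-! The abstract recursion for the gap. -/

namespace Pool.Agent.MP_9bb777_an.NG.RecP

open Filter Topology

lemma ev_pow (K : ℝ) (hK : 0 < K) : ∃ n0 : ℕ, ∀ n, n0 ≤ n → K * (n : ℝ) ^ 17 ≤ 2 ^ n := by
  have h := tendsto_pow_const_div_const_pow_of_one_lt 17 (r := (2 : ℝ)) (by norm_num)
  have h2 : ∀ᶠ n : ℕ in atTop, (n : ℝ) ^ 17 / 2 ^ n < 1 / K :=
    h.eventually (gt_mem_nhds (by positivity))
  obtain ⟨n0, hn0⟩ := eventually_atTop.mp h2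
  refine ⟨n0, fun n hn => ?_⟩
  have h3 := hn0 n hn
  rw [div_lt_div_iff₀ (by positivity) hK] at h3
  linarith

lemma ev_min (B M c1 : ℝ) (hB : 0 < B) (hM : 0 < M) (hc : 0 < c1) :
    ∃ n0 : ℕ, ∀ n : ℕ, n0 ≤ n → B * n ≤ M * 2 ^ n ∧
      B * n ≤ c1 / (((12 * n : ℕ) : ℝ) + 1) ^ 16 * 2 ^ n := by
  obtain ⟨p, hp⟩ := ev_pow (B / M) (by positivity)
  obtain ⟨q, hq⟩ := ev_pow (B * 13 ^ 16 / c1) (by positivity)
  refine ⟨max 1 (max p q), fun n hn => ?_⟩
  have h1 : 1 ≤ n := le_trans (le_max_left _ _) hn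
  have h1R : (1 : ℝ) ≤ n := by exact_mod_cast h1
  have hpn := hp n (le_trans (le_trans (le_max_left _ _) (le_max_right _ _)) hn)
  have hqn := hq n (le_trans (le_trans (le_max_right _ _) (le_max_right _ _)) hn)
  constructor
  · have h2 : (n : ℝ) ≤ (n : ℝ) ^ 17 := le_self_pow₀ h1R (by norm_num)
    rw [div_mul_eq_mul_div, div_le_iff₀ hM] at hpn
    nlinarith [mul_le_mul_of_nonneg_left h2 hB.le]
  · have h2 : (((12 * n : ℕ) : ℝ) + 1) ^ 16 ≤ (13 * (n : ℝ)) ^ 16 :=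
      pow_le_pow_left₀ (by positivity) (by push_cast; linarith) 16
    rw [div_mul_eq_mul_div, div_le_iff₀ hc] at hqn
    rw [div_mul_eq_mul_div, le_div_iff₀ (by positivity)]
    calc B * n * (((12 * n : ℕ) : ℝ) + 1) ^ 16 ≤ B * n * (13 * (n : ℝ)) ^ 16 :=
          mul_le_mul_of_nonneg_left h2 (by positivity)
      _ = B * 13 ^ 16 * (n : ℝ) ^ 17 := by ring
      _ ≤ c1 * 2 ^ n := by linarith

lemma drop (b n k A : ℝ) (hk : 0 < k) (hb : 0 < b) (hA : 0 < A) (h : b / 2 * k ≤ n)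
    (hp : 10 ^ 9 ≤ (b / 2) ^ A) : n ^ (-A) ≤ k ^ (-A) / 10 ^ 9 := by
  have h1 : n ^ (-A) ≤ (b / 2 * k) ^ (-A) :=
    Real.rpow_le_rpow_of_nonpos (by positivity) h (by linarith)
  rw [Real.mul_rpow (by positivity) hk.le, Real.rpow_neg (by positivity : (0 : ℝ) ≤ b / 2)] at h1
  have h2 : ((b / 2) ^ A)⁻¹ ≤ ((10 : ℝ) ^ 9)⁻¹ := inv_anti₀ (by positivity) hp
  have h3 : 0 ≤ k ^ (-A) := Real.rpow_nonneg hk.le _
  calc n ^ (-A) ≤ ((b / 2) ^ A)⁻¹ * k ^ (-A) := h1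
    _ ≤ ((10 : ℝ) ^ 9)⁻¹ * k ^ (-A) := mul_le_mul_of_nonneg_right h2 h3
    _ = k ^ (-A) / 10 ^ 9 := by ring

end Pool.Agent.MP_9bb777_an.NG.RecP

namespace Pool.Agent.MP_9bb777_an.NG

theorem rec_holds : Rec := by
  intro g b n1 M c1 A hb hM hc1 hA hp hmono hbase hstep
  have hbR : (38 : ℝ) ≤ b := by exact_mod_cast hb
  obtain ⟨p, hp0⟩ := RecP.ev_min (37 * b * 10 ^ 6) M c1 (by positivity) hM hc1
  obtain ⟨n0, h01, h02, h03⟩ : ∃ n0 : ℕ, n1 ≤ n0 ∧ b ≤ n0 ∧ p ≤ n0 :=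
    ⟨n1 + b + p, by omega, by omega, by omega⟩
  obtain ⟨c, hc, hcA, hcB⟩ : ∃ c : ℝ, 0 < c ∧
      c ≤ c1 / (((12 * b * n0 : ℕ) : ℝ) + 1) ^ 16 ∧ c ≤ M / 10 ^ 9 :=
    ⟨min _ _, lt_min (by positivity) (by positivity), min_le_left _ _, min_le_right _ _⟩
  have hle : ∀ n : ℕ, 1 ≤ n → c * (n : ℝ) ^ (-A) ≤ c := fun n hn => by
    have : (n : ℝ) ^ (-A) ≤ 1 :=
      Real.rpow_le_one_of_one_le_of_nonpos (by exact_mod_cast hn) (by linarith)
    nlinarith
  have key : ∀ n : ℕ, 1 ≤ n → g (12 * b * n) (c * (n : ℝ) ^ (-A)) := by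
    intro n
    induction n using Nat.strong_induction_on with
    | _ n ih =>
      intro hn
      by_cases hn0 : n ≤ n0
      · exact hmono _ _ _ _ (hbase (12 * b * n0)) (Nat.mul_le_mul_left _ hn0)
          ((hle n hn).trans hcA)
      · have hbn : b ≤ n := by omega
        obtain ⟨k, hk1, hk2, hk3, hk4⟩ : ∃ k : ℕ, 1 ≤ k ∧ k < n ∧ n ≤ b * k ∧ b * k ≤ 2 * n := by
          refine ⟨n / b + 1, Nat.le_add_left 1 _, ?_, ?_, ?_⟩
          · have : n / b ≤ n / 38 := Nat.div_le_div_left hb (by norm_num)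
            omega
          · exact (Nat.lt_mul_div_succ n (by omega)).le
          · have := Nat.mul_div_le n b
            rw [Nat.mul_add]; omega
        have hkR : (0 : ℝ) < k := by exact_mod_cast hk1
        have g1 : g (12 * n) (c * (k : ℝ) ^ (-A)) :=
          hmono _ _ _ _ (ih k hk2 hk1) (by rw [mul_assoc]; omega) le_rfl
        have g2 := hbase (12 * n)
        have hd : (n : ℝ) ^ (-A) ≤ (k : ℝ) ^ (-A) / 10 ^ 9 := by
          refine RecP.drop b n k A hkR (by linarith) hA ?_ hp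
          have : (b : ℝ) * k ≤ 2 * n := by exact_mod_cast hk4
          linarith
        obtain ⟨e1, e2⟩ := hp0 n (by omega)
        obtain ⟨c2, g3, h21, h22⟩ : ∃ c2 : ℝ, g (12 * n) c2 ∧ c * (k : ℝ) ^ (-A) ≤ c2 ∧
            c1 / (((12 * n : ℕ) : ℝ) + 1) ^ 16 ≤ c2 := by
          rcases le_total (c * (k : ℝ) ^ (-A)) (c1 / (((12 * n : ℕ) : ℝ) + 1) ^ 16) with h | h
          · exact ⟨_, g2, h, le_rfl⟩
          · exact ⟨_, g1, le_rfl, h⟩
        have hc2 : 0 < c2 := lt_of_lt_of_le (by positivity) h22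
        have h2n : (0 : ℝ) < 2 ^ n := by positivity
        refine hstep n (min c2 M) _ (by omega) (lt_min hc2 hM) (min_le_right _ _) ?_ ?_
          (hmono _ _ _ _ g3 le_rfl (min_le_left _ _)) ?_
        · rcases le_total c2 M with h | h
          · rw [min_eq_left h]
            nlinarith [mul_le_mul_of_nonneg_right h22 h2n.le]
          · rw [min_eq_right h]; linarith
        · rcases le_total c2 M with h | h
          · rw [min_eq_left h]
            nlinarith [mul_le_mul_of_nonneg_left hd hc.le]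
          · rw [min_eq_right h]; exact (hle n hn).trans hcB
        · refine hmono _ _ _ _ (ih (n - 1) (by omega) (by omega)) le_rfl ?_
          refine mul_le_mul_of_nonneg_left ?_ hc.le
          refine Real.rpow_le_rpow_of_nonpos ?_ ?_ (by linarith)
          · exact_mod_cast (by omega : 0 < n - 1)
          · exact_mod_cast Nat.sub_le n 1
  refine ⟨c, hc, fun l hl => hmono _ _ _ _ (key l hl) ?_ le_rfl⟩
  exact Nat.le_mul_of_pos_left l (by omega)

end Pool.Agent.MP_9bb777_an.NG
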