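import Pool.Agent.MP_9bb777_an.NG.Spec

/-! Solovay-Kitaev nets of words of even length. -/

namespace Pool.Agent.MP_9bb777_an.NG

open MeasureTheory Quaternion Real Module

namespace SKnetP

variable {m : ℕ}

/-- every point is within `ε` of an even word of length at most `l` -/
def Net (a : Fin m → G) (l : ℕ) (ε : ℝ) : Prop :=
  ∀ g : G, ∃ w : List (Ltr m), Even w.length ∧ w.length ≤ l ∧ ‖(wd a w : ℍ) - g‖ ≤ ε

lemma Net.mono {a : Fin m → G} {l l' : ℕ} {ε ε' : ℝ} (h : Net a l ε) (hl : l ≤ l')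
    (he : ε ≤ ε') : Net a l' ε' := fun g => by
  obtain ⟨w, h1, h2, h3⟩ := h g
  exact ⟨w, h1, h2.trans hl, h3.trans he⟩

lemma exists_word (a : Fin m → G) {k : G} (hk : k ∈ Subgroup.closure (Set.range a)) :
    ∃ w : List (Ltr m), wd a w = k := by
  induction hk using Subgroup.closure_induction with
  | mem x hx =>
    obtain ⟨i, rfl⟩ := hx
    exact ⟨[(i, true)], by simp [wd_cons, lt]⟩
  | one => exact ⟨[], rfl⟩
  | mul x y _ _ hx hy =>
    obtain ⟨v, rfl⟩ := hx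
    obtain ⟨w, rfl⟩ := hy
    exact ⟨v ++ w, wd_append a v w⟩
  | inv x _ hx =>
    obtain ⟨v, rfl⟩ := hx
    exact ⟨_, wd_rev a v⟩

lemma norm_sq_sub (k h : G) : ‖((k * k : G) : ℍ) - (h * h : G)‖ ≤ 2 * ‖(k : ℍ) - h‖ := by
  have : ((k * k : G) : ℍ) - (h * h : G) = ((k : ℍ) - h) * k + h * ((k : ℍ) - h) := by
    rw [coe_mulG, coe_mulG]; noncomm_ring
  rw [this]
  refine (norm_add_le _ _).trans (le_of_eq ?_)
  rw [norm_mul, norm_mul, nG, nG]; ring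

lemma base (a : Fin m → G) (hd : Dense (Subgroup.closure (Set.range a) : Set G)) {d : ℝ}
    (h0 : 0 < d) : ∃ l : ℕ, 1 ≤ l ∧ Net a l d := by
  classical
  set O : List (Ltr m) → Set G := fun w => {g | ‖(wd a (w ++ w) : ℍ) - g‖ < d}
  have ho : ∀ w, IsOpen (O w) := fun w => isOpen_lt (by fun_prop) continuous_const
  have hc : (Set.univ : Set G) ⊆ ⋃ w, O w := fun g _ => by
    obtain ⟨h, rfl⟩ := exists_sq g
    obtain ⟨k, hk, hk'⟩ := hd.exists_dist_lt h (half_pos h0)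
    obtain ⟨w, rfl⟩ := exists_word a hk
    refine Set.mem_iUnion.mpr ⟨w, ?_⟩
    change ‖_‖ < d
    rw [wd_append]
    refine (norm_sq_sub _ _).trans_lt ?_
    rw [Subtype.dist_eq, dist_eq_norm, norm_sub_rev] at hk'
    linarith
  obtain ⟨t, ht⟩ := isCompact_univ.elim_finite_subcover O ho hc
  refine ⟨2 * t.sup List.length + 1, by omega, fun g => ?_⟩
  obtain ⟨w, hw, hg⟩ := Set.mem_iUnion₂.mp (ht (Set.mem_univ g))
  have hl : w.length ≤ t.sup List.length := Finset.le_sup (f := List.length) hw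
  refine ⟨w ++ w, ?_, ?_, le_of_lt hg⟩
  · rw [List.length_append]; exact ⟨_, rfl⟩
  · rw [List.length_append]; omega

lemma comm_est {v w : G} {x y : ℍ} {s : ℝ} (h0 : 0 ≤ s) (h1 : s ≤ 1) (hx : ‖x‖ ≤ s)
    (hy : ‖y‖ ≤ s) (hv : ‖(v : ℍ) - 1 - x‖ ≤ 2 * s ^ 2) (hw : ‖(w : ℍ) - 1 - y‖ ≤ 2 * s ^ 2) :
    ‖((v * w * v⁻¹ * w⁻¹ : G) : ℍ) - 1 - (x * y - y * x)‖ ≤ 124 * s ^ 3 := by
  have hs : s ^ 2 ≤ s := by nlinarith
  have ha : ‖(v : ℍ) - 1‖ ≤ 3 * s := by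
    have := norm_add_le ((v : ℍ) - 1 - x) x
    rw [sub_add_cancel] at this
    linarith
  have hb : ‖(w : ℍ) - 1‖ ≤ 3 * s := by
    have := norm_add_le ((w : ℍ) - 1 - y) y
    rw [sub_add_cancel] at this
    linarith
  have hc : ‖((v⁻¹ * w⁻¹ : G) : ℍ) - 1‖ ≤ 6 * s := by
    have := ds_mul_le v⁻¹ w⁻¹
    rw [ds_inv, ds_inv] at this
    unfold ds at this
    linarith
  have e1 : ((v * w * v⁻¹ * w⁻¹ : G) : ℍ) = (v : ℍ) * w * ((v⁻¹ * w⁻¹ : G) : ℍ) := by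
    rw [mul_assoc (v * w)]; rfl
  have e2 : (w : ℍ) * v * ((v⁻¹ * w⁻¹ : G) : ℍ) = 1 := by
    rw [← coe_mulG, ← coe_mulG, ← coe_oneG]; congr 1; group
  set c : ℍ := ((v⁻¹ * w⁻¹ : G) : ℍ)
  set α : ℍ := (v : ℍ) - 1 with hα
  set β : ℍ := (w : ℍ) - 1 with hβ
  have e3 : (v : ℍ) * w * c - 1 = (α * β - β * α) * c := by
    rw [← e2, hα, hβ]; noncomm_ring
  have e4 : (α * β - β * α) * c - (x * y - y * x) = (α * β - β * α) * (c - 1) +
      (((α - x) * β + x * (β - y)) - ((β - y) * α + y * (α - x))) := by noncomm_ring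
  rw [e1, e3, e4]
  have n1 : ‖α * β - β * α‖ ≤ 18 * s ^ 2 := by
    refine (norm_sub_le _ _).trans ?_
    rw [norm_mul, norm_mul]
    have := mul_le_mul ha hb (norm_nonneg _) (by positivity)
    nlinarith
  have n2 : ‖(α * β - β * α) * (c - 1)‖ ≤ 108 * s ^ 3 := by
    rw [norm_mul]
    have := mul_le_mul n1 hc (norm_nonneg _) (by positivity)
    nlinarith
  have n3 : ∀ e b z f : ℍ, ‖e‖ ≤ 2 * s ^ 2 → ‖b‖ ≤ 3 * s → ‖z‖ ≤ s → ‖f‖ ≤ 2 * s ^ 2 →
      ‖e * b + z * f‖ ≤ 8 * s ^ 3 := fun e b z f he hb hz hf => by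
    refine (norm_add_le _ _).trans ?_
    rw [norm_mul, norm_mul]
    have k1 := mul_le_mul he hb (norm_nonneg _) (by positivity)
    have k2 := mul_le_mul hz hf (norm_nonneg _) h0
    nlinarith
  have n4 := n3 _ _ _ _ hv hb hx hw
  have n5 := n3 _ _ _ _ hw ha hy hv
  refine (norm_add_le _ _).trans ?_
  have := norm_sub_le ((α - x) * β + x * (β - y)) ((β - y) * α + y * (α - x))
  linarith

lemma ejk : ej.1 * ek.1 - ek.1 * ej.1 = (2 : ℝ) • ei.1 := by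
  ext <;> simp [ei, ej, ek]
  norm_num

lemma step {a : Fin m → G} {l : ℕ} {s : ℝ} (h0 : 0 < s) (h1 : s ≤ 1 / 2)
    (h : Net a l (s ^ 2)) : Net a (5 * l) (144 * s ^ 3) := fun g => by
  obtain ⟨u, u1, u2, u3⟩ := h g
  obtain ⟨X, t, hX, ht⟩ := polar (g * (wd a u)⁻¹)
  rw [ds_mul_inv, norm_sub_rev] at ht
  have ht2 : |t| ≤ 2 * s ^ 2 := by linarith
  obtain ⟨k, rfl⟩ := exists_cj X
  have hts : |t / (2 * s)| ≤ s := by
    rw [abs_div, abs_of_pos (by positivity : 0 < 2 * s), div_le_iff₀ (by positivity)]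
    nlinarith
  have near : ∀ (Y : Pu) (r : ℝ), |r| ≤ s → ∃ w : List (Ltr m), Even w.length ∧ w.length ≤ l ∧
      ‖(wd a w : ℍ) - 1 - r • Y.1‖ ≤ 2 * s ^ 2 ∧ ‖r • Y.1‖ ≤ s := fun Y r hr => by
    obtain ⟨w, w1, w2, w3⟩ := h (qq Y r)
    refine ⟨w, w1, w2, ?_, by rwa [norm_smul, Y.norm, mul_one, Real.norm_eq_abs]⟩
    have k1 := qq_lin Y (t := r) (by linarith)
    have k2 : r ^ 2 ≤ s ^ 2 := sq_le_sq' (abs_le.mp hr).1 (abs_le.mp hr).2
    have k3 := norm_add_le ((wd a w : ℍ) - qq Y r) ((qq Y r : ℍ) - 1 - r • Y.1)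
    rw [show (wd a w : ℍ) - qq Y r + ((qq Y r : ℍ) - 1 - r • Y.1) =
      (wd a w : ℍ) - 1 - r • Y.1 by abel] at k3
    linarith
  obtain ⟨v, v1, v2, v3, v4⟩ := near (cjP k ej) s (by rw [abs_of_pos h0])
  obtain ⟨w, w1, w2, w3, w4⟩ := near (cjP k ek) _ hts
  have hc := comm_est h0.le (by linarith) v4 w4 v3 w3
  have e : s • (cjP k ej).1 * (t / (2 * s)) • (cjP k ek).1 -
      (t / (2 * s)) • (cjP k ek).1 * s • (cjP k ej).1 = t • (cjP k ei).1 := by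
    change s • cj k ej.1 * (t / (2 * s)) • cj k ek.1 -
      (t / (2 * s)) • cj k ek.1 * s • cj k ej.1 = t • cj k ei.1
    rw [smul_mul_smul_comm, smul_mul_smul_comm, mul_comm (t / (2 * s)), ← smul_sub, ← cj_mul',
      ← cj_mul', ← map_sub, ejk, map_smul, smul_smul]
    congr 1
    field_simp
  rw [e] at hc
  have hl := qq_lin (cjP k ei) (t := t) (by nlinarith)
  rw [← hX] at hl
  have ht3 : t ^ 2 ≤ 4 * s ^ 3 := by
    have := sq_le_sq' (abs_le.mp ht2).1 (abs_le.mp ht2).2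
    have h3 : 0 < s ^ 3 := by positivity
    nlinarith
  refine ⟨v ++ w ++ (v.map flip).reverse ++ (w.map flip).reverse ++ u, ?_, ?_, ?_⟩
  · simp only [List.length_append, List.length_reverse, List.length_map]
    exact (((v1.add w1).add v1).add w1).add u1
  · simp only [List.length_append, List.length_reverse, List.length_map]
    omega
  · rw [wd_append, wd_append, wd_append, wd_append, wd_rev, wd_rev]
    set c : G := wd a v * wd a w * (wd a v)⁻¹ * (wd a w)⁻¹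
    have e1 : ‖((c * wd a u : G) : ℍ) - g‖ = ‖(c : ℍ) - (g * (wd a u)⁻¹ : G)‖ := by
      rw [← ds_mul_inv, ← ds_mul_inv]; congr 1; group
    rw [e1]
    have k3 := norm_sub_le ((c : ℍ) - 1 - t • (cjP k ei).1)
      (((g * (wd a u)⁻¹ : G) : ℍ) - 1 - t • (cjP k ei).1)
    rw [show (c : ℍ) - 1 - t • (cjP k ei).1 -
      (((g * (wd a u)⁻¹ : G) : ℍ) - 1 - t • (cjP k ei).1) =
        (c : ℍ) - (g * (wd a u)⁻¹ : G) by abel] at k3
    have h3 : 0 < s ^ 3 := by positivity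
    linarith

lemma step2 {a : Fin m → G} {l : ℕ} {s : ℝ} (h0 : 0 < s) (h1 : s ≤ 1 / 12 ^ 5)
    (h : Net a l (s ^ 4)) : Net a (25 * l) ((s ^ 2) ^ 4) := by
  have h2 : s ≤ 1 / 24 := h1.trans (by norm_num)
  have k1 : s ^ 2 ≤ 1 / 2 := by nlinarith
  have k2 : 12 * s ^ 3 ≤ 1 / 2 := by nlinarith
  have a1 := step (s := s ^ 2) (by positivity) k1 (h.mono le_rfl (le_of_eq (by ring)))
  have a2 := step (s := 12 * s ^ 3) (by positivity) k2 (a1.mono le_rfl (le_of_eq (by ring)))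
  refine a2.mono (le_of_eq (by ring)) ?_
  have h8 : 0 < s ^ 8 := by positivity
  have k3 : 12 ^ 5 * s ≤ 1 := by
    rw [le_div_iff₀ (by norm_num)] at h1; linarith
  calc 144 * (12 * s ^ 3) ^ 3 = s ^ 8 * (12 ^ 5 * s) := by ring
    _ ≤ s ^ 8 * 1 := by gcongr
    _ = _ := by ring

end SKnetP

open SKnetP in
theorem sknet_holds : SKnet := fun m a hd => by
  set s : ℝ := 1 / 12 ^ 5 with hs
  have h0 : 0 < s := by positivity
  have h1 : s ≤ 1 / 2 := by rw [hs]; norm_num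
  have h2 : s ≤ 1 := h1.trans (by norm_num)
  obtain ⟨l0, hl0, hb⟩ := base a hd (d := s ^ 4) (by positivity)
  have key : ∀ j : ℕ, Net a (l0 * 256 ^ j) ((s ^ 2 ^ j) ^ 4) := fun j => by
    induction j with
    | zero => simpa using hb
    | succ j ih =>
      have hj : s ^ 2 ^ j ≤ s :=
        pow_le_of_le_one h0.le h2 (by positivity)
      refine (step2 (by positivity) hj ih).mono ?_ (le_of_eq ?_)
      · rw [pow_succ]; nlinarith [Nat.zero_le (l0 * 256 ^ j)]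
      · rw [pow_succ 2 j, pow_mul]
  refine ⟨l0, hl0, fun j => (key j).mono le_rfl ?_⟩
  calc (s ^ 2 ^ j) ^ 4 ≤ s ^ 2 ^ j :=
        pow_le_of_le_one (by positivity) (pow_le_one₀ h0.le h2) (by norm_num)
    _ ≤ (1 / 2) ^ 2 ^ j := pow_le_pow_left₀ h0.le h1 _

end Pool.Agent.MP_9bb777_an.NG
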