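import Pool.Agent.MP_9bb777_an.NG.Spec

/-! One step of the recursion. -/

namespace Pool.Agent.MP_9bb777_an.NG

open Real Module

namespace StepP

lemma num {y u F p e C2 C3 N m s : ℝ} (y1 : 1 ≤ y) (hu : y ^ 7 ≤ u) (e0 : 0 ≤ e) (c2 : 0 ≤ C2)
    (c3 : 0 ≤ C3) (N0 : 0 ≤ N) (m0 : 0 ≤ m) (hF : u ^ 2 ≤ 2 * F) (h1 : e * F ≤ C2 * u ^ 36 * p)
    (hs : s ≤ 1 / u ^ 36) (h2 : p ≤ 1 / u ^ 35 + C3 * (N * m * y) ^ 3 * (s + 2 * (1 / u ^ 36)))
    (hN : N ≤ y) (k3 : 3 * C3 * m ^ 3 ≤ y) (k2 : 4 * C2 ≤ y) : e * u ≤ y := by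
  have y0 : 0 < y := by linarith
  have u0 : 0 < u := lt_of_lt_of_le (by positivity) hu
  have a1 : C3 * (N * m * y) ^ 3 * (s + 2 * (1 / u ^ 36)) ≤ 1 / u ^ 35 := by
    calc C3 * (N * m * y) ^ 3 * (s + 2 * (1 / u ^ 36))
        ≤ C3 * (N * m * y) ^ 3 * (3 * (1 / u ^ 36)) :=
          mul_le_mul_of_nonneg_left (by linarith) (by positivity)
      _ ≤ C3 * (y * m * y) ^ 3 * (3 * (1 / u ^ 36)) := by gcongr
      _ = 3 * C3 * m ^ 3 * y ^ 6 * (1 / u ^ 36) := by ring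
      _ ≤ y * y ^ 6 * (1 / u ^ 36) := by gcongr
      _ = y ^ 7 * (1 / u ^ 36) := by ring
      _ ≤ u * (1 / u ^ 36) := by gcongr
      _ = 1 / u ^ 35 := by field_simp
  have a2 : e * F ≤ 2 * C2 * u := by
    refine h1.trans ((mul_le_mul_of_nonneg_left (show p ≤ 2 * (1 / u ^ 35) by linarith)
      (by positivity)).trans (le_of_eq ?_))
    field_simp
  refine le_of_mul_le_mul_right ?_ u0
  nlinarith [mul_le_mul_of_nonneg_left hF e0, mul_le_mul_of_nonneg_right k2 u0.le]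

lemma low {ev c c0 : ℝ} {b n N : ℕ} (hb : 38 ≤ b) (hn : 1 ≤ n) (h0 : 0 < c0) (h1 : c0 ≤ 1)
    (hc : c ≤ c0 / 10 ^ 9) (he : 1 - c < |ev|) (hN : c0 * (2 * N : ℕ) ≤ 37 * b * n * 10 ^ 6) :
    (2 : ℝ) ^ n < ev ^ (2 * N) * ((2 : ℝ) ^ n) ^ b := by
  have b1 : (38 : ℝ) ≤ b := by exact_mod_cast hb
  have n1 : (1 : ℝ) ≤ n := by exact_mod_cast hn
  have a1 : rexp (-(2 * (c0 / 10 ^ 9))) ≤ |ev| := by
    have := Real.add_one_le_exp (2 * (c0 / 10 ^ 9))
    rw [Real.exp_neg, inv_le_iff_one_le_mul₀ (Real.exp_pos _)]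
    have x0 : 0 < c0 / 10 ^ 9 := by positivity
    have x1 : c0 / 10 ^ 9 ≤ 1 / 10 ^ 9 := by gcongr
    have x2 : 1 - c0 / 10 ^ 9 ≤ |ev| := by linarith
    generalize c0 / 10 ^ 9 = x at *
    have := mul_le_mul x2 this (by linarith) (abs_nonneg _)
    nlinarith
  have a2 := pow_le_pow_left₀ (Real.exp_pos _).le a1 (2 * N)
  rw [← Real.exp_nat_mul, (even_two_mul N).pow_abs] at a2
  have e : (2 : ℝ) ^ n = rexp (n * Real.log 2) := by
    rw [Real.exp_nat_mul, Real.exp_log two_pos]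
  refine lt_of_lt_of_le ?_ (mul_le_mul_of_nonneg_right a2 (by positivity))
  rw [e, ← Real.exp_nat_mul, ← Real.exp_add, Real.exp_lt_exp]
  have l1 := Real.log_two_gt_d9
  have a3 : (0 : ℝ) ≤ (b - 1) * n * (Real.log 2 - 1 / 2) :=
    mul_nonneg (mul_nonneg (by linarith) (by linarith)) (by linarith)
  have a4 : (0 : ℝ) ≤ (b - 38) * n := mul_nonneg (by linarith) (by linarith)
  nlinarith

lemma up {c0 : ℝ} {k N : ℕ} (h1 : c0 ≤ 1) (hN : (k : ℝ) * 10 ^ 6 ≤ c0 * N) :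
    (1 - c0 / 10 ^ 6) ^ N ≤ (1 / 2 : ℝ) ^ k := by
  have a1 := pow_le_pow_left₀ (by linarith) (Real.one_sub_le_exp_neg (c0 / 10 ^ 6)) N
  have a2 : rexp (-1) ≤ 1 / 2 := by
    rw [Real.exp_neg, one_div]
    exact inv_anti₀ two_pos (by linarith [Real.add_one_le_exp 1])
  refine a1.trans (le_trans ?_ (pow_le_pow_left₀ (Real.exp_pos _).le a2 k))
  rw [← Real.exp_nat_mul, ← Real.exp_nat_mul, Real.exp_le_exp]
  linarith

end StepP

theorem step_holds : EL → SX → Greedy → DegP → Bmain → Step := by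
  rintro ⟨C1, c1, h1⟩ ⟨C2, c2, h2⟩ hG ⟨C3, c3, h3⟩ ⟨C4, c4, h4⟩ m b hb hm
  refine ⟨⌈C1 + 4 * C2 + 3 * C3 * m ^ 3 + 12 * C4 * m⌉₊ + 4, ?_⟩
  intro a n c0 c hn good h0 hc0 hY hc g1 g2
  have m1 : 1 ≤ m := by omega
  have n4 : 4 ≤ n := by omega
  have m1' : (1 : ℝ) ≤ m := by exact_mod_cast m1
  have b1 : (38 : ℝ) ≤ b := by exact_mod_cast hb
  have n1 : (4 : ℝ) ≤ n := by exact_mod_cast n4
  have y1 : (1 : ℝ) ≤ 2 ^ n := one_le_pow₀ one_le_two
  have ny : n ≤ 2 ^ n := Nat.lt_two_pow_self.le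
  have hK : C1 + 4 * C2 + 3 * C3 * m ^ 3 + 12 * C4 * m ≤ 2 ^ n :=
    (Nat.le_ceil _).trans (by
      have := Nat.cast_le (α := ℝ).2 (((Nat.le_add_right _ 4).trans hn).trans ny)
      rwa [Nat.cast_pow, Nat.cast_ofNat] at this)
  have p3 : 0 ≤ 3 * C3 * m ^ 3 := by positivity
  have p4 : 0 ≤ 12 * C4 * m := by positivity
  have c01 : c0 ≤ 1 := hc0.trans (div_le_one_of_le₀ m1' (by positivity))
  by_contra hg
  obtain ⟨ev, lam, E, e1, e2, -, e4, e5, e6, e7⟩ := h1 m a _ c m1 hg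
  rcases le_or_gt lam ((((2 : ℝ) ^ n) ^ b) ^ 2) with hl | hl
  · refine e7 (2 ^ (3 * b * (n - 1))) Nat.one_le_two_pow ?_ (by
      rwa [← pow_mul, show 3 * b * (n - 1) * 4 = 12 * b * (n - 1) by ring])
    have : C1 * lam ≤ 2 ^ n * (((2 : ℝ) ^ n) ^ b) ^ 2 :=
      (mul_le_mul_of_nonneg_left hl (by linarith)).trans
        (mul_le_mul_of_nonneg_right (by linarith) (by positivity))
    refine this.trans ?_
    rw [← pow_mul, ← pow_mul, ← pow_add]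
    push_cast
    refine pow_le_pow_right₀ one_le_two ?_
    obtain ⟨k, rfl⟩ : ∃ k, n = k + 4 := ⟨n - 4, by omega⟩
    rw [show k + 4 - 1 = k + 3 from rfl]
    nlinarith [Nat.mul_le_mul_right k hb]
  obtain ⟨N, hN⟩ : ∃ N : ℕ, N = ⌈18 * b * n * 10 ^ 6 / c0⌉₊ := ⟨_, rfl⟩
  have bn : (1 : ℝ) ≤ b * n := by nlinarith
  have N1 : (36 * b * n : ℕ) * (10 : ℝ) ^ 6 ≤ c0 * (2 * N : ℕ) := by
    have := Nat.le_ceil (18 * b * n * 10 ^ 6 / c0)
    rw [← hN, div_le_iff₀ h0] at this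
    push_cast
    linarith
  have N2 : c0 * (2 * N : ℕ) ≤ 37 * b * n * 10 ^ 6 := by
    have := (Nat.ceil_lt_add_one (show 0 ≤ 18 * b * n * 10 ^ 6 / c0 by positivity)).le
    rw [← hN, ← sub_le_iff_le_add, le_div_iff₀ h0] at this
    push_cast
    nlinarith
  have N3 : ((2 * N : ℕ) : ℝ) ≤ 2 ^ n := le_of_mul_le_mul_left (N2.trans hY) h0
  have N4 : 1 ≤ 2 * N := Nat.pos_of_ne_zero fun e => by
    rw [e] at N1
    push_cast at N1
    nlinarith
  have q0 : (0 : ℝ) < (1 / 2) ^ (36 * b * n) := by positivity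
  have hd := h3 m a (2 * N) (2 ^ n) (2 * (1 / 2) ^ (36 * b * n)) (by omega) N4 Nat.one_le_two_pow
    (by positivity) fun x x1 x2 x3 => by
      have := h4 m a x _ c0 _ (2 * N) (12 * m * (2 ^ n) ^ 2) ((2 ^ n) ^ 3) m1 (by
        exact Nat.pos_of_ne_zero (by positivity)) x1 x2 x3 h0 hc0 (by
        push_cast at N3 ⊢
        nlinarith [mul_le_mul_of_nonneg_right (add_le_add N3 y1)
          (show (0 : ℝ) ≤ m * 2 ^ n by positivity)]) (by
        push_cast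
        nlinarith [mul_le_mul_of_nonneg_right (show 12 * C4 * m ≤ 2 ^ n by linarith)
          (show (0 : ℝ) ≤ (2 ^ n) ^ 2 by positivity)]) (by
        rwa [← pow_mul, ← pow_mul, show n * (3 * 4) = 12 * n by ring]) q0 (by
        refine le_trans (pow_le_pow_of_le_one (by norm_num) (by norm_num)
          (show 36 * b * n + 17 ≤ _ from ?_)) (by rw [pow_add]; linarith)
        have := Nat.mul_le_mul hm (ny.trans (Nat.le_self_pow two_ne_zero _))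
        nlinarith)
      linarith [StepP.up c01 N1]
  have hs := h2 m a (2 ^ (12 * b * n)) N ev E m1 Nat.one_le_two_pow e2 e4 fun e he => (e5 e he).1
  have hp := pr_le_add (m := m) (2 * N)
    (p := fun w => ds (wd a w) ≤ 1 / ((2 ^ (12 * b * n) : ℕ) : ℝ))
    (q := fun w => ds (wd a w) ≤ 1 / (2 : ℝ) ^ (12 * b * n) ∧
      ∃ i j k, (1 / (2 * m * 2 ^ n : ℝ)) ^ 3 ≤ |det3 a w i j k|)
    (r := Deg a (1 / (2 * m * ((2 ^ n : ℕ) : ℝ)))) fun w _ hw => by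
      push_cast at hw ⊢
      exact (em _).symm.imp (fun h => ⟨hw, hG m a _ w (by positivity) h⟩) id
  have hq := good (2 * N) (by exact_mod_cast N3)
  have pw : ∀ k : ℕ, (1 / 2 : ℝ) ^ (k * b * n) = 1 / ((2 ^ n) ^ b) ^ k := fun k => by
    rw [one_div_pow, ← pow_mul, ← pow_mul, show n * (b * k) = k * b * n by ring]
  rw [pw] at hd hq
  refine absurd (StepP.num (F := finrank ℂ E) (s := (1 / ((2 ^ n : ℕ) : ℝ)) ^ (m - 4))
    (N := (2 * N : ℕ)) (m := m) (C2 := C2) (C3 := C3) y1 (pow_le_pow_right₀ y1 (by omega))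
    (by rw [pow_mul]; positivity) (by linarith) (by linarith) (by positivity) (by positivity)
    (by linarith) (hs.trans (le_of_eq ?_)) ?_ (hp.trans (add_le_add hq (by exact_mod_cast hd))) N3
    (by linarith) (by linarith)) (not_le.2 (StepP.low hb (by omega) h0 c01 hc e1 N2))
  · push_cast
    ring
  · push_cast
    rw [one_div_pow, ← pow_mul _ b]
    exact one_div_le_one_div_of_le (by positivity) (pow_le_pow_right₀ y1 (by omega))

end Pool.Agent.MP_9bb777_an.NG
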