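import Pool.Agent.MP_9bb777_an.NG.Spec

/-! Polynomial approximation of the twisted walk and the second moment of a phase. -/

namespace Pool.Agent.MP_9bb777_an.NG

open MeasureTheory Quaternion Real Module
open scoped ComplexConjugate InnerProductSpace

namespace TayMomP

/-- a real linear form as a function on the group -/
noncomputable def lf (l : ℍ →L[ℝ] ℝ) : H := mk (fun g => ((l g : ℝ) : ℂ)) (by fun_prop)

lemma lf_ap (l : ℍ →L[ℝ] ℝ) (g : G) : lf l g = ((l g : ℝ) : ℂ) := rfl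

lemma lf_mem (l : ℍ →L[ℝ] ℝ) : lf l ∈ V 1 :=
  mem_V1 0 (Complex.ofRealCLM.comp l) fun x => by simp [lf_ap]

lemma inner_four (a b : ℍ) : ⟪a, b⟫_ℝ = ⟪(1 : ℍ), a⟫_ℝ * ⟪(1 : ℍ), b⟫_ℝ +
    ⟪ei.1, a⟫_ℝ * ⟪ei.1, b⟫_ℝ + ⟪ej.1, a⟫_ℝ * ⟪ej.1, b⟫_ℝ + ⟪ek.1, a⟫_ℝ * ⟪ek.1, b⟫_ℝ := by
  have h1 : ∀ c : ℍ, ⟪ei.1, c⟫_ℝ = c.imI := fun c => by
    rw [Quaternion.inner_def, re_mul]; simp [ei]
  have h2 : ∀ c : ℍ, ⟪ej.1, c⟫_ℝ = c.imJ := fun c => by
    rw [Quaternion.inner_def, re_mul]; simp [ej]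
  have h3 : ∀ c : ℍ, ⟪ek.1, c⟫_ℝ = c.imK := fun c => by
    rw [Quaternion.inner_def, re_mul]; simp [ek]
  simp only [h1, h2, h3]
  simp [Quaternion.inner_def]

lemma inner_move (z v : ℍ) (g : G) : ⟪z, cj g v⟫_ℝ = ⟪z * g, g * v⟫_ℝ := by
  simp only [Quaternion.inner_def, cj_def, star_mul, star_star, mul_assoc]

/-- product of two coordinates -/
noncomputable def pc (u z v : ℍ) : H :=
  lf ((innerSL ℝ u).comp (ContinuousLinearMap.mul ℝ ℍ z)) *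
    lf ((innerSL ℝ u).comp ((ContinuousLinearMap.mul ℝ ℍ).flip v))

lemma pc_mem (u z v : ℍ) : pc u z v ∈ V 2 := mul_mem_V (lf_mem _) (lf_mem _)

lemma pc_ap (u z v : ℍ) (g : G) :
    pc u z v g = ((⟪u, z * g⟫_ℝ * ⟪u, g * v⟫_ℝ : ℝ) : ℂ) := by
  rw [pc, mul_ap, lf_ap, lf_ap, Complex.ofReal_mul]; rfl

lemma ph_mem (z v : ℍ) : ph z v ∈ V 2 := by
  have : ph z v = pc 1 z v + pc ei.1 z v + pc ej.1 z v + pc ek.1 z v := by
    ext g
    simp only [add_ap, pc_ap, ph_ap]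
    rw [inner_move, inner_four]
    push_cast; ring
  rw [this]
  exact add_mem (add_mem (add_mem (pc_mem _ _ _) (pc_mem _ _ _)) (pc_mem _ _ _)) (pc_mem _ _ _)

/-- truncated exponential series of a phase -/
noncomputable def tr (D : ℕ) (z v : ℍ) : H :=
  ∑ j ∈ Finset.range D, (Complex.I ^ j / (j.factorial : ℂ)) • ph z v ^ j

lemma tr_mem (D : ℕ) (z v : ℍ) : tr D z v ∈ V (2 * D) := by
  refine Submodule.sum_mem _ fun j hj => Submodule.smul_mem _ _ ?_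
  have := Finset.mem_range.mp hj
  exact V_mono (by omega) (pow_mem_V (ph_mem z v) j)

lemma fac_bound (D : ℕ) : ((D : ℝ) / 6) ^ D / D.factorial ≤ (1 / 2 : ℝ) ^ D := by
  have h1 := Real.pow_div_factorial_le_exp (D : ℝ) (Nat.cast_nonneg D) D
  have h2 : Real.exp D ≤ 3 ^ D := by
    rw [← Real.exp_one_pow]
    exact pow_le_pow_left₀ (Real.exp_pos 1).le (by linarith [Real.exp_one_lt_d9]) D
  calc ((D : ℝ) / 6) ^ D / D.factorial = (1 / 6 : ℝ) ^ D * ((D : ℝ) ^ D / D.factorial) := by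
        rw [div_pow, div_pow, one_pow]; ring
    _ ≤ (1 / 6 : ℝ) ^ D * 3 ^ D := by gcongr; exact h1.trans h2
    _ = (1 / 2 : ℝ) ^ D := by rw [← mul_pow]; norm_num

lemma ex_tr (D : ℕ) (z v : ℍ) (h : ‖z‖ * ‖v‖ ≤ D / 6) :
    ‖ex z v - tr D z v‖ ≤ 2 * (1 / 2 : ℝ) ^ D := by
  refine norm_le_sup fun g => ?_
  have h0 : ‖Complex.I * ((⟪z, cj g v⟫_ℝ : ℝ) : ℂ)‖ ≤ D / 6 := by
    rw [norm_mul, Complex.norm_I, one_mul, Complex.norm_real, Real.norm_eq_abs]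
    exact (abs_ph_le z v g).trans h
  have h1 := Complex.exp_bound' (x := Complex.I * ((⟪z, cj g v⟫_ℝ : ℝ) : ℂ)) (n := D) (by
    rw [div_le_iff₀ (by positivity)]
    push_cast
    have : (0 : ℝ) ≤ D := Nat.cast_nonneg D
    linarith)
  have h2 : (ex z v - tr D z v) g = Complex.exp (Complex.I * ((⟪z, cj g v⟫_ℝ : ℝ) : ℂ)) -
      ∑ j ∈ Finset.range D, (Complex.I * ((⟪z, cj g v⟫_ℝ : ℝ) : ℂ)) ^ j / (j.factorial : ℂ) := by
    rw [sub_ap, ex_ap, tr, sum_ap]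
    congr 1
    refine Finset.sum_congr rfl fun j _ => ?_
    rw [smul_ap, pow_ap, ph_ap, mul_pow]; ring
  rw [h2]
  refine h1.trans ?_
  have h3 : ‖Complex.I * ((⟪z, cj g v⟫_ℝ : ℝ) : ℂ)‖ ^ D / D.factorial ≤
      ((D : ℝ) / 6) ^ D / D.factorial := by gcongr
  linarith [fac_bound D]

lemma L_ph (h : G) (z v : ℍ) : L h (ph z v) = ph (cj h z) v := by
  ext g; simp [ph_ap, cj_mul, inner_cj_inv]

lemma ph_unit (y : Pu) (v : ℍ) : ‖ph y.1 v‖ = ‖ph ei.1 v‖ := by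
  obtain ⟨g, rfl⟩ := exists_cj y
  change ‖ph (cj g ei.1) v‖ = _
  rw [← L_ph, norm_L]

lemma ph_three (v : ℍ) (hv : v.re = 0) :
    ‖ph ei.1 v‖ ^ 2 + ‖ph ej.1 v‖ ^ 2 + ‖ph ek.1 v‖ ^ 2 = ‖v‖ ^ 2 := by
  rw [norm_sq_def, norm_sq_def, norm_sq_def,
    ← integral_add (intg (by fun_prop)) (intg (by fun_prop)),
    ← integral_add (intg (by fun_prop)) (intg (by fun_prop))]
  have : ∀ g : G, ‖ph ei.1 v g‖ ^ 2 + ‖ph ej.1 v g‖ ^ 2 + ‖ph ek.1 v g‖ ^ 2 = ‖v‖ ^ 2 := by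
    intro g
    have h1 := inner_four (cj g v) (cj g v)
    have h2 : ⟪(1 : ℍ), cj g v⟫_ℝ = 0 := by
      rw [Quaternion.inner_def, one_mul, re_star, re_cj, hv]
    rw [real_inner_self_eq_norm_sq, norm_cj, h2] at h1
    simp only [ph_ap, Complex.norm_real, Real.norm_eq_abs, sq_abs]
    rw [h1]; ring
  simp only [this, integral_const, probReal_univ, smul_eq_mul, one_mul]

lemma ph_smul (c : ℝ) (z v : ℍ) : ph (c • z) v = (c : ℂ) • ph z v := by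
  ext g
  rw [smul_ap, ph_ap, ph_ap, real_inner_smul_left, Complex.ofReal_mul]

end TayMomP

open TayMomP

theorem tay_holds : Tay := by
  intro m a x X k D hm hx hD
  have hm0 : (0 : ℝ) < m := by exact_mod_cast hm
  refine ⟨((2 * m : ℂ) ^ k)⁻¹ • ∑ w : Fin k → Ltr m, tr D ei.1 (dsum a x (List.ofFn w)),
    Submodule.smul_mem _ _ (Submodule.sum_mem _ fun w _ => tr_mem _ _ _), ?_⟩
  rw [T_pow, ← smul_sub, ← Finset.sum_sub_distrib, norm_smul]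
  have h1 : ∀ w : Fin k → Ltr m, ‖ex ei.1 (dsum a x (List.ofFn w)) * R (wd a (List.ofFn w)) 1 -
      tr D ei.1 (dsum a x (List.ofFn w))‖ ≤ 2 * (1 / 2 : ℝ) ^ D := fun w => by
    rw [map_one, mul_one]
    refine ex_tr D _ _ ?_
    have := norm_dsum a hx (List.ofFn w)
    rw [List.length_ofFn] at this
    rw [ei.norm, one_mul]
    linarith
  have h2 := (norm_sum_le Finset.univ _).trans
    (Finset.sum_le_card_nsmul Finset.univ _ _ fun w _ => h1 w)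
  refine (mul_le_mul_of_nonneg_left h2 (norm_nonneg _)).trans (le_of_eq ?_)
  have h3 : ((Finset.univ : Finset (Fin k → Ltr m)).card : ℝ) = (2 * m) ^ k := by
    rw [Finset.card_univ, Fintype.card_fun, Fintype.card_prod, Fintype.card_fin, Fintype.card_fin,
      Fintype.card_bool]
    push_cast; ring
  have h4 : ‖((2 * m : ℂ) ^ k)⁻¹‖ = ((2 * m : ℝ) ^ k)⁻¹ := by
    rw [norm_inv, norm_pow, norm_mul, Complex.norm_natCast, Complex.norm_ofNat]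
  rw [nsmul_eq_mul, h3, h4, ← mul_assoc, inv_mul_cancel₀ (by positivity), one_mul]

theorem mom_holds : Mom := by
  intro z v hz hv
  have h3 := ph_three v hv
  rw [ph_unit ej, ph_unit ek] at h3
  by_cases h0 : z = 0
  · have := ph_smul 0 z v
    rw [zero_smul, Complex.ofReal_zero, zero_smul] at this
    rw [h0, this]; simp
  have hn : ‖z‖ ≠ 0 := norm_ne_zero_iff.mpr h0
  let y : Pu := ⟨‖z‖⁻¹ • z, by simp [hz], by
    rw [normSq_smul, normSq_eq_norm_mul_self]; field_simp⟩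
  have hy : z = ‖z‖ • y.1 := by
    change z = ‖z‖ • ‖z‖⁻¹ • z
    rw [smul_smul, mul_inv_cancel₀ hn, one_smul]
  have h4 : ‖ph z v‖ = ‖z‖ * ‖ph ei.1 v‖ := by
    conv_lhs => rw [hy]
    rw [ph_smul, norm_smul, ph_unit y, Complex.norm_real, norm_norm]
  rw [h4, mul_pow, ← h3]; ring

end Pool.Agent.MP_9bb777_an.NG
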