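import Pool.Agent.MP_9bb777_an.NG.Spec

/-! Transfer from unit quaternions to `SU(2)`. -/

namespace Pool.Agent.MP_9bb777_an.NG

open MeasureTheory Quaternion Real Module
open scoped ComplexConjugate InnerProductSpace

namespace TransferP

/-- the group `SU(2)` -/
abbrev SU : Type := Matrix.specialUnitaryGroup (Fin 2) ℂ

/-- quaternions as matrices -/
noncomputable def mt : ℍ →* Matrix (Fin 2) (Fin 2) ℂ where
  toFun x := !![(x.re : ℂ) + Complex.I * x.imI, x.imJ + Complex.I * x.imK;
    -x.imJ + Complex.I * x.imK, x.re - Complex.I * x.imI]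
  map_one' := by ext i j; fin_cases i <;> fin_cases j <;> simp
  map_mul' x y := by
    ext i j
    fin_cases i <;> fin_cases j <;> simp [Matrix.mul_apply, Fin.sum_univ_two] <;>
      ring_nf <;> simp [Complex.I_sq] <;> ring

lemma mt_apply (x : ℍ) : mt x = !![(x.re : ℂ) + Complex.I * x.imI, x.imJ + Complex.I * x.imK;
    -x.imJ + Complex.I * x.imK, x.re - Complex.I * x.imI] := rfl

lemma mt_star (x : ℍ) : mt (star x) = star (mt x) := by
  ext i j
  fin_cases i <;> fin_cases j <;> simp [mt_apply, Matrix.star_apply, sub_eq_add_neg]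

lemma mt_det (x : ℍ) : (mt x).det = (normSq x : ℝ) := by
  rw [mt_apply, Matrix.det_fin_two_of, normSq_def']
  push_cast
  linear_combination (-(x.imI : ℂ) ^ 2 - (x.imK : ℂ) ^ 2) * Complex.I_sq

lemma mt_mem (x : G) : mt x ∈ Matrix.specialUnitaryGroup (Fin 2) ℂ := by
  refine ⟨Matrix.mem_unitaryGroup_iff.mpr ?_, ?_⟩
  · rw [← mt_star, ← map_mul, mul_starG, map_one]
  · change (mt x).det = 1
    rw [mt_det, nsG]; simp

/-- the quaternion of a matrix -/
noncomputable def qu (g : SU) : ℍ := ⟨(g.1 0 0).re, (g.1 0 0).im, (g.1 0 1).re, (g.1 0 1).im⟩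

lemma mt_qu (g : SU) : mt (qu g) = g.1 := by
  have h1 : star g.1 * g.1 = 1 := Matrix.mem_unitaryGroup_iff'.mp g.2.1
  have h2 : g.1.det = 1 := g.2.2
  have h3 : star g.1 = g.1.adjugate := by
    calc star g.1 = star g.1 * (g.1 * g.1.adjugate) := by
          rw [Matrix.mul_adjugate, h2, one_smul, mul_one]
      _ = g.1.adjugate := by rw [← mul_assoc, h1, one_mul]
  rw [Matrix.adjugate_fin_two] at h3
  have a := congrFun (congrFun h3 0) 0
  have b := congrFun (congrFun h3 1) 0
  simp [Matrix.star_apply] at a b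
  ext i j
  fin_cases i <;> fin_cases j <;> simp [mt_apply, qu]
  · apply Complex.ext <;> simp
  · apply Complex.ext <;> simp
  · rw [← neg_neg (g.1 1 0), ← b]; apply Complex.ext <;> simp
  · rw [← a]; apply Complex.ext <;> simp

lemma normSq_qu (g : SU) : normSq (qu g) = 1 := by
  have h := mt_det (qu g)
  rw [mt_qu, show g.1.det = 1 from g.2.2] at h
  exact_mod_cast h.symm

lemma continuous_qu : Continuous qu := by
  have h : ∀ i j, Continuous fun g : SU => g.1 i j :=
    fun i j => continuous_subtype_val.matrix_elem i j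
  have : qu = fun g => Quaternion.linearIsometryEquivTuple.symm
      (WithLp.toLp 2 ![(g.1 0 0).re, (g.1 0 0).im, (g.1 0 1).re, (g.1 0 1).im]) := rfl
  rw [this]
  refine (LinearIsometryEquiv.continuous _).comp ((PiLp.continuous_toLp 2 _).comp ?_)
  refine continuous_pi fun c => ?_
  fin_cases c
  exacts [Complex.continuous_re.comp (h 0 0), Complex.continuous_im.comp (h 0 0),
    Complex.continuous_re.comp (h 0 1), Complex.continuous_im.comp (h 0 1)]

/-- the isomorphism -/
noncomputable def iso : G ≃* SU where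
  toFun x := ⟨mt x, mt_mem x⟩
  invFun g := mkG (qu g) (normSq_qu g)
  left_inv x := Subtype.ext (by ext <;> simp [qu, mt_apply])
  right_inv g := Subtype.ext (mt_qu g)
  map_mul' x y := Subtype.ext (map_mul mt (x : ℍ) y)

lemma continuous_iso : Continuous iso := by
  refine Continuous.subtype_mk (Continuous.comp (g := mt) ?_ continuous_subtype_val) _
  refine continuous_matrix fun i j => ?_
  have := @continuous_re
  have := @continuous_imI
  have := @continuous_imJ
  have := @continuous_imK
  fin_cases i <;> fin_cases j <;> simp [mt_apply] <;> fun_prop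

lemma continuous_iso_symm : Continuous iso.symm := Continuous.subtype_mk continuous_qu _

lemma su_top : IsTopologicalGroup SU where
  continuous_mul := continuous_mul
  continuous_inv := Continuous.subtype_mk continuous_subtype_val.star _

/-- coordinates -/
noncomputable def co (c : Fin 4) : H :=
  aff (0, Complex.ofRealCLM.comp ((EuclideanSpace.proj c).comp
    Quaternion.linearIsometryEquivTuple.toContinuousLinearEquiv.toContinuousLinearMap))

lemma co_mem (c : Fin 4) : co c ∈ V 1 := mem_V1 0 _ fun _ => rfl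

lemma co_ap (c : Fin 4) (x : G) :
    co c x = ((Quaternion.linearIsometryEquivTuple (x : ℍ) c : ℝ) : ℂ) := zero_add _

lemma prod_mem {ι : Type*} (s : Finset ι) (f : ι → H) (d : ι → ℕ) (h : ∀ i, f i ∈ V (d i)) :
    ∏ i ∈ s, f i ∈ V (∑ i ∈ s, d i) := by
  classical
  induction s using Finset.induction_on with
  | empty => simpa using one_mem_V0
  | insert a s ha ih => rw [Finset.prod_insert ha, Finset.sum_insert ha]; exact mul_mem_V (h a) ih

lemma aeval_mem (p : MvPolynomial (Fin 4) ℂ) {J : ℕ} (hp : p.totalDegree ≤ J) :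
    MvPolynomial.aeval co p ∈ V J := by
  rw [p.as_sum, map_sum]
  refine Submodule.sum_mem _ fun s hs => ?_
  rw [MvPolynomial.aeval_monomial, ← Algebra.smul_def]
  refine Submodule.smul_mem _ _ (V_mono ((MvPolynomial.le_totalDegree hs).trans hp) ?_)
  exact prod_mem _ _ _ fun i => by simpa using pow_mem_V (co_mem i) (s i)

lemma aeval_ap (p : MvPolynomial (Fin 4) ℂ) (x : G) :
    MvPolynomial.aeval co p x = MvPolynomial.eval (fun c => co c x) p := by
  induction p using MvPolynomial.induction_on with
  | C a => simp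
  | add p q hp hq => simp [hp, hq]
  | mul_X p n hp => simp [hp]

end TransferP

open TransferP in
theorem mainSU_holds : MainG → MainSU := by
  intro hG m hm1 _ _ μ _ _
  have := su_top
  have hmeas : Measurable iso.symm := continuous_iso_symm.measurable
  have hmap : Measure.map iso.symm μ = hm := by
    have : (Measure.map iso.symm μ).IsHaarMeasure :=
      iso.symm.isHaarMeasure_map μ continuous_iso_symm continuous_iso
    have : IsProbabilityMeasure (Measure.map iso.symm μ) :=
      Measure.isProbabilityMeasure_map hmeas.aemeasurable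
    exact Measure.isHaarMeasure_eq_of_isProbabilityMeasure _ _
  have hmp : MeasurePreserving iso.symm μ hm := ⟨hmeas, hmap⟩
  have hpi := measurePreserving_pi (fun _ : Fin m => μ) (fun _ => hm) fun _ => hmp
  have hint : ∀ {E : Type} [NormedAddCommGroup E] [NormedSpace ℝ E] (φ : G → E), Continuous φ →
      ∫ g, φ (iso.symm g) ∂μ = ∫ x, φ x ∂hm := fun φ hφ => by
    rw [← hmap, integral_map hmeas.aemeasurable hφ.aestronglyMeasurable]
  filter_upwards [hpi.quasiMeasurePreserving.ae (hG m hm1)] with a ha hd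
  have hd' : Dense (Subgroup.closure (Set.range fun i => iso.symm (a i)) : Set G) := by
    have h1 : (Subgroup.closure (Set.range fun i => iso.symm (a i)) : Set G) =
        iso.symm '' (Subgroup.closure (Set.range a) : Set SU) := by
      have := MonoidHom.map_closure iso.symm.toMonoidHom (Set.range a)
      rw [← Set.range_comp] at this
      exact (congrArg (fun K : Subgroup G => (K : Set G)) this).symm
    rw [h1]
    exact iso.symm.surjective.denseRange.dense_image continuous_iso_symm hd
  obtain ⟨c, hc, hJ⟩ := ha hd'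
  refine ⟨c, hc, fun J hJ2 p f hp hf h0 => ?_⟩
  set F : H := MvPolynomial.aeval co p
  have hF : ∀ g, f g = F (iso.symm g) := fun g => by
    rw [hf, aeval_ap]
    congr 2
    funext c
    rw [co_ap]
    fin_cases c <;> rfl
  have h1 : ⟪1, Iv F⟫_ℂ = 0 := by
    rw [← inner_Iv, Iv_Iv, map_one, inner_one, ← hint _ (cont F), ← h0]
    simp only [hF]
  have h2 := hJ J hJ2 (Iv F) (Iv_mem (aeval_mem p hp)) h1
  have hm0 : (0 : ℝ) < 2 * m := by have : (1400 : ℝ) ≤ m := by exact_mod_cast hm1
                                   linarith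
  have h3 : √(∫ g, ‖f g‖ ^ 2 ∂μ) = ‖F‖ := by
    simp only [hF]
    rw [hint (fun x => ‖F x‖ ^ 2) (by fun_prop), ← norm_sq_def, sqrt_sq (norm_nonneg _)]
  set D : H := (2 * m : ℂ) • Iv (P (fun i => iso.symm (a i)) (Iv F)) with hD
  have h4 : ∀ g, ∑ i, (f (a i * g) + f ((a i)⁻¹ * g)) = D (iso.symm g) := fun g => by
    have : (2 * m : ℂ) ≠ 0 := by exact_mod_cast hm0.ne'
    rw [hD, P_def, map_smul, smul_smul, mul_inv_cancel₀ this, one_smul]
    simp only [Iv_ap, sum_ap, add_ap, R_ap, Fintype.sum_prod_type, Fintype.sum_bool, lt, cond_true,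
      cond_false, hF, map_mul, map_inv, mul_inv_rev, inv_inv]
    exact Finset.sum_congr rfl fun i _ => add_comm _ _
  have h5 : √(∫ g, ‖∑ i, (f (a i * g) + f ((a i)⁻¹ * g))‖ ^ 2 ∂μ) = ‖D‖ := by
    simp only [h4]
    rw [hint (fun x => ‖D x‖ ^ 2) (by fun_prop), ← norm_sq_def, sqrt_sq (norm_nonneg _)]
  have h6 : ‖(2 * m : ℂ)‖ = 2 * m := by simp
  rw [h3, h5, hD, norm_smul, norm_Iv, h6, mul_assoc (2 * (m : ℝ))]
  rw [norm_Iv] at h2
  exact mul_le_mul_of_nonneg_left h2 hm0.le

end Pool.Agent.MP_9bb777_an.NG
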