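import Pool.Agent.MP_9bb777_an.NG.JackP
import Pool.Agent.MP_9bb777_an.NG.PLELP
import Pool.Agent.MP_9bb777_an.NG.SKnetP
import Pool.Agent.MP_9bb777_an.NG.BaseGapP
import Pool.Agent.MP_9bb777_an.NG.TayMomP
import Pool.Agent.MP_9bb777_an.NG.B1P
import Pool.Agent.MP_9bb777_an.NG.B2P
import Pool.Agent.MP_9bb777_an.NG.B3P
import Pool.Agent.MP_9bb777_an.NG.BMainP
import Pool.Agent.MP_9bb777_an.NG.DegPP
import Pool.Agent.MP_9bb777_an.NG.GLP
import Pool.Agent.MP_9bb777_an.NG.HensP
import Pool.Agent.MP_9bb777_an.NG.SXP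
import Pool.Agent.MP_9bb777_an.NG.BCP
import Pool.Agent.MP_9bb777_an.NG.StepP
import Pool.Agent.MP_9bb777_an.NG.RecP
import Pool.Agent.MP_9bb777_an.NG.MainGP
import Pool.Agent.MP_9bb777_an.NG.TransferP

/-! Assembly of the near spectral gap theorem. -/

namespace Pool.Agent.MP_9bb777_an.NG

theorem near_gap : MainSU :=
  mainSU_holds <| mainG_holds (base_holds sknet_holds (el_holds jack_holds) jack0_holds)
    (bc_holds (hens_holds linW_holds))
    (step_holds (el_holds jack_holds) sx_holds greedy_holds degP_holds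
      (bmain_holds (pl_holds jack_holds) tay_holds b1_holds b2_holds (b3_holds mom_holds)))
    rec_holds

end Pool.Agent.MP_9bb777_an.NG
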