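import Mathlib

/-! The group of unit quaternions, its Haar measure, continuous functions with the
mean-square inner product, translations, and the spaces of polynomial functions. -/

namespace Pool.Agent.MP_9bb777_an.NG

open MeasureTheory Quaternion
open scoped ComplexConjugate InnerProductSpace

/-- unit quaternions -/
abbrev G : Type := Metric.sphere (0 : ℍ) 1

noncomputable instance instMS : MeasurableSpace G := borel G
instance instBS : BorelSpace G := ⟨rfl⟩

/-- Haar probability measure -/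
noncomputable def hm : Measure G := Measure.haarMeasure ⊤

instance instHaar : hm.IsHaarMeasure := by unfold hm; infer_instance

instance instProb : IsProbabilityMeasure hm :=
  ⟨by have := Measure.haarMeasure_self (G := G) (K₀ := ⊤); simpa [hm] using this⟩

lemma right_inv_of_compact {K : Type*} [Group K] [TopologicalSpace K] [IsTopologicalGroup K]
    [CompactSpace K] [MeasurableSpace K] [BorelSpace K] (μ : Measure K) [μ.IsHaarMeasure]
    [IsProbabilityMeasure μ] : μ.IsMulRightInvariant := ⟨fun g => by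
  have : IsProbabilityMeasure (Measure.map (· * g) μ) :=
    Measure.isProbabilityMeasure_map (measurable_mul_const g).aemeasurable
  exact Measure.isHaarMeasure_eq_of_isProbabilityMeasure _ _⟩

instance instRI : hm.IsMulRightInvariant := right_inv_of_compact hm

instance instII : hm.IsInvInvariant := ⟨by
  have : IsProbabilityMeasure hm.inv :=
    Measure.isProbabilityMeasure_map measurable_inv.aemeasurable
  have : hm.inv.IsHaarMeasure := {}
  exact Measure.isHaarMeasure_eq_of_isProbabilityMeasure _ _⟩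

@[simp] lemma nG (g : G) : ‖(g : ℍ)‖ = 1 := mem_sphere_zero_iff_norm.mp g.2

lemma nsG (g : G) : normSq (g : ℍ) = 1 := by rw [normSq_eq_norm_mul_self, nG, one_mul]

lemma mul_starG (g : G) : (g : ℍ) * star (g : ℍ) = 1 := by rw [self_mul_star, nsG]; simp

lemma star_mulG (g : G) : star (g : ℍ) * (g : ℍ) = 1 := by rw [star_mul_self, nsG]; simp

lemma coe_invG (g : G) : ((g⁻¹ : G) : ℍ) = star (g : ℍ) :=
  (eq_inv_of_mul_eq_one_left (star_mulG g)).symm

lemma coe_mulG (g h : G) : ((g * h : G) : ℍ) = g * h := rfl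

lemma coe_oneG : ((1 : G) : ℍ) = 1 := rfl

/-- build a unit quaternion -/
def mkG (x : ℍ) (h : normSq x = 1) : G :=
  ⟨x, by
    rw [mem_sphere_zero_iff_norm]
    rw [normSq_eq_norm_mul_self] at h
    nlinarith [norm_nonneg x]⟩

@[simp] lemma coe_mkG (x : ℍ) (h : normSq x = 1) : ((mkG x h : G) : ℍ) = x := rfl

/-- distance to the identity -/
noncomputable def ds (g : G) : ℝ := ‖(g : ℍ) - 1‖

lemma ds_nonneg (g : G) : 0 ≤ ds g := norm_nonneg _

lemma ds_le_two (g : G) : ds g ≤ 2 := by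
  have := norm_sub_le (g : ℍ) 1
  rw [nG, norm_one] at this
  unfold ds; linarith

lemma ds_mul_inv (g h : G) : ds (g * h⁻¹) = ‖(g : ℍ) - h‖ := by
  have : ((g * h⁻¹ : G) : ℍ) - 1 = ((g : ℍ) - h) * star (h : ℍ) := by
    rw [coe_mulG, coe_invG, sub_mul, mul_starG]
  rw [ds, this, norm_mul, norm_star, nG, mul_one]

lemma ds_inv_mul (g h : G) : ds (g⁻¹ * h) = ‖(g : ℍ) - h‖ := by
  have : ((g⁻¹ * h : G) : ℍ) - 1 = star (g : ℍ) * ((h : ℍ) - g) := by
    rw [coe_mulG, coe_invG, mul_sub, star_mulG]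
  rw [ds, this, norm_mul, norm_star, nG, one_mul, norm_sub_rev]

lemma ds_inv (g : G) : ds g⁻¹ = ds g := by
  have := ds_inv_mul g 1
  rw [mul_one] at this
  rw [this]; rfl

lemma ds_conj (g h : G) : ds (g * h * g⁻¹) = ds h := by
  rw [ds_mul_inv, coe_mulG, ds, ← mul_sub_one, norm_mul, nG, one_mul]

lemma ds_mul_le (g h : G) : ds (g * h) ≤ ds g + ds h := by
  have : ((g * h : G) : ℍ) - 1 = ((g : ℍ) - 1) * h + ((h : ℍ) - 1) := by
    rw [coe_mulG]; noncomm_ring
  unfold ds
  rw [this]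
  refine (norm_add_le _ _).trans ?_
  rw [norm_mul, nG, mul_one]

lemma continuous_ds : Continuous ds := by unfold ds; fun_prop

/-- continuous functions on the group -/
def H : Type := C(G, ℂ)

noncomputable instance instRingH : CommRing H := inferInstanceAs (CommRing C(G, ℂ))
noncomputable instance instAlgH : Algebra ℂ H := inferInstanceAs (Algebra ℂ C(G, ℂ))
instance instFunH : FunLike H G ℂ := inferInstanceAs (FunLike C(G, ℂ) G ℂ)

/-- bundle a continuous function -/
def mk (f : G → ℂ) (hf : Continuous f) : H := ContinuousMap.mk f hf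

@[simp] lemma mk_apply (f : G → ℂ) (hf : Continuous f) (x : G) : mk f hf x = f x := rfl

@[fun_prop] lemma cont (f : H) : Continuous f := ContinuousMap.continuous f

@[ext] lemma H.ext {f g : H} (h : ∀ x, f x = g x) : f = g := DFunLike.ext f g h

@[simp] lemma add_ap (f g : H) (x : G) : (f + g) x = f x + g x := rfl
@[simp] lemma sub_ap (f g : H) (x : G) : (f - g) x = f x - g x := rfl
@[simp] lemma neg_ap (f : H) (x : G) : (-f) x = -f x := rfl
@[simp] lemma mul_ap (f g : H) (x : G) : (f * g) x = f x * g x := rfl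
@[simp] lemma one_ap (x : G) : (1 : H) x = 1 := rfl
@[simp] lemma zero_ap (x : G) : (0 : H) x = 0 := rfl
@[simp] lemma smul_ap (c : ℂ) (f : H) (x : G) : (c • f) x = c * f x := rfl
@[simp] lemma alg_ap (c : ℂ) (x : G) : (algebraMap ℂ H c) x = c := by
  rw [Algebra.algebraMap_eq_smul_one]; simp

@[simp] lemma pow_ap (f : H) (n : ℕ) (x : G) : (f ^ n) x = f x ^ n := by
  induction n with
  | zero => simp
  | succ n ih => simp [pow_succ, ih]

@[simp] lemma sum_ap {ι : Type*} (s : Finset ι) (f : ι → H) (x : G) :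
    (∑ i ∈ s, f i) x = ∑ i ∈ s, f i x := by
  classical
  induction s using Finset.induction_on with
  | empty => simp
  | insert a s ha ih => simp [Finset.sum_insert ha, ih]

lemma intg {E : Type*} [NormedAddCommGroup E] {f : G → E} (hf : Continuous f) :
    Integrable f hm :=
  hf.integrable_of_hasCompactSupport (HasCompactSupport.of_compactSpace f)

lemma conj_mul_int (f : H) : ∫ x, conj (f x) * f x ∂hm = ((∫ x, ‖f x‖ ^ 2 ∂hm : ℝ) : ℂ) := by
  rw [← integral_complex_ofReal]
  congr 1; funext x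
  rw [Complex.conj_mul']; push_cast; rfl

/-- the mean-square inner product -/
@[instance_reducible] noncomputable def core : InnerProductSpace.Core ℂ H where
  inner f g := ∫ x, conj (f x) * g x ∂hm
  conj_inner_symm f g := by
    rw [← integral_conj]
    congr 1; funext x; simp [mul_comm]
  re_inner_nonneg f := by
    rw [conj_mul_int]
    exact integral_nonneg fun x => by positivity
  add_left f g h := by
    rw [← integral_add (intg (by fun_prop)) (intg (by fun_prop))]
    congr 1; funext x; simp [add_mul]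
  smul_left f g c := by
    rw [← integral_const_mul]
    congr 1; funext x; simp [mul_assoc]
  definite f hf := by
    rw [conj_mul_int, Complex.ofReal_eq_zero] at hf
    have hc : Continuous fun x => ‖f x‖ ^ 2 := by fun_prop
    rw [integral_eq_zero_iff_of_nonneg (fun x => by positivity) (intg hc),
      Continuous.ae_eq_iff_eq hm hc continuous_zero] at hf
    ext x
    simpa using congrFun hf x

noncomputable instance instNormH : NormedAddCommGroup H := core.toNormedAddCommGroup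
noncomputable instance instInnerH : InnerProductSpace ℂ H := InnerProductSpace.ofCore core.toCore

lemma inner_def (f g : H) : ⟪f, g⟫_ℂ = ∫ x, conj (f x) * g x ∂hm := rfl

lemma norm_sq_def (f : H) : ‖f‖ ^ 2 = ∫ x, ‖f x‖ ^ 2 ∂hm := by
  rw [@norm_sq_eq_re_inner ℂ, inner_def, conj_mul_int]; simp

lemma norm_le_pt {f g : H} {c : ℝ} (hc : 0 ≤ c) (h : ∀ x, ‖f x‖ ≤ c * ‖g x‖) :
    ‖f‖ ≤ c * ‖g‖ := by
  refine abs_le_of_sq_le_sq' ?_ (by positivity) |>.2
  rw [mul_pow, norm_sq_def, norm_sq_def, ← integral_const_mul]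
  refine integral_mono (intg (by fun_prop)) (intg (by fun_prop)) fun x => ?_
  simp only [← mul_pow]
  exact pow_le_pow_left₀ (norm_nonneg _) (h x) 2

@[simp] lemma norm_oneH : ‖(1 : H)‖ = 1 := by
  have := norm_sq_def 1
  simp only [one_ap, norm_one, one_pow, integral_const, probReal_univ, smul_eq_mul,
    mul_one] at this
  nlinarith [norm_nonneg (1 : H)]

lemma norm_le_sup {f : H} {c : ℝ} (h : ∀ x, ‖f x‖ ≤ c) : ‖f‖ ≤ c := by
  have := norm_le_pt (f := f) (g := 1) ((norm_nonneg _).trans (h 1)) (by simpa using h)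
  simpa using this

/-- pointwise modulus -/
noncomputable def ab (f : H) : H := mk (fun x => (‖f x‖ : ℂ)) (by fun_prop)

@[simp] lemma ab_ap (f : H) (x : G) : ab f x = (‖f x‖ : ℂ) := rfl

lemma norm_ab (f : H) : ‖ab f‖ = ‖f‖ := by
  apply le_antisymm
  · simpa using norm_le_pt (f := ab f) (g := f) zero_le_one (by simp)
  · simpa using norm_le_pt (f := f) (g := ab f) zero_le_one (by simp)

lemma norm_le_pt2 {f g k : H} {c d : ℝ} (hc : 0 ≤ c) (hd : 0 ≤ d)
    (h : ∀ x, ‖f x‖ ≤ c * ‖g x‖ + d * ‖k x‖) : ‖f‖ ≤ c * ‖g‖ + d * ‖k‖ := by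
  have h1 : ‖f‖ ≤ 1 * ‖(c : ℂ) • ab g + (d : ℂ) • ab k‖ := by
    refine norm_le_pt zero_le_one fun x => (h x).trans (le_of_eq ?_)
    simp only [add_ap, smul_ap, ab_ap, one_mul]
    rw [← Complex.ofReal_mul, ← Complex.ofReal_mul, ← Complex.ofReal_add, Complex.norm_real,
      Real.norm_of_nonneg (by positivity)]
  refine h1.trans ?_
  rw [one_mul]
  refine (norm_add_le _ _).trans (le_of_eq ?_)
  rw [norm_smul, norm_smul, norm_ab, norm_ab, Complex.norm_real, Complex.norm_real,
    Real.norm_of_nonneg hc, Real.norm_of_nonneg hd]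

/-- composition with a continuous self-map -/
noncomputable def cmp (φ : G → G) (hφ : Continuous φ) : H →ₐ[ℂ] H :=
  ContinuousMap.compRightAlgHom ℂ ℂ ⟨φ, hφ⟩

@[simp] lemma cmp_ap (φ : G → G) (hφ : Continuous φ) (f : H) (x : G) :
    cmp φ hφ f x = f (φ x) := rfl

/-- left translation -/
noncomputable def L (h : G) : H →ₐ[ℂ] H := cmp (fun x => h⁻¹ * x) (by fun_prop)
/-- right translation -/
noncomputable def R (s : G) : H →ₐ[ℂ] H := cmp (fun x => x * s) (by fun_prop)
/-- inversion -/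
noncomputable def Iv : H →ₐ[ℂ] H := cmp (fun x => x⁻¹) (by fun_prop)

@[simp] lemma L_ap (h : G) (f : H) (x : G) : L h f x = f (h⁻¹ * x) := rfl
@[simp] lemma R_ap (h : G) (f : H) (x : G) : R h f x = f (x * h) := rfl
@[simp] lemma Iv_ap (f : H) (x : G) : Iv f x = f x⁻¹ := rfl

lemma L_L (g h : G) (f : H) : L g (L h f) = L (g * h) f := by ext x; simp [mul_assoc]
lemma R_R (g h : G) (f : H) : R g (R h f) = R (g * h) f := by ext x; simp [mul_assoc]
lemma L_R (g h : G) (f : H) : L g (R h f) = R h (L g f) := by ext x; simp [mul_assoc]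
@[simp] lemma L_one (f : H) : L 1 f = f := by ext x; simp
@[simp] lemma R_one (f : H) : R 1 f = f := by ext x; simp
lemma Iv_R (h : G) (f : H) : Iv (R h f) = L h (Iv f) := by ext x; simp
lemma Iv_Iv (f : H) : Iv (Iv f) = f := by ext x; simp

lemma inner_L (h : G) (f g : H) : ⟪L h f, L h g⟫_ℂ = ⟪f, g⟫_ℂ :=
  integral_mul_left_eq_self (fun x => conj (f x) * g x) h⁻¹
lemma inner_R (h : G) (f g : H) : ⟪R h f, R h g⟫_ℂ = ⟪f, g⟫_ℂ :=
  integral_mul_right_eq_self (fun x => conj (f x) * g x) h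
lemma inner_Iv (f g : H) : ⟪Iv f, Iv g⟫_ℂ = ⟪f, g⟫_ℂ :=
  integral_inv_eq_self (fun x => conj (f x) * g x) hm

lemma norm_of_inner {f g : H} (h : ⟪f, f⟫_ℂ = ⟪g, g⟫_ℂ) : ‖f‖ = ‖g‖ := by
  rw [@norm_eq_sqrt_re_inner ℂ, @norm_eq_sqrt_re_inner ℂ, h]

@[simp] lemma norm_L (h : G) (f : H) : ‖L h f‖ = ‖f‖ := norm_of_inner (inner_L h f f)
@[simp] lemma norm_R (h : G) (f : H) : ‖R h f‖ = ‖f‖ := norm_of_inner (inner_R h f f)
@[simp] lemma norm_Iv (f : H) : ‖Iv f‖ = ‖f‖ := norm_of_inner (inner_Iv f f)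

lemma inner_L_left (h : G) (f g : H) : ⟪L h f, g⟫_ℂ = ⟪f, L h⁻¹ g⟫_ℂ := by
  rw [← inner_L h f, L_L]; simp
lemma inner_R_left (h : G) (f g : H) : ⟪R h f, g⟫_ℂ = ⟪f, R h⁻¹ g⟫_ℂ := by
  rw [← inner_R h f, R_R]; simp

lemma inner_one (f : H) : ⟪1, f⟫_ℂ = ∫ x, f x ∂hm := by simp [inner_def]

/-- affine functions -/
noncomputable def aff : (ℂ × (ℍ →L[ℝ] ℂ)) →ₗ[ℂ] H where
  toFun p := mk (fun x => p.1 + p.2 x) (by fun_prop)
  map_add' p q := by ext x; simp; ring
  map_smul' c p := by ext x; simp; ring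

/-- polynomial functions of degree at most `J` -/
noncomputable def V (J : ℕ) : Submodule ℂ H := LinearMap.range aff ^ J

lemma mem_V1 {f : H} (c : ℂ) (l : ℍ →L[ℝ] ℂ) (h : ∀ x, f x = c + l x) : f ∈ V 1 := by
  rw [V, pow_one]
  exact ⟨(c, l), by ext x; simp [aff, h]⟩

lemma V1_elim {f : H} (h : f ∈ V 1) : ∃ (c : ℂ) (l : ℍ →L[ℝ] ℂ), ∀ x, f x = c + l x := by
  rw [V, pow_one] at h
  obtain ⟨p, rfl⟩ := h
  exact ⟨p.1, p.2, fun x => rfl⟩

instance instFinV (J : ℕ) : FiniteDimensional ℂ (V J) := by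
  have : Module.Finite ℂ (ℍ →L[ℝ] ℂ) := Module.Finite.of_restrictScalars_finite ℝ ℂ _
  refine Module.Finite.iff_fg.mpr (Submodule.FG.pow ?_ J)
  exact Module.Finite.iff_fg.mp inferInstance

lemma mul_mem_V {a b : ℕ} {f g : H} (hf : f ∈ V a) (hg : g ∈ V b) : f * g ∈ V (a + b) := by
  rw [V, pow_add]; exact Submodule.mul_mem_mul hf hg

lemma one_mem_V0 : (1 : H) ∈ V 0 := by rw [V, pow_zero]; exact Submodule.one_le.mp le_rfl

lemma V_succ {J : ℕ} {f : H} (hf : f ∈ V J) : f ∈ V (J + 1) := by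
  simpa using mul_mem_V hf (mem_V1 (f := 1) 1 0 (by simp))

lemma V_mono {a b : ℕ} (h : a ≤ b) {f : H} (hf : f ∈ V a) : f ∈ V b := by
  induction h with
  | refl => exact hf
  | step _ ih => exact V_succ ih

lemma one_mem_V (J : ℕ) : (1 : H) ∈ V J := V_mono (Nat.zero_le J) one_mem_V0

lemma pow_mem_V {a : ℕ} {f : H} (hf : f ∈ V a) (n : ℕ) : f ^ n ∈ V (a * n) := by
  induction n with
  | zero => simpa using one_mem_V0
  | succ n ih => rw [pow_succ, Nat.mul_succ]; exact mul_mem_V ih hf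

lemma V_ind {P : ℕ → H → Prop} (h0 : ∀ c : ℂ, P 0 (c • 1))
    (ha : ∀ n f g, P n f → P n g → P n (f + g))
    (hm : ∀ n f g, f ∈ V 1 → g ∈ V n → P n g → P (n + 1) (f * g)) {n : ℕ} {f : H}
    (hf : f ∈ V n) : P n f := by
  refine Submodule.pow_induction_on_left' (LinearMap.range aff) (C := fun n f _ => P n f)
    (fun c => ?_) (fun f g n _ _ => ha n f g) (fun f hf n g hg => hm n f g ?_ hg) hf
  · rw [Algebra.algebraMap_eq_smul_one]; exact h0 c
  · rwa [V, pow_one]

lemma V0_elim {f : H} (hf : f ∈ V 0) : ∃ c : ℂ, f = c • 1 := by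
  rw [V, pow_zero, Submodule.mem_one] at hf
  obtain ⟨c, rfl⟩ := hf
  exact ⟨c, Algebra.algebraMap_eq_smul_one c⟩

lemma map_mem_V (φ : H →ₐ[ℂ] H) (h : ∀ f ∈ V 1, φ f ∈ V 1) {n : ℕ} {f : H} (hf : f ∈ V n) :
    φ f ∈ V n := by
  refine V_ind (P := fun n f => φ f ∈ V n) (fun c => ?_) (fun n f g a b => ?_)
    (fun n f g a _ b => ?_) hf
  · simpa using Submodule.smul_mem _ c one_mem_V0
  · simpa using add_mem a b
  · rw [map_mul, add_comm]; exact mul_mem_V (h f a) b

lemma L_mem {n : ℕ} {f : H} (h : G) (hf : f ∈ V n) : L h f ∈ V n := by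
  refine map_mem_V _ (fun f hf => ?_) hf
  obtain ⟨c, l, e⟩ := V1_elim hf
  exact mem_V1 c (l.comp (ContinuousLinearMap.mul ℝ ℍ (h⁻¹ : G))) fun x => by simp [e]

lemma R_mem {n : ℕ} {f : H} (h : G) (hf : f ∈ V n) : R h f ∈ V n := by
  refine map_mem_V _ (fun f hf => ?_) hf
  obtain ⟨c, l, e⟩ := V1_elim hf
  exact mem_V1 c (l.comp ((ContinuousLinearMap.mul ℝ ℍ).flip h)) fun x => by simp [e]

/-- conjugation of quaternions as a linear map -/
noncomputable def stL : ℍ →L[ℝ] ℍ :=
  LinearMap.toContinuousLinearMap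
    { toFun := star
      map_add' := star_add
      map_smul' := fun c x => by ext <;> simp }

@[simp] lemma stL_ap (x : ℍ) : stL x = star x := rfl

lemma Iv_mem {n : ℕ} {f : H} (hf : f ∈ V n) : Iv f ∈ V n := by
  refine map_mem_V _ (fun f hf => ?_) hf
  obtain ⟨c, l, e⟩ := V1_elim hf
  exact mem_V1 c (l.comp stL) fun x => by
    rw [Iv_ap, e, coe_invG]; simp

end Pool.Agent.MP_9bb777_an.NG
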