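import Pool.Agent.MP_9bb777_an.NG.Basic

/-! Conjugation, one-parameter subgroups and the volume of small balls. -/

namespace Pool.Agent.MP_9bb777_an.NG

open MeasureTheory Quaternion Real
open scoped ComplexConjugate InnerProductSpace

/-- conjugation by a unit quaternion -/
noncomputable def cj (g : G) : ℍ →L[ℝ] ℍ :=
  ((ContinuousLinearMap.mul ℝ ℍ).flip (star (g : ℍ))).comp (ContinuousLinearMap.mul ℝ ℍ g)

lemma cj_def (g : G) (x : ℍ) : cj g x = g * x * star (g : ℍ) := rfl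

lemma cj_mul (g h : G) (x : ℍ) : cj (g * h) x = cj g (cj h x) := by
  simp only [cj_def, coe_mulG, star_mul, mul_assoc]

@[simp] lemma cj_one (x : ℍ) : cj 1 x = x := by simp [cj_def]

@[simp] lemma norm_cj (g : G) (x : ℍ) : ‖cj g x‖ = ‖x‖ := by simp [cj_def]

lemma cj_mul' (g : G) (x y : ℍ) : cj g (x * y) = cj g x * cj g y := by
  simp only [cj_def, mul_assoc]
  rw [← mul_assoc (star (g : ℍ)), star_mulG, one_mul]

@[simp] lemma cj_one' (g : G) : cj g 1 = 1 := by rw [cj_def, mul_one, mul_starG]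

lemma re_mul_comm (x y : ℍ) : (x * y).re = (y * x).re := by simp; ring

@[simp] lemma re_cj (g : G) (x : ℍ) : (cj g x).re = x.re := by
  rw [cj_def, re_mul_comm, ← mul_assoc, star_mulG, one_mul]

lemma cj_coe (g h : G) : cj g h = ((g * h * g⁻¹ : G) : ℍ) := by
  rw [coe_mulG, coe_mulG, coe_invG, cj_def]

lemma cj_star (g : G) (x : ℍ) : cj g (star x) = star (cj g x) := by
  simp only [cj_def, star_mul, star_star, mul_assoc]

lemma inner_cj (g : G) (x y : ℍ) : ⟪cj g x, cj g y⟫_ℝ = ⟪x, y⟫_ℝ := by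
  rw [Quaternion.inner_def, Quaternion.inner_def, ← cj_star, ← cj_mul', re_cj]

lemma inner_cj_inv (g : G) (x y : ℍ) : ⟪x, cj g⁻¹ y⟫_ℝ = ⟪cj g x, y⟫_ℝ := by
  rw [← inner_cj g, ← cj_mul]; simp

@[fun_prop] lemma continuous_cj {X : Type*} [TopologicalSpace X] {g : X → G} {v : X → ℍ}
    (hg : Continuous g) (hv : Continuous v) : Continuous fun x => cj (g x) (v x) := by
  simp only [cj_def]; fun_prop

lemma norm_cj_sub (g h : G) (x : ℍ) : ‖cj g x - cj h x‖ ≤ 2 * ‖(g : ℍ) - h‖ * ‖x‖ := by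
  have : cj g x - cj h x = ((g : ℍ) - h) * x * star (g : ℍ) + h * x * star ((g : ℍ) - h) := by
    simp only [cj_def, star_sub]; noncomm_ring
  rw [this]
  refine (norm_add_le _ _).trans (le_of_eq ?_)
  simp only [norm_mul, norm_star, nG]; ring

/-- pure unit quaternions -/
def Pu : Type := {x : ℍ // x.re = 0 ∧ normSq x = 1}

/-- the three imaginary units -/
def ei : Pu := ⟨⟨0, 1, 0, 0⟩, rfl, by simp [normSq_def']⟩
/-- the three imaginary units -/
def ej : Pu := ⟨⟨0, 0, 1, 0⟩, rfl, by simp [normSq_def']⟩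
/-- the three imaginary units -/
def ek : Pu := ⟨⟨0, 0, 0, 1⟩, rfl, by simp [normSq_def']⟩

lemma Pu.norm (X : Pu) : ‖X.1‖ = 1 := nG (mkG X.1 X.2.2)

lemma Pu.sq (X : Pu) : X.1 * X.1 = -1 := by
  have h1 := X.2.1
  have h2 := X.2.2
  rw [normSq_def'] at h2
  ext <;> simp [h1] <;> nlinarith

/-- conjugation of pure units -/
noncomputable def cjP (g : G) (X : Pu) : Pu :=
  ⟨cj g X.1, by rw [re_cj, X.2.1], by rw [normSq_eq_norm_mul_self, norm_cj, X.norm, one_mul]⟩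

lemma exists_cj (y : Pu) : ∃ g : G, cjP g ei = y := by
  by_cases h : y.1 + ei.1 = 0
  · refine ⟨mkG ej.1 ej.2.2, Subtype.ext ?_⟩
    rw [eq_neg_of_add_eq_zero_left h]
    change cj _ _ = _
    rw [cj_def]
    ext <;> simp [ei, ej]
  · have hn : ‖y.1 + ei.1‖ ≠ 0 := norm_ne_zero_iff.mpr h
    have h1 : normSq (‖y.1 + ei.1‖⁻¹ • (y.1 + ei.1)) = 1 := by
      rw [normSq_smul, normSq_eq_norm_mul_self]; field_simp
    refine ⟨mkG _ h1, Subtype.ext ?_⟩
    change cj _ _ = _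
    have : ((mkG _ h1 : G) : ℍ) * ei.1 = y.1 * (mkG _ h1 : G) := by
      rw [coe_mkG, smul_mul_assoc, mul_smul_comm, add_mul, mul_add, ei.sq, y.sq,
        add_comm (-1 : ℍ)]
    rw [cj_def, this, mul_assoc, mul_starG, mul_one]

/-- one-parameter subgroups -/
noncomputable def qq (X : Pu) (t : ℝ) : G :=
  mkG ((cos t : ℝ) • (1 : ℍ) + sin t • X.1) (by
    have h1 := X.2.1
    have h2 := X.2.2
    rw [normSq_def'] at h2 ⊢
    simp [h1] at h2 ⊢
    nlinarith [cos_sq_add_sin_sq t])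

lemma coe_qq (X : Pu) (t : ℝ) : (qq X t : ℍ) = (cos t : ℝ) • (1 : ℍ) + sin t • X.1 := rfl

lemma qq_add (X : Pu) (s t : ℝ) : qq X (s + t) = qq X s * qq X t := by
  apply Subtype.ext
  rw [coe_mulG, coe_qq, coe_qq, coe_qq, cos_add, sin_add]
  simp only [add_mul, mul_add, smul_mul_assoc, mul_smul_comm, one_mul, mul_one, X.sq]
  module

@[simp] lemma qq_zero (X : Pu) : qq X 0 = 1 := Subtype.ext (by simp [coe_qq])

lemma qq_neg (X : Pu) (t : ℝ) : qq X (-t) = (qq X t)⁻¹ :=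
  eq_inv_of_mul_eq_one_left (by rw [← qq_add]; simp)

lemma qq_cj (g : G) (X : Pu) (t : ℝ) : qq (cjP g X) t = g * qq X t * g⁻¹ := by
  apply Subtype.ext
  rw [← cj_coe, coe_qq, coe_qq, map_add, map_smul, map_smul, cj_one']; rfl

lemma hasDerivAt_qq (X : Pu) : HasDerivAt (fun t => (qq X t : ℍ)) X.1 0 := by
  have := ((hasDerivAt_cos 0).smul_const (1 : ℍ)).add ((hasDerivAt_sin 0).smul_const X.1)
  simp only [sin_zero, neg_zero, zero_smul, cos_zero, one_smul, zero_add] at this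
  exact this

lemma ds_sq (g : G) : ds g ^ 2 = 2 - 2 * (g : ℍ).re := by
  have := nsG g
  rw [ds, sq, ← normSq_eq_norm_mul_self]
  rw [normSq_def'] at this ⊢
  simp
  nlinarith

lemma re_qq (X : Pu) (t : ℝ) : (qq X t : ℍ).re = cos t := by simp [coe_qq, X.2.1]

lemma ds_qq (X : Pu) (t : ℝ) : ds (qq X t) ≤ |t| := by
  refine abs_le_of_sq_le_sq' ?_ (abs_nonneg t) |>.2
  rw [ds_sq, re_qq, sq_abs]
  linarith [one_sub_sq_div_two_le_cos (x := t)]

lemma qq_lin (X : Pu) {t : ℝ} (ht : |t| ≤ 1) : ‖(qq X t : ℍ) - 1 - t • X.1‖ ≤ t ^ 2 := by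
  have : (qq X t : ℍ) - 1 - t • X.1 = (cos t - 1 : ℝ) • (1 : ℍ) + (sin t - t) • X.1 := by
    rw [coe_qq]; module
  rw [this]
  refine (norm_add_le _ _).trans ?_
  rw [norm_smul, norm_smul, X.norm, norm_one, mul_one, mul_one, Real.norm_eq_abs,
    Real.norm_eq_abs]
  have h1 := one_sub_sq_div_two_le_cos (x := t)
  have h2 := cos_le_one t
  have h3 := abs_sub_sin_le t
  have h4 : |t| ^ 3 ≤ t ^ 2 := by
    rw [← sq_abs, pow_succ]; exact mul_le_of_le_one_right (by positivity) ht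
  rw [abs_of_nonpos (by linarith), abs_sub_comm]
  nlinarith [sq_nonneg t]

lemma polar (h : G) : ∃ (X : Pu) (t : ℝ), h = qq X t ∧ |t| ≤ 2 * ds h := by
  have hn := nsG h
  rw [normSq_def'] at hn
  have h12 : |(h : ℍ).re| ≤ 1 := (sq_le_one_iff_abs_le_one _).mp (by nlinarith)
  have h1 := (abs_le.mp h12).1
  have h2 := (abs_le.mp h12).2
  set t := arccos (h : ℍ).re with ht
  have hc : cos t = (h : ℍ).re := cos_arccos h1 h2
  have hs : ‖(h : ℍ).im‖ = sin t := by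
    rw [ht, sin_arccos]
    symm
    rw [sqrt_eq_iff_mul_self_eq (by nlinarith) (norm_nonneg _), ← normSq_eq_norm_mul_self,
      normSq_def']
    simp; linarith
  have hb : |t| ≤ 2 * ds h := by
    refine abs_le_of_sq_le_sq ?_ (by linarith [ds_nonneg h])
    have h3 := cos_le_one_sub_mul_cos_sq (x := t)
      (by rw [abs_of_nonneg (arccos_nonneg _)]; exact arccos_le_pi _)
    have h4 : 1 / 8 ≤ 2 / π ^ 2 := by
      rw [div_le_div_iff₀ (by norm_num) (by positivity)]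
      nlinarith [pi_le_four, pi_pos]
    rw [mul_pow, ds_sq, ← hc]
    nlinarith [sq_nonneg t]
  have hX : ∃ X : Pu, sin t • X.1 = (h : ℍ).im := by
    by_cases h0 : (h : ℍ).im = 0
    · exact ⟨ei, by rw [← hs, h0]; simp⟩
    · have hn : ‖(h : ℍ).im‖ ≠ 0 := norm_ne_zero_iff.mpr h0
      refine ⟨⟨‖(h : ℍ).im‖⁻¹ • (h : ℍ).im, by simp, ?_⟩, ?_⟩
      · rw [normSq_smul, normSq_eq_norm_mul_self]; field_simp
      · rw [← hs, smul_smul, mul_inv_cancel₀ hn, one_smul]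
  obtain ⟨X, hX⟩ := hX
  refine ⟨X, t, Subtype.ext ?_, hb⟩
  rw [coe_qq, hX, hc]
  ext <;> simp

lemma exists_sq (h : G) : ∃ g : G, g * g = h := by
  obtain ⟨X, t, rfl, -⟩ := polar h
  exact ⟨qq X (t / 2), by rw [← qq_add]; simp⟩

lemma near_unit {x : ℍ} (h0 : x.re = 0) (h1 : ‖x‖ ≤ 1) :
    ∃ g : G, ‖(g : ℍ) - 1 - x‖ ≤ ‖x‖ ^ 2 := by
  have h2 : 0 ≤ 1 - ‖x‖ ^ 2 := by nlinarith [norm_nonneg x]
  have h3 : ‖x‖ ^ 2 = x.imI ^ 2 + x.imJ ^ 2 + x.imK ^ 2 := by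
    rw [sq, ← normSq_eq_norm_mul_self, normSq_def', h0]; ring
  refine ⟨mkG (√(1 - ‖x‖ ^ 2) • (1 : ℍ) + x) ?_, ?_⟩
  · rw [normSq_def']
    simp [h0, sq_sqrt h2]; linarith
  · have : √(1 - ‖x‖ ^ 2) • (1 : ℍ) + x - 1 - x = (√(1 - ‖x‖ ^ 2) - 1) • (1 : ℍ) := by module
    rw [coe_mkG, this, norm_smul, norm_one, mul_one, Real.norm_eq_abs, abs_le]
    have h4 := sq_sqrt h2
    have h5 := sqrt_nonneg (1 - ‖x‖ ^ 2)
    have h6 : √(1 - ‖x‖ ^ 2) ≤ 1 := sqrt_le_one.mpr (by nlinarith)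
    constructor <;> nlinarith

/-- volume of a ball about the identity -/
noncomputable def vol (δ : ℝ) : ℝ := hm.real {x | ds x ≤ δ}

lemma meas_ball (δ : ℝ) : MeasurableSet {x : G | ds x ≤ δ} :=
  (isClosed_le continuous_ds continuous_const).measurableSet

lemma vol_tr (g : G) (δ : ℝ) : hm.real {x : G | ‖(g : ℍ) - x‖ ≤ δ} = vol δ := by
  have : {x : G | ‖(g : ℍ) - x‖ ≤ δ} = (fun x => g⁻¹ * x) ⁻¹' {x | ds x ≤ δ} := by
    ext x; simp [ds_inv_mul]
  rw [this, vol, Measure.real, Measure.real, measure_preimage_mul]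

lemma cell_diam {x y : G} {σ : ℝ} (hx : 1 / 2 ≤ (x : ℍ).re) (hy : 1 / 2 ≤ (y : ℍ).re)
    (h1 : |(x : ℍ).imI - (y : ℍ).imI| ≤ σ) (h2 : |(x : ℍ).imJ - (y : ℍ).imJ| ≤ σ)
    (h3 : |(x : ℍ).imK - (y : ℍ).imK| ≤ σ) : ‖(x : ℍ) - y‖ ≤ 7 * σ := by
  have hσ : 0 ≤ σ := (abs_nonneg _).trans h1
  have nx := nsG x
  have ny := nsG y
  rw [normSq_def'] at nx ny
  have key : ∀ a b : ℝ, a ^ 2 ≤ 1 → b ^ 2 ≤ 1 → |a - b| ≤ σ → |a ^ 2 - b ^ 2| ≤ 2 * σ := by
    intro a b ha hb h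
    rw [sq_sub_sq, abs_mul]
    have : |a + b| ≤ 2 := by
      have := (sq_le_one_iff_abs_le_one a).mp ha
      have := (sq_le_one_iff_abs_le_one b).mp hb
      linarith [abs_add_le a b]
    exact mul_le_mul this h (abs_nonneg _) (by norm_num)
  have k1 := key _ _ (by nlinarith) (by nlinarith) h1
  have k2 := key _ _ (by nlinarith) (by nlinarith) h2
  have k3 := key _ _ (by nlinarith) (by nlinarith) h3
  have h0 : |(x : ℍ).re - (y : ℍ).re| ≤ 6 * σ := by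
    rw [abs_le] at *
    constructor <;> by_contra hh <;> nlinarith
  refine abs_le_of_sq_le_sq' ?_ (by positivity) |>.2
  rw [sq, ← normSq_eq_norm_mul_self, normSq_def']
  simp only [re_sub, imI_sub, imJ_sub, imK_sub]
  have := sq_le_sq' (abs_le.mp h0).1 (abs_le.mp h0).2
  have := sq_le_sq' (abs_le.mp h1).1 (abs_le.mp h1).2
  have := sq_le_sq' (abs_le.mp h2).1 (abs_le.mp h2).2
  have := sq_le_sq' (abs_le.mp h3).1 (abs_le.mp h3).2
  nlinarith

lemma vol_lower : ∃ c : ℝ, 0 < c ∧ c ≤ 1 ∧ ∀ δ : ℝ, 0 < δ → δ ≤ 1 → c * δ ^ 3 ≤ vol δ := by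
  set A : Set G := {x | 1 / 2 < (x : ℍ).re}
  have hA : 0 < hm.real A := by
    have ho : IsOpen A := isOpen_lt continuous_const (continuous_re.comp continuous_subtype_val)
    exact ENNReal.toReal_pos (ho.measure_pos hm ⟨1, by norm_num [A]⟩).ne' (measure_ne_top _ _)
  have hA1 : hm.real A ≤ 1 := measureReal_le_one
  refine ⟨hm.real A / 17 ^ 3, by positivity, by linarith, fun δ h0 h1 => ?_⟩
  obtain ⟨n, hn1, hn2⟩ : ∃ n : ℕ, 7 / δ ≤ n ∧ (n : ℝ) ≤ 8 / δ := by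
    refine ⟨⌈7 / δ⌉₊, Nat.le_ceil _, (Nat.ceil_lt_add_one (by positivity)).le.trans ?_⟩
    rw [div_add_one h0.ne', div_le_div_iff_of_pos_right h0]; linarith
  have hn0 : (0 : ℝ) < n := lt_of_lt_of_le (by positivity) hn1
  set I := Finset.Icc (-(n : ℤ)) n
  set cell : ℤ × ℤ × ℤ → Set G := fun p => {x | x ∈ A ∧ ⌊n * (x : ℍ).imI⌋ = p.1 ∧
    ⌊n * (x : ℍ).imJ⌋ = p.2.1 ∧ ⌊n * (x : ℍ).imK⌋ = p.2.2}
  have hfl : ∀ a : ℝ, a ^ 2 ≤ 1 → ⌊n * a⌋ ∈ I := fun a ha => by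
    have := abs_le.mp ((sq_le_one_iff_abs_le_one a).mp ha)
    rw [Finset.mem_Icc, Int.le_floor, Int.floor_le_iff]
    push_cast
    constructor <;> nlinarith
  have hcov : A ⊆ ⋃ p ∈ I ×ˢ I ×ˢ I, cell p := fun x hx => by
    have nx := nsG x
    rw [normSq_def'] at nx
    simp only [Set.mem_iUnion]
    exact ⟨(_, _, _), Finset.mem_product.mpr ⟨hfl _ (by nlinarith), Finset.mem_product.mpr
      ⟨hfl _ (by nlinarith), hfl _ (by nlinarith)⟩⟩, hx, rfl, rfl, rfl⟩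
  have hd : ∀ a b : ℝ, ⌊n * a⌋ = ⌊n * b⌋ → |a - b| ≤ δ / 7 := fun a b h => by
    have := Int.abs_sub_lt_one_of_floor_eq_floor h
    rw [← mul_sub, abs_mul, abs_of_pos hn0] at this
    rw [div_le_iff₀ h0] at hn1
    by_contra hh
    nlinarith [abs_nonneg (a - b)]
  have hc : ∀ p, hm.real (cell p) ≤ vol δ := fun p => by
    rcases (cell p).eq_empty_or_nonempty with h | ⟨y, hy⟩
    · rw [h, measureReal_empty]; exact measureReal_nonneg
    · rw [← vol_tr y]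
      refine measureReal_mono fun x hx => ?_
      have := cell_diam (σ := δ / 7) hy.1.le hx.1.le (hd _ _ (hy.2.1.trans hx.2.1.symm))
        (hd _ _ (hy.2.2.1.trans hx.2.2.1.symm)) (hd _ _ (hy.2.2.2.trans hx.2.2.2.symm))
      change _ ≤ δ
      linarith
  have h2 : hm.real A ≤ (2 * n + 1) ^ 3 * vol δ := by
    refine (measureReal_mono hcov (measure_ne_top _ _)).trans ((measureReal_biUnion_finset_le _ _).trans ?_)
    refine (Finset.sum_le_card_nsmul _ _ _ fun p _ => hc p).trans (le_of_eq ?_)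
    have : (I.card : ℝ) = 2 * n + 1 := by
      have : I.card = 2 * n + 1 := by simp [I]; omega
      rw [this]; push_cast; ring
    rw [nsmul_eq_mul, Finset.card_product, Finset.card_product]
    push_cast
    rw [this]; ring
  have h3 : (2 * n + 1) * δ ≤ 17 := by
    rw [le_div_iff₀ h0] at hn2; nlinarith
  have h4 : ((2 * n + 1) * δ) ^ 3 ≤ 17 ^ 3 := pow_le_pow_left₀ (by positivity) h3 3
  have hv : 0 ≤ vol δ := measureReal_nonneg
  rw [div_mul_eq_mul_div, div_le_iff₀ (by norm_num)]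
  calc hm.real A * δ ^ 3 ≤ (2 * n + 1) ^ 3 * vol δ * δ ^ 3 := by gcongr
    _ = vol δ * ((2 * n + 1) * δ) ^ 3 := by ring
    _ ≤ _ := by gcongr

end Pool.Agent.MP_9bb777_an.NG
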