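import Pool.Agent.MP_9bb777_an.NG.Spec

/-! The weak Jackson estimate and its level zero form. -/

namespace Pool.Agent.MP_9bb777_an.NG

open MeasureTheory Quaternion Real
open scoped ComplexConjugate InnerProductSpace

namespace JackP

/-- averaging against a kernel whose translates are orthogonal to `v` -/
lemma core_bound (κ : G → ℝ) (hκ : Continuous κ) (h0 : ∀ g, 0 ≤ κ g) (u v : H) (b : G → ℝ)
    (hb : Continuous b) (hu : ∀ h, ‖L h u - u‖ ≤ b h)
    (hv : ∀ x : G, ∫ g, (κ (g * x⁻¹) : ℂ) * v g ∂hm = 0) :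
    (∫ g, κ g ∂hm) * ‖⟪u, v⟫_ℂ‖ ≤ (∫ g, κ g * b g ∂hm) * ‖v‖ := by
  set F : G → G → ℂ := fun h x => (κ h : ℂ) * (conj (u x) * v (h * x)) with hF
  have hFc : Continuous (Function.uncurry F) := by
    change Continuous fun p : G × G => (κ p.1 : ℂ) * (conj (u p.2) * v (p.1 * p.2))
    fun_prop
  have hFi : Integrable (Function.uncurry F) (hm.prod hm) :=
    hFc.integrable_of_hasCompactSupport (HasCompactSupport.of_compactSpace _)
  have hΦ : ∀ h, ∫ x, F h x ∂hm = (κ h : ℂ) * ⟪L h u, v⟫_ℂ := fun h => by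
    rw [inner_L_left, inner_def, ← integral_const_mul]
    congr 1; funext x
    simp only [hF, L_ap, inv_inv]
  have hΨ : ∀ x, ∫ h, F h x ∂hm = 0 := fun x => by
    have e1 : ∫ h, F h x ∂hm = conj (u x) * ∫ h, (κ h : ℂ) * v (h * x) ∂hm := by
      rw [← integral_const_mul]
      congr 1; funext h
      simp only [hF]; ring
    have e2 : ∫ h, (κ h : ℂ) * v (h * x) ∂hm = ∫ g, (κ (g * x⁻¹) : ℂ) * v g ∂hm := by
      rw [← integral_mul_right_eq_self (fun g => (κ (g * x⁻¹) : ℂ) * v g) x]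
      congr 1; funext h
      simp only [mul_inv_cancel_right]
    rw [e1, e2, hv, mul_zero]
  have hI : Integrable (fun h => (κ h : ℂ) * ⟪L h u, v⟫_ℂ) hm := by
    have := hFi.integral_prod_left
    simp only [Function.uncurry_apply_pair, hΦ] at this
    exact this
  have hZ : ∫ h, (κ h : ℂ) * ⟪L h u, v⟫_ℂ ∂hm = 0 := by
    have := integral_integral_swap hFi
    simp only [hΦ, hΨ, integral_zero] at this
    exact this
  have hI2 : Integrable (fun h => (κ h : ℂ) * ⟪u, v⟫_ℂ) hm := intg (by fun_prop)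
  have e : (((∫ g, κ g ∂hm : ℝ) : ℂ)) * ⟪u, v⟫_ℂ =
      ∫ h, ((κ h : ℂ) * ⟪u, v⟫_ℂ - (κ h : ℂ) * ⟪L h u, v⟫_ℂ) ∂hm := by
    rw [integral_sub hI2 hI, hZ, sub_zero, integral_mul_const, integral_complex_ofReal]
  have hZ0 : 0 ≤ ∫ g, κ g ∂hm := integral_nonneg h0
  have e' : (∫ g, κ g ∂hm) * ‖⟪u, v⟫_ℂ‖ = ‖(((∫ g, κ g ∂hm : ℝ) : ℂ)) * ⟪u, v⟫_ℂ‖ := by
    rw [norm_mul, Complex.norm_real, Real.norm_of_nonneg hZ0]
  rw [e', e, ← integral_mul_const]
  refine norm_integral_le_of_norm_le (intg (by fun_prop)) (Filter.Eventually.of_forall fun h => ?_)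
  rw [← mul_sub, ← inner_sub_left, norm_mul, Complex.norm_real, Real.norm_of_nonneg (h0 h),
    mul_assoc]
  refine mul_le_mul_of_nonneg_left ((norm_inner_le_norm _ _).trans ?_) (h0 h)
  rw [norm_sub_rev]
  exact mul_le_mul_of_nonneg_right (hu h) (norm_nonneg _)

/-- the real part as a complex valued linear form -/
noncomputable def reL : ℍ →L[ℝ] ℂ :=
  Complex.ofRealCLM.comp (LinearMap.toContinuousLinearMap (QuaternionAlgebra.reₗ _ _ _))

lemma reL_ap (x : ℍ) : reL x = (x.re : ℂ) := rfl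

/-- the kernel -/
noncomputable def kap (k : ℕ) (g : G) : ℝ := (1 - ds g ^ 2 / 4) ^ k

lemma continuous_kap (k : ℕ) : Continuous (kap k) := by
  have := continuous_ds
  unfold kap; fun_prop

lemma base_nonneg (g : G) : 0 ≤ 1 - ds g ^ 2 / 4 := by
  nlinarith [ds_nonneg g, ds_le_two g]

lemma kap_nonneg (k : ℕ) (g : G) : 0 ≤ kap k g := pow_nonneg (base_nonneg g) k

/-- the kernel as an element of `H` -/
noncomputable def kH (k : ℕ) : H := mk (fun g => (kap k g : ℂ)) (by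
  have := continuous_kap k
  fun_prop)

lemma kH_mem (k : ℕ) : kH k ∈ V k := by
  have h1 : kH 1 ∈ V 1 := by
    refine mem_V1 (1 / 2) ((1 / 2 : ℝ) • reL) fun x => ?_
    simp only [kH, mk_apply, kap, pow_one, ds_sq, smul_apply, reL_ap,
      Complex.real_smul]
    push_cast; ring
  have h2 : kH k = kH 1 ^ k := by
    ext x
    simp only [kH, mk_apply, kap, pow_one, pow_ap]
    push_cast; ring
  have := pow_mem_V h1 k
  rwa [one_mul, ← h2] at this

lemma orth {k : ℕ} {v : H} (hv : v ∈ (V k)ᗮ) (x : G) :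
    ∫ g, (kap k (g * x⁻¹) : ℂ) * v g ∂hm = 0 := by
  have := Submodule.inner_right_of_mem_orthogonal (R_mem x⁻¹ (kH_mem k)) hv
  rw [inner_def] at this
  rw [← this]
  congr 1; funext g
  simp only [R_ap, kH, mk_apply, Complex.conj_ofReal]

lemma pt_bound {r : ℕ} (hr : 1 ≤ r) (g : G) :
    kap (r ^ 4) g * ds g ≤ kap (r ^ 4) g / r + 12288 / (r : ℝ) ^ 8 := by
  have hr0 : (0 : ℝ) < r := by exact_mod_cast hr
  have hk := kap_nonneg (r ^ 4) g
  by_cases h : ds g ≤ 1 / r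
  · have : kap (r ^ 4) g * ds g ≤ kap (r ^ 4) g / r := by
      rw [div_eq_mul_one_div]; exact mul_le_mul_of_nonneg_left h hk
    have : (0 : ℝ) ≤ 12288 / (r : ℝ) ^ 8 := by positivity
    linarith
  · push Not at h
    have h1 : 1 - ds g ^ 2 / 4 ≤ exp (-(1 / (r : ℝ)) ^ 2 / 4) := by
      have h2 : (1 / (r : ℝ)) ^ 2 ≤ ds g ^ 2 := pow_le_pow_left₀ (by positivity) h.le 2
      have h3 := add_one_le_exp (-(1 / (r : ℝ)) ^ 2 / 4)
      linarith
    have h2 : kap (r ^ 4) g ≤ exp (-((r : ℝ) ^ 2 / 4)) := by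
      refine (pow_le_pow_left₀ (base_nonneg g) h1 _).trans (le_of_eq ?_)
      rw [← exp_nat_mul]
      congr 1
      push_cast
      field_simp
    have h3 : exp (-((r : ℝ) ^ 2 / 4)) ≤ 6144 / (r : ℝ) ^ 8 := by
      have h4 := pow_div_factorial_le_exp ((r : ℝ) ^ 2 / 4) (by positivity) 4
      have h5 : ((Nat.factorial 4 : ℕ) : ℝ) = 24 := by norm_num [Nat.factorial]
      rw [h5] at h4
      rw [exp_neg, inv_eq_one_div, div_le_div_iff₀ (exp_pos _) (by positivity)]
      have h6 : ((r : ℝ) ^ 2 / 4) ^ 4 / 24 = (r : ℝ) ^ 8 / 6144 := by ring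
      rw [h6] at h4
      linarith
    have h4 : kap (r ^ 4) g * ds g ≤ 6144 / (r : ℝ) ^ 8 * 2 :=
      mul_le_mul (h2.trans h3) (ds_le_two g) (ds_nonneg g) (by positivity)
    have h5 : 0 ≤ kap (r ^ 4) g / r := by positivity
    have h6 : 6144 / (r : ℝ) ^ 8 * 2 = 12288 / (r : ℝ) ^ 8 := by ring
    linarith

lemma moment {r : ℕ} (hr : 1 ≤ r) :
    ∫ g, kap (r ^ 4) g * ds g ∂hm ≤ (∫ g, kap (r ^ 4) g ∂hm) / r + 12288 / (r : ℝ) ^ 8 := by
  have hc := continuous_kap (r ^ 4)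
  have hd := continuous_ds
  have : ∫ g, (kap (r ^ 4) g / r + 12288 / (r : ℝ) ^ 8) ∂hm =
      (∫ g, kap (r ^ 4) g ∂hm) / r + 12288 / (r : ℝ) ^ 8 := by
    rw [integral_add (intg (by fun_prop)) (intg (by fun_prop)), integral_div]
    simp
  rw [← this]
  exact integral_mono (intg (by fun_prop)) (intg (by fun_prop)) fun g => pt_bound hr g

lemma mass {r : ℕ} (hr : 1 ≤ r) : 3 / 4 * vol (1 / (r : ℝ) ^ 2) ≤ ∫ g, kap (r ^ 4) g ∂hm := by
  have hr0 : (0 : ℝ) < r := by exact_mod_cast hr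
  have hr1 : (1 : ℝ) ≤ r := by exact_mod_cast hr
  have hc := continuous_kap (r ^ 4)
  have e : 3 / 4 * vol (1 / (r : ℝ) ^ 2) =
      ∫ g, Set.indicator {x : G | ds x ≤ 1 / (r : ℝ) ^ 2} (fun _ => (3 / 4 : ℝ)) g ∂hm := by
    rw [integral_indicator_const _ (meas_ball _), vol, smul_eq_mul, mul_comm]
  rw [e]
  refine integral_mono ((integrable_const _).indicator (meas_ball _)) (intg hc) fun g => ?_
  by_cases hg : g ∈ {x : G | ds x ≤ 1 / (r : ℝ) ^ 2}
  · rw [Set.indicator_of_mem hg]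
    have h1 : ds g ^ 2 ≤ (1 / (r : ℝ) ^ 2) ^ 2 := pow_le_pow_left₀ (ds_nonneg g) hg 2
    have h2 := one_add_mul_le_pow (a := -(ds g ^ 2 / 4))
      (by nlinarith [ds_nonneg g, ds_le_two g]) (r ^ 4)
    have h3 : ((r ^ 4 : ℕ) : ℝ) * ds g ^ 2 ≤ 1 := by
      refine (mul_le_mul_of_nonneg_left h1 (by positivity)).trans (le_of_eq ?_)
      push_cast
      field_simp
    unfold kap
    rw [sub_eq_add_neg]
    linarith
  · rw [Set.indicator_of_notMem hg]
    exact kap_nonneg _ _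

end JackP

open JackP

theorem jack_holds : Jack := by
  obtain ⟨c, hc0, hc1, hc⟩ := vol_lower
  refine ⟨1 + 16384 / c, le_add_of_nonneg_right (by positivity), fun r hr u v K γ hK hγ hu hv => ?_⟩
  have hr0 : (0 : ℝ) < r := by exact_mod_cast hr
  have hr1 : (1 : ℝ) ≤ r := by exact_mod_cast hr
  have hkc := continuous_kap (r ^ 4)
  have hd := continuous_ds
  have h1 := core_bound (kap (r ^ 4)) hkc (kap_nonneg _) u v (fun h => K * ds h + γ)
    (by fun_prop) hu (orth hv)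
  set Z := ∫ g, kap (r ^ 4) g ∂hm with hZ
  have hZl : 3 / 4 * (c / (r : ℝ) ^ 6) ≤ Z := by
    refine le_trans ?_ (mass hr)
    have h2 := hc (1 / (r : ℝ) ^ 2) (by positivity)
      (by rw [div_le_one (by positivity)]; exact one_le_pow₀ hr1)
    have h3 : c * (1 / (r : ℝ) ^ 2) ^ 3 = c / (r : ℝ) ^ 6 := by field_simp
    linarith
  have hZ0 : 0 < Z := lt_of_lt_of_le (by positivity) hZl
  have h2 : ∫ g, kap (r ^ 4) g * (K * ds g + γ) ∂hm =
      K * (∫ g, kap (r ^ 4) g * ds g ∂hm) + γ * Z := by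
    rw [hZ, ← integral_const_mul, ← integral_const_mul,
      ← integral_add (intg (by fun_prop)) (intg (by fun_prop))]
    congr 1; funext g; ring
  have h3 : 12288 / (r : ℝ) ^ 8 ≤ Z * (16384 / c) / r := by
    have h4 : 3 / 4 * (c / (r : ℝ) ^ 6) * (16384 / c) / r = 12288 / (r : ℝ) ^ 7 := by
      field_simp; norm_num
    have h5 : 12288 / (r : ℝ) ^ 8 ≤ 12288 / (r : ℝ) ^ 7 :=
      div_le_div_of_nonneg_left (by norm_num) (by positivity) (pow_le_pow_right₀ hr1 (by norm_num))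
    refine h5.trans ?_
    rw [← h4]
    gcongr
  have h4 : ∫ g, kap (r ^ 4) g * (K * ds g + γ) ∂hm ≤ Z * ((1 + 16384 / c) * K / r + γ) := by
    rw [h2]
    have h5 := mul_le_mul_of_nonneg_left ((moment hr).trans (add_le_add_right h3 _)) hK
    have h6 : Z * ((1 + 16384 / c) * K / r + γ) =
        K * (Z / r + Z * (16384 / c) / r) + γ * Z := by ring
    rw [h6]
    linarith
  have h5 := h1.trans (mul_le_mul_of_nonneg_right h4 (norm_nonneg v))
  rw [mul_assoc] at h5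
  exact le_of_mul_le_mul_left h5 hZ0

theorem jack0_holds : Jack0 := by
  intro u γ h1 hu
  have h := core_bound (fun _ => 1) continuous_const (fun _ => zero_le_one) u u (fun _ => γ)
    continuous_const hu (fun x => by
      rw [inner_one] at h1
      rw [← h1]
      congr 1; funext g
      rw [Complex.ofReal_one, one_mul])
  simp only [integral_const, probReal_univ, smul_eq_mul, one_mul, mul_one] at h
  rw [inner_self_eq_norm_sq_to_K, norm_pow] at h
  have h2 : ‖((‖u‖ : ℝ) : ℂ)‖ = ‖u‖ := by rw [Complex.norm_real, norm_norm]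
  have h3 : ‖u‖ ^ 2 ≤ γ * ‖u‖ := by
    rw [← h2]
    rw [h2]
    convert h using 2
    exact h2.symm
  have hγ : 0 ≤ γ := (norm_nonneg _).trans (hu 1)
  rcases (norm_nonneg u).eq_or_lt with h0 | h0
  · rw [← h0]; exact hγ
  · rw [sq] at h3
    exact le_of_mul_le_mul_right h3 h0

end Pool.Agent.MP_9bb777_an.NG
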