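import Mathlib

/-! Two facts of linear algebra: the top eigenvalue of a symmetric map, and the dimension of a
unitary representation of the Lie algebra of `SU(2)` in terms of a weight. -/

namespace Pool.Agent.MP_9bb777_an.NG

open scoped ComplexConjugate InnerProductSpace
open Module

variable {F : Type*} [NormedAddCommGroup F] [InnerProductSpace ℂ F] [FiniteDimensional ℂ F]

lemma eig [Nontrivial F] {T : F →ₗ[ℂ] F} (hT : T.IsSymmetric) :
    ∃ (μ : ℝ) (v : F), v ≠ 0 ∧ T v = (μ : ℂ) • v ∧ ∀ e, ‖T e‖ ≤ |μ| * ‖e‖ := by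
  have hn : Nonempty (Fin (finrank ℂ F)) := ⟨⟨0, finrank_pos⟩⟩
  set b := hT.eigenvectorBasis rfl
  set ev := hT.eigenvalues rfl
  obtain ⟨i, -, hi⟩ := Finset.exists_max_image Finset.univ (fun i => |ev i|) Finset.univ_nonempty
  refine ⟨ev i, b i, b.orthonormal.ne_zero i, hT.apply_eigenvectorBasis rfl i, fun e => ?_⟩
  refine abs_le_of_sq_le_sq' ?_ (by positivity) |>.2
  rw [mul_pow, ← b.sum_sq_norm_inner_right, ← b.sum_sq_norm_inner_right, Finset.mul_sum]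
  refine Finset.sum_le_sum fun j _ => ?_
  have := hT.eigenvectorBasis_apply_self_apply rfl e j
  rw [OrthonormalBasis.repr_apply_apply, OrthonormalBasis.repr_apply_apply] at this
  rw [this, norm_mul, ← mul_pow]
  refine pow_le_pow_left₀ (by positivity) ?_ 2
  refine mul_le_mul_of_nonneg_right ?_ (norm_nonneg _)
  simpa using hi j (Finset.mem_univ _)

omit [FiniteDimensional ℂ F] in
lemma sl2_step {a b c : F →ₗ[ℂ] F} (hb : ∀ u w, ⟪b u, w⟫_ℂ = -⟪u, b w⟫_ℂ)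
    (hc : ∀ u w, ⟪c u, w⟫_ℂ = -⟪u, c w⟫_ℂ)
    (hab : ∀ u, a (b u) = b (a u) + (2 : ℂ) • c u) (hbc : ∀ u, b (c u) = c (b u) + (2 : ℂ) • a u)
    (hca : ∀ u, c (a u) = a (c u) + (2 : ℂ) • b u) {μ : ℝ} (hμ : 0 < μ) {v : F} (hv : v ≠ 0)
    (h : a v = (Complex.I * μ) • v) :
    ∃ w : F, w ≠ 0 ∧ a w = (Complex.I * (μ - 2 : ℝ)) • w := by
  refine ⟨b v + Complex.I • c v, fun h0 => ?_, ?_⟩
  · have h1 : b v = -(Complex.I • c v) := eq_neg_of_add_eq_zero_left h0
    have h2 : ⟪b v, c v⟫_ℂ - ⟪c v, b v⟫_ℂ = -2 * (Complex.I * μ) * ⟪v, v⟫_ℂ := by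
      rw [hb, hc, hbc, h, inner_add_right, inner_smul_right, inner_smul_right]; ring
    rw [h1, inner_neg_left, inner_neg_right, inner_smul_left, inner_smul_right,
      inner_self_eq_norm_sq_to_K, inner_self_eq_norm_sq_to_K, Complex.conj_I] at h2
    have h3 := congrArg Complex.im h2
    simp [← Complex.ofReal_pow] at h3
    have := norm_pos_iff.mpr hv
    nlinarith [sq_nonneg ‖c v‖, mul_pos hμ (pow_pos this 2)]
  · have h4 : a (c v) = c (a v) - (2 : ℂ) • b v := by rw [hca]; abel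
    rw [map_add, map_smul, hab, h4, h, map_smul, map_smul]
    push_cast
    have hI := Complex.I_mul_I
    match_scalars
    · ring
    · linear_combination (2 : ℂ) * hI

lemma sl2_pos {a b c : F →ₗ[ℂ] F} (hb : ∀ u w, ⟪b u, w⟫_ℂ = -⟪u, b w⟫_ℂ)
    (hc : ∀ u w, ⟪c u, w⟫_ℂ = -⟪u, c w⟫_ℂ)
    (hab : ∀ u, a (b u) = b (a u) + (2 : ℂ) • c u) (hbc : ∀ u, b (c u) = c (b u) + (2 : ℂ) • a u)
    (hca : ∀ u, c (a u) = a (c u) + (2 : ℂ) • b u) {μ : ℝ} {v : F} (hv : v ≠ 0)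
    (h : a v = (Complex.I * μ) • v) : μ ≤ 2 * finrank ℂ F := by
  by_contra hlt
  push Not at hlt
  have key : ∀ l : ℕ, l ≤ finrank ℂ F →
      ∃ w : F, w ≠ 0 ∧ a w = (Complex.I * (μ - 2 * l : ℝ)) • w := by
    intro l
    induction l with
    | zero => exact fun _ => ⟨v, hv, by simpa using h⟩
    | succ l ih =>
      intro hl
      obtain ⟨w, hw, hw'⟩ := ih (by omega)
      have hl' : (l : ℝ) ≤ finrank ℂ F := by exact_mod_cast (by omega : l ≤ finrank ℂ F)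
      obtain ⟨w', h1, h2⟩ := sl2_step hb hc hab hbc hca (by linarith) hw hw'
      refine ⟨w', h1, ?_⟩
      rw [h2]; congr 2; push_cast; ring
  choose w hw hw' using fun l : Fin (finrank ℂ F + 1) => key l (Nat.lt_succ_iff.mp l.2)
  have hli := Module.End.eigenvectors_linearIndependent' a
    (fun l : Fin (finrank ℂ F + 1) => Complex.I * (μ - 2 * (l : ℕ) : ℝ)) (fun l l' hl => by
      have := mul_left_cancel₀ Complex.I_ne_zero hl
      rw [Complex.ofReal_inj] at this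
      have : ((l : ℕ) : ℝ) = (l' : ℕ) := by linarith
      exact Fin.ext (by exact_mod_cast this)) w
    (fun l => ⟨Module.End.mem_eigenspace_iff.mpr (hw' l), hw l⟩)
  have := hli.fintype_card_le_finrank
  simp at this

lemma sl2_dim {a b c : F →ₗ[ℂ] F} (hb : ∀ u w, ⟪b u, w⟫_ℂ = -⟪u, b w⟫_ℂ)
    (hc : ∀ u w, ⟪c u, w⟫_ℂ = -⟪u, c w⟫_ℂ)
    (hab : ∀ u, a (b u) = b (a u) + (2 : ℂ) • c u) (hbc : ∀ u, b (c u) = c (b u) + (2 : ℂ) • a u)
    (hca : ∀ u, c (a u) = a (c u) + (2 : ℂ) • b u) {μ : ℝ} {v : F} (hv : v ≠ 0)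
    (h : a v = (Complex.I * μ) • v) : |μ| ≤ 2 * finrank ℂ F := by
  rw [abs_le]
  refine ⟨?_, sl2_pos hb hc hab hbc hca hv h⟩
  have := sl2_pos (a := -a) (b := c) (c := b) (μ := -μ) hc hb (fun u => ?_) (fun u => ?_)
    (fun u => ?_) hv (by simp [h])
  · linarith
  · simp only [LinearMap.neg_apply, map_neg, hca]; abel
  · simp only [LinearMap.neg_apply, hbc, smul_neg]; abel
  · simp only [LinearMap.neg_apply, map_neg, hab]; abel

end Pool.Agent.MP_9bb777_an.NG
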