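import Pool.Agent.MP_9bb777_an.NG.Spec

/-! Row SX: the multiplicity bound. -/

namespace Pool.Agent.MP_9bb777_an.NG

open MeasureTheory Quaternion Real Module
open scoped ComplexConjugate InnerProductSpace

namespace SXP

/-- the reproducing vector at the identity -/
lemma kernel {J : ℕ} {E : Submodule ℂ H} (hE : E ≤ V J) (hL : ∀ h, ∀ e ∈ E, L h e ∈ E) :
    ∃ κ ∈ E, (∀ e ∈ E, ⟪κ, e⟫_ℂ = e 1) ∧ (finrank ℂ E : ℝ) ≤ ‖κ‖ ^ 2 := by
  have : FiniteDimensional ℂ E := Submodule.finiteDimensional_of_le hE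
  set b := stdOrthonormalBasis ℂ E
  set κ : H := ∑ j, conj ((b j : H) 1) • (b j : H) with hκ
  have rep : ∀ e ∈ E, ⟪κ, e⟫_ℂ = e 1 := fun e he => by
    have h1 := congrArg (fun v : E => (v : H) 1) (b.sum_repr' ⟨e, he⟩)
    simp only [Submodule.coe_sum, Submodule.coe_smul, sum_ap, smul_ap, Submodule.coe_inner] at h1
    rw [← h1, hκ, sum_inner]
    refine Finset.sum_congr rfl fun j _ => ?_
    rw [inner_smul_left, Complex.conj_conj, mul_comm]
  refine ⟨κ, Submodule.sum_mem _ fun j _ => Submodule.smul_mem _ _ (b j).2, rep, ?_⟩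
  have on : Orthonormal ℂ fun j => (b j : H) := b.orthonormal.comp_linearIsometry E.subtypeₗᵢ
  have pt : ∀ g : G, ∑ j, ‖(b j : H) g‖ ^ 2 ≤ ‖κ‖ ^ 2 := fun g => by
    have h1 := on.sum_inner_products_le (s := Finset.univ) (L g κ)
    rw [norm_L] at h1
    refine le_of_eq_of_le (Finset.sum_congr rfl fun j _ => ?_) h1
    rw [norm_inner_symm, inner_L_left, rep _ (hL _ _ (b j).2)]
    simp
  have i1 : ∀ j, Integrable (fun g : G => ‖(b j : H) g‖ ^ 2) hm := fun j => intg (by fun_prop)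
  have h2 := integral_mono (integrable_finsetSum Finset.univ fun j _ => i1 j)
    (integrable_const (‖κ‖ ^ 2)) pt
  rw [integral_finsetSum _ fun j _ => i1 j] at h2
  simp only [← norm_sq_def, on.1] at h2
  simpa using h2

/-- the bump -/
noncomputable def ρ (δ : ℝ) (x : G) : ℝ := max 0 (δ - ds x)

lemma cρ (δ : ℝ) : Continuous (ρ δ) := continuous_const.max (continuous_const.sub continuous_ds)

lemma ρ0 (δ : ℝ) (x : G) : 0 ≤ ρ δ x := le_max_left _ _

lemma ρ1 {δ : ℝ} (h : 0 ≤ δ) (x : G) : ρ δ x ≤ δ := max_le h (by linarith [ds_nonneg x])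

lemma ρz {δ : ℝ} {x : G} (h : δ ≤ ds x) : ρ δ x = 0 := max_eq_left (by linarith)

/-- the bump as a vector -/
noncomputable def ψ (δ : ℝ) : H := mk (fun x => (ρ δ x : ℂ)) (Complex.continuous_ofReal.comp (cρ δ))

lemma re_inner (δ : ℝ) (f : H) : (⟪ψ δ, f⟫_ℂ).re = ∫ x, ρ δ x * (f x).re ∂hm := by
  have h := integral_re (μ := hm) (f := fun x => conj (ψ δ x) * f x) (intg (by fun_prop))
  rw [inner_def]
  refine h.symm.trans (integral_congr_ae (Filter.Eventually.of_forall fun x => ?_))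
  simp [ψ]

lemma corr {δ ε : ℝ} (h0 : 0 ≤ δ) (h1 : 2 * δ ≤ ε) (g : G) [Decidable (ds g ≤ ε)] :
    (⟪ψ δ, R g (ψ δ)⟫_ℂ).re ≤ δ * (∫ x, ρ δ x ∂hm) * if ds g ≤ ε then 1 else 0 := by
  rw [re_inner]
  have e : ∀ x, (R g (ψ δ) x).re = ρ δ (x * g) := fun x => by simp [ψ]
  simp only [e]
  split_ifs with c
  · rw [mul_one, ← integral_const_mul]
    refine integral_mono (intg ((cρ δ).mul ((cρ δ).comp (by fun_prop))))
      (intg (continuous_const.mul (cρ δ))) fun x => ?_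
    simp only [mul_comm δ]
    exact mul_le_mul_of_nonneg_left (ρ1 h0 _) (ρ0 _ _)
  · rw [mul_zero]
    refine le_of_eq (integral_eq_zero_of_ae (Filter.Eventually.of_forall fun x => ?_))
    rcases le_total δ (ds x) with k | k
    · simp [ρz k]
    · have := ds_mul_le x⁻¹ (x * g)
      rw [inv_mul_cancel_left, ds_inv] at this
      simp [ρz (show δ ≤ ds (x * g) by linarith [not_le.1 c])]

lemma pow_sym {m : ℕ} (a : Fin m → G) (N : ℕ) (F K : H) :
    ⟪(P a ^ N) F, K⟫_ℂ = ⟪F, (P a ^ N) K⟫_ℂ := by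
  induction N generalizing F with
  | zero => simp
  | succ N ih =>
    conv_lhs => rw [pow_succ, Module.End.mul_apply, ih, P_sym]
    rw [pow_succ', Module.End.mul_apply]

lemma walk {m : ℕ} (a : Fin m → G) (N : ℕ) {δ ε : ℝ} (h0 : 0 ≤ δ) (h1 : 2 * δ ≤ ε) :
    ‖(P a ^ N) (ψ δ)‖ ^ 2 ≤ δ * (∫ x, ρ δ x ∂hm) * pr m (2 * N) fun w => ds (wd a w) ≤ ε := by
  classical
  have e : ‖(P a ^ N) (ψ δ)‖ ^ 2 = (⟪ψ δ, (P a ^ (2 * N)) (ψ δ)⟫_ℂ).re := by
    rw [@norm_sq_eq_re_inner ℂ, pow_sym, two_mul, pow_add, Module.End.mul_apply]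
    rfl
  have e2 : ((2 * m : ℂ) ^ (2 * N))⁻¹ = ((((2 * m : ℝ) ^ (2 * N))⁻¹ : ℝ) : ℂ) := by push_cast; rfl
  rw [e, P_pow, inner_smul_right, inner_sum, e2, Complex.re_ofReal_mul, Complex.re_sum, pr,
    mul_left_comm, Finset.mul_sum _ _ (δ * _)]
  refine mul_le_mul_of_nonneg_left (Finset.sum_le_sum fun w _ => ?_) (by positivity)
  convert corr h0 h1 (wd a (List.ofFn w))

end SXP

open SXP in
theorem sx_holds : SX := by
  obtain ⟨c, c0, c1, hc⟩ := vol_lower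
  refine ⟨4096 / c, by rw [le_div_iff₀ c0]; linarith, fun m a J N ev E _ hJ hE hL hP => ?_⟩
  obtain ⟨κ, hκ, rep, hn⟩ := kernel hE hL
  have J1 : (1 : ℝ) ≤ J := by exact_mod_cast hJ
  obtain ⟨δ, hδ⟩ : ∃ δ : ℝ, δ = 1 / (4 * J) := ⟨_, rfl⟩
  have δ0 : 0 < δ := by rw [hδ]; positivity
  have δJ : 4 * J * δ = 1 := by rw [hδ]; field_simp
  have w := walk a N δ0.le (ε := 1 / J) (by rw [le_div_iff₀ (by linarith)]; linarith)
  set p := pr m (2 * N) fun w => ds (wd a w) ≤ 1 / J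
  have p0 : 0 ≤ p := pr_nonneg _ _
  set Z := ∫ x, ρ δ x ∂hm
  have hZ : δ / 2 * (c * (δ / 2) ^ 3) ≤ Z := by
    refine le_trans ?_ (mul_meas_ge_le_integral_of_nonneg
      (Filter.Eventually.of_forall (ρ0 δ)) (intg (cρ δ)) (δ / 2))
    refine mul_le_mul_of_nonneg_left ((hc _ (by positivity) (by nlinarith)).trans
      (measureReal_mono fun x hx => ?_)) (by positivity)
    have hx' : ds x ≤ δ / 2 := hx
    exact le_max_of_le_right (show δ / 2 ≤ δ - ds x by linarith)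
  have Z0 : 0 < Z := lt_of_lt_of_le (by positivity) hZ
  have k1 : (κ 1).re = ‖κ‖ ^ 2 := by
    rw [← rep κ hκ, @norm_sq_eq_re_inner ℂ]
    rfl
  have near : ∀ x : G, ds x ≤ δ → ‖κ‖ ^ 2 / 2 ≤ (κ x).re := fun x hx => by
    have h1 := rep _ (E.sub_mem (hL x⁻¹ κ hκ) hκ)
    have h2 := norm_inner_le_norm (𝕜 := ℂ) κ (L x⁻¹ κ - κ)
    have h3 := bern (hE hκ) x⁻¹
    rw [ds_inv] at h3
    rw [h1, sub_ap, L_ap, inv_inv, mul_one] at h2
    have h4 := (abs_le.1 ((Complex.abs_re_le_norm _).trans h2)).1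
    rw [Complex.sub_re, k1] at h4
    have h5 : 2 * J * ds x ≤ 1 / 2 := by nlinarith
    have h6 := h3.trans (mul_le_mul_of_nonneg_right h5 (norm_nonneg κ))
    nlinarith [mul_le_mul_of_nonneg_left h6 (norm_nonneg κ)]
  have low : Z * (‖κ‖ ^ 2 / 2) ≤ (⟪ψ δ, κ⟫_ℂ).re := by
    rw [re_inner, ← integral_mul_const]
    refine integral_mono (intg ((cρ δ).mul continuous_const))
      (intg ((cρ δ).mul (by fun_prop))) fun x => ?_
    rcases le_total δ (ds x) with k | k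
    · simp [ρz k]
    · exact mul_le_mul_of_nonneg_left (near x k) (ρ0 _ _)
  have eig : ∀ n : ℕ, (P a ^ n) κ = ((ev : ℂ) ^ n) • κ := fun n => by
    induction n with
    | zero => simp
    | succ n ih => rw [pow_succ', Module.End.mul_apply, ih, map_smul, hP κ hκ, smul_smul, pow_succ]
  have cs := norm_inner_le_norm (𝕜 := ℂ) ((P a ^ N) (ψ δ)) κ
  rw [pow_sym, eig, inner_smul_right, norm_mul, norm_pow, Complex.norm_real, Real.norm_eq_abs]
    at cs
  have c2 : |ev| ^ N * (Z * (‖κ‖ ^ 2 / 2)) ≤ ‖(P a ^ N) (ψ δ)‖ * ‖κ‖ :=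
    (mul_le_mul_of_nonneg_left (low.trans (Complex.re_le_norm _)) (by positivity)).trans cs
  have c3 := pow_le_pow_left₀ (by positivity) c2 2
  rw [mul_pow, ← pow_mul, mul_comm N 2, (even_two_mul N).pow_abs, mul_pow ‖_‖] at c3
  have e0 : 0 ≤ ev ^ (2 * N) := (even_two_mul N).pow_nonneg ev
  refine (mul_le_mul_of_nonneg_left hn e0).trans ?_
  rcases (sq_nonneg ‖κ‖).eq_or_lt with z | z
  · rw [← z, mul_zero]
    positivity
  set n := ‖κ‖ ^ 2
  set y := ev ^ (2 * N)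
  have c4 : y * n * Z ≤ 4 * δ * p := by
    have := c3.trans (mul_le_mul_of_nonneg_right w z.le)
    refine le_of_mul_le_mul_right ?_ (mul_pos Z0 z)
    nlinarith
  have c5 : y * n * (δ / 2 * (c * (δ / 2) ^ 3)) ≤ 4 * δ * p :=
    (mul_le_mul_of_nonneg_left hZ (by positivity)).trans c4
  have e : 4096 / c * (J : ℝ) ^ 3 * p = 4 * δ * p / (δ / 2 * (c * (δ / 2) ^ 3)) := by
    rw [hδ]
    field_simp
    ring
  rw [e, le_div_iff₀ (by positivity)]
  exact c5

end Pool.Agent.MP_9bb777_an.NG
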