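import Pool.Agent.MP_9bb777_an.NG.Geo
import Pool.Agent.MP_9bb777_an.NG.Lin

/-! Infinitesimal left translations on polynomial functions; Bernstein inequality and the
dimension of an invariant subspace. -/

namespace Pool.Agent.MP_9bb777_an.NG

open MeasureTheory Quaternion Real Module
open scoped ComplexConjugate InnerProductSpace

/-- the identity map from the sup norm to the mean-square norm -/
noncomputable def incl : C(G, ℂ) →L[ℂ] H :=
  LinearMap.mkContinuous
    { toFun := fun f => f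
      map_add' := fun _ _ => rfl
      map_smul' := fun _ _ => rfl } 1
    (fun f => by rw [one_mul]; exact norm_le_sup (f := f) fun x => f.norm_coe_le_norm x)

/-- left translation as a continuous linear map -/
noncomputable def Lc (g : G) : H →L[ℂ] H :=
  LinearMap.mkContinuous (L g).toLinearMap 1 (fun f => by simp)

lemma smooth_V {n : ℕ} {f : H} (hf : f ∈ V n) :
    ∃ Λ : ℍ → C(G, ℂ), Differentiable ℝ Λ ∧ ∀ (h x : G), Λ h x = f (h⁻¹ * x) := by
  refine V_ind (P := fun _ f => ∃ Λ : ℍ → C(G, ℂ), Differentiable ℝ Λ ∧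
    ∀ (h x : G), Λ h x = f (h⁻¹ * x)) (fun c => ?_) ?_ ?_ hf
  · exact ⟨fun _ => ContinuousMap.const G c, differentiable_const _, by simp⟩
  · rintro _ f g ⟨A, hA, a⟩ ⟨B, hB, b⟩
    exact ⟨fun h => A h + B h, hA.add hB, fun h x => by simp [a, b]⟩
  · rintro _ f g hf - ⟨B, hB, b⟩
    obtain ⟨c, l, e⟩ := V1_elim hf
    let M : ℍ →ₗ[ℝ] C(G, ℂ) :=
      { toFun := fun h => ⟨fun x => l (star h * x), by fun_prop⟩
        map_add' := fun a b => by ext x; simp [add_mul]
        map_smul' := fun r a => by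
          ext x
          have : star (r • a) = r • star a := map_smul stL r a
          simp [this] }
    refine ⟨fun h => (ContinuousMap.const G c + LinearMap.toContinuousLinearMap M h) * B h,
      ((differentiable_const _).add (ContinuousLinearMap.differentiable _)).mul hB, fun h x => ?_⟩
    simp only [ContinuousMap.mul_apply, ContinuousMap.add_apply, ContinuousMap.const_apply, b,
      mul_ap, e, coe_mulG, coe_invG]
    rfl

/-- infinitesimal left translation -/
noncomputable def A (X : Pu) (f : H) : H := deriv (fun t => L (qq X t) f) 0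

lemma exists_D {n : ℕ} {f : H} (hf : f ∈ V n) : ∃ D : ℍ →L[ℝ] H,
    ∀ X : Pu, HasDerivAt (fun t => L (qq X t) f) (D X.1) 0 := by
  obtain ⟨Λ, hΛ, e⟩ := smooth_V hf
  refine ⟨(incl.restrictScalars ℝ).comp (fderiv ℝ Λ 1), fun X => ?_⟩
  have h1 : HasFDerivAt Λ (fderiv ℝ Λ 1) ((fun t => (qq X t : ℍ)) 0) := by
    simpa using (hΛ 1).hasFDerivAt
  have h2 := (incl.restrictScalars ℝ).hasFDerivAt.comp_hasDerivAt 0
    (h1.comp_hasDerivAt 0 (hasDerivAt_qq X))
  have : (fun t => L (qq X t) f) =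
      (incl.restrictScalars ℝ) ∘ Λ ∘ fun t => (qq X t : ℍ) := by
    funext t; ext x; exact (e _ x).symm
  rw [this]; exact h2

lemma hasA {n : ℕ} {f : H} (hf : f ∈ V n) (X : Pu) :
    HasDerivAt (fun t => L (qq X t) f) (A X f) 0 := by
  obtain ⟨D, hD⟩ := exists_D hf
  exact (hD X).differentiableAt.hasDerivAt

lemma hasL {φ : ℝ → H} {v : H} {s : ℝ} (g : G) (h : HasDerivAt φ v s) :
    HasDerivAt (fun t => L g (φ t)) (L g v) s :=
  ((Lc g).restrictScalars ℝ).hasFDerivAt.comp_hasDerivAt s h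

lemma hasA' {n : ℕ} {f : H} (hf : f ∈ V n) (X : Pu) (s : ℝ) :
    HasDerivAt (fun t => L (qq X t) f) (L (qq X s) (A X f)) s := by
  have h1 := hasL (qq X s) (hasA hf X)
  have h2 : HasDerivAt (fun t => L (qq X s) (L (qq X t) f)) (L (qq X s) (A X f)) (s - s) := by
    rwa [sub_self]
  have h3 := h2.comp_sub_const s s
  simp only [L_L, ← qq_add, add_sub_cancel] at h3
  exact h3

lemma A_add {n : ℕ} {f g : H} (hf : f ∈ V n) (hg : g ∈ V n) (X : Pu) :
    A X (f + g) = A X f + A X g := by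
  refine (hasA (add_mem hf hg) X).unique ?_
  simp only [map_add]
  exact (hasA hf X).add (hasA hg X)

lemma A_smul {n : ℕ} {f : H} (hf : f ∈ V n) (c : ℂ) (X : Pu) : A X (c • f) = c • A X f := by
  refine (hasA (Submodule.smul_mem _ c hf) X).unique ?_
  simp only [map_smul]
  exact (hasA hf X).const_smul c

lemma A_mem {n : ℕ} {E : Submodule ℂ H} (hE : E ≤ V n) (hL : ∀ h, ∀ e ∈ E, L h e ∈ E) (X : Pu)
    {f : H} (hf : f ∈ E) : A X f ∈ E := by
  have : FiniteDimensional ℂ E := Submodule.finiteDimensional_of_le hE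
  refine E.closed_of_finiteDimensional.mem_of_tendsto
    (hasDerivAt_iff_tendsto_slope.mp (hasA (hE hf) X)) (Filter.Eventually.of_forall fun t => ?_)
  rw [slope_def_module]
  exact Submodule.smul_of_tower_mem _ _ (sub_mem (hL _ _ hf) (hL _ _ hf))

lemma A_memV {n : ℕ} (X : Pu) {f : H} (hf : f ∈ V n) : A X f ∈ V n :=
  A_mem le_rfl (fun h _ => L_mem h) X hf

lemma A_skew {n : ℕ} (X : Pu) {u w : H} (hu : u ∈ V n) (hw : w ∈ V n) :
    ⟪A X u, w⟫_ℂ = -⟪u, A X w⟫_ℂ := by
  have h := (hasA hu X).inner ℂ (hasA hw X)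
  simp only [inner_L, qq_zero, L_one] at h
  have := h.unique (hasDerivAt_const _ _)
  linear_combination this

lemma A_cj {n : ℕ} (g : G) (X : Pu) {f : H} (hf : f ∈ V n) :
    A (cjP g X) (L g f) = L g (A X f) := by
  refine (hasA (L_mem g hf) _).unique ?_
  have := hasL g (hasA hf X)
  simp only [L_L, qq_cj, inv_mul_cancel_right] at this ⊢
  exact this

lemma A_comm {n : ℕ} (Y X Z : Pu) (h : Y.1 * X.1 - X.1 * Y.1 = (2 : ℝ) • Z.1) {u : H}
    (hu : u ∈ V n) : A Y (A X u) = A X (A Y u) + (2 : ℂ) • A Z u := by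
  have key : ∀ w ∈ V n, ⟪w, A Y (A X u)⟫_ℂ = ⟪w, A X (A Y u) + (2 : ℂ) • A Z u⟫_ℂ := by
    intro w hw
    obtain ⟨D, hD⟩ := exists_D hw
    have hD' : ∀ X : Pu, A X w = D X.1 := fun X => (hD X).deriv
    have h1 := (hasDerivAt_const (0 : ℝ) w).inner ℂ (hasA (A_memV X hu) Y)
    have hs : star Y.1 = -Y.1 := by ext <;> simp [Y.2.1]
    have h2 : HasDerivAt (fun t => cj (qq Y t) X.1) ((2 : ℝ) • Z.1) 0 := by
      have := ((hasDerivAt_qq Y).mul_const X.1).mul
        (stL.hasFDerivAt.comp_hasDerivAt 0 (hasDerivAt_qq Y))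
      simp only [Function.comp, stL_ap, qq_zero, coe_oneG, star_one, mul_one, one_mul, hs, mul_neg,
        ← sub_eq_add_neg, h] at this
      exact this
    have h3 := ((D.hasFDerivAt.comp_hasDerivAt 0 h2).inner ℂ (hasA hu Y)).neg
    have h4 : (fun t => ⟪w, L (qq Y t) (A X u)⟫_ℂ) =
        -fun t => ⟪(D ∘ fun t => cj (qq Y t) X.1) t, L (qq Y t) u⟫_ℂ := by
      funext t
      rw [← A_cj _ _ hu, Pi.neg_apply, Function.comp, ← neg_neg ⟪w, _⟫_ℂ,
        ← A_skew _ hw (L_mem _ hu), hD']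
      rfl
    rw [h4] at h1
    have h5 := h1.unique h3
    simp only [Function.comp, qq_zero, cj_one, L_one, inner_zero_left, add_zero, map_smul,
      ← hD'] at h5
    rw [h5, inner_add_right, inner_smul_right, A_skew X hw (A_memV Y hu), ← Complex.coe_smul,
      inner_smul_left, A_skew Z hw hu, Complex.conj_ofReal]
    push_cast
    ring
  have hm : A Y (A X u) - (A X (A Y u) + (2 : ℂ) • A Z u) ∈ V n :=
    sub_mem (A_memV _ (A_memV _ hu))
      (add_mem (A_memV _ (A_memV _ hu)) (Submodule.smul_mem _ _ (A_memV _ hu)))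
  rw [← sub_eq_zero, ← inner_self_eq_zero (𝕜 := ℂ), inner_sub_right, key _ hm, sub_self]

/-- weight vectors -/
def Wt (n : ℕ) : Set H := {w | w ∈ V n ∧ ∃ ν : ℤ, |ν| ≤ n ∧
  ∀ t : ℝ, L (qq ei t) w = Complex.exp (Complex.I * ν * t) • w}

lemma V1_le : V 1 ≤ Submodule.span ℂ (Wt 1) := by
  intro f hf
  obtain ⟨c, l, e⟩ := V1_elim hf
  set m := l.comp (ContinuousLinearMap.mul ℝ ℍ ei.1) with hm
  have hq : ∀ (t : ℝ) (x : G), (((qq ei t)⁻¹ * x : G) : ℍ) =
      cos t • (x : ℍ) - sin t • (ei.1 * x) := fun t x => by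
    rw [← qq_neg, coe_mulG, coe_qq, cos_neg, sin_neg, add_mul]
    simp [sub_eq_add_neg]
  have hi : ∀ x : ℍ, ei.1 * (ei.1 * x) = -x := fun x => by rw [← mul_assoc, ei.sq]; simp
  have hw : ∀ σ : ℤ, σ = 1 ∨ σ = -1 → aff (0, l + ((σ : ℂ) * Complex.I) • m) ∈ Wt 1 := by
    intro σ hσ
    refine ⟨mem_V1 0 _ fun x => rfl, σ, by rcases hσ with rfl | rfl <;> simp, fun t => ?_⟩
    ext x
    have hI := Complex.I_mul_I
    have he : Complex.exp (Complex.I * σ * t) = cos t + σ * sin t * Complex.I := by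
      rcases hσ with rfl | rfl
      · rw [show Complex.I * (1 : ℤ) * t = t * Complex.I by push_cast; ring, Complex.exp_mul_I]
        simp
      · rw [show Complex.I * (-1 : ℤ) * t = (-t) * Complex.I by push_cast; ring, Complex.exp_mul_I]
        simp
    have h2 : (σ : ℂ) ^ 2 = 1 := by rcases hσ with rfl | rfl <;> simp
    simp only [aff, L_ap, LinearMap.coe_mk, AddHom.coe_mk, mk_apply, hq, smul_ap, he, hm,
      add_apply, smul_apply, map_sub, map_smul,
      ContinuousLinearMap.comp_apply, ContinuousLinearMap.mul_apply', hi, map_neg, smul_eq_mul,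
      Complex.real_smul, mul_sub, mul_smul_comm]
    linear_combination (-(sin t : ℂ) * l (ei.1 * x) * (σ : ℂ) ^ 2) * hI +
      ((sin t : ℂ) * l (ei.1 * x)) * h2
  have h1 : (1 : H) ∈ Wt 1 := ⟨one_mem_V 1, 0, by simp, fun t => by simp⟩
  have : f = c • 1 + (1 / 2 : ℂ) • aff (0, l + (((1 : ℤ) : ℂ) * Complex.I) • m) +
      (1 / 2 : ℂ) • aff (0, l + (((-1 : ℤ) : ℂ) * Complex.I) • m) := by
    ext x
    simp [aff, e]
    ring
  rw [this]
  exact add_mem (add_mem (Submodule.smul_mem _ _ (Submodule.subset_span h1))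
    (Submodule.smul_mem _ _ (Submodule.subset_span (hw 1 (Or.inl rfl)))))
    (Submodule.smul_mem _ _ (Submodule.subset_span (hw (-1) (Or.inr rfl))))

lemma V_le (n : ℕ) : V n ≤ Submodule.span ℂ (Wt n) := by
  induction n with
  | zero =>
    intro f hf
    obtain ⟨c, rfl⟩ := V0_elim hf
    exact Submodule.smul_mem _ _ (Submodule.subset_span ⟨one_mem_V 0, 0, by simp, fun t => by simp⟩)
  | succ n ih =>
    have : V (n + 1) = V n * V 1 := by simp only [V, pow_add]
    rw [this]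
    refine (mul_le_mul' ih V1_le).trans ?_
    rw [Submodule.span_mul_span]
    refine Submodule.span_mono ?_
    rintro _ ⟨u, ⟨hu, a, ha, ha'⟩, w, ⟨hw, b, hb, hb'⟩, rfl⟩
    refine ⟨mul_mem_V hu hw, a + b, (abs_add_le _ _).trans (by push_cast at hb ⊢; linarith),
      fun t => ?_⟩
    simp only [map_mul, ha', hb', smul_mul_smul_comm, ← Complex.exp_add]
    congr 2; push_cast; ring

lemma weight_le {n : ℕ} {v : H} (hv : v ∈ V n) (h0 : v ≠ 0) {μ : ℝ}
    (h : A ei v = (Complex.I * μ) • v) : |μ| ≤ n := by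
  by_contra hlt
  push Not at hlt
  have key : ∀ w ∈ Submodule.span ℂ (Wt n), ⟪v, w⟫_ℂ = 0 := by
    intro w hw
    induction hw using Submodule.span_induction with
    | mem w hw =>
      obtain ⟨hw, ν, hν, e⟩ := hw
      have h1 : A ei w = (Complex.I * ν) • w := by
        refine (hasA hw ei).unique ?_
        simp only [e]
        have h2 : HasDerivAt (fun t : ℝ => Complex.exp (Complex.I * ν * t)) (Complex.I * ν) 0 := by
          simpa using ((Complex.ofRealCLM.hasDerivAt (x := 0)).const_mul (Complex.I * ν)).cexp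
        exact h2.smul_const w
      have h3 := A_skew ei hv hw
      rw [h, h1, inner_smul_left, inner_smul_right] at h3
      have h4 : (μ : ℂ) - ν ≠ 0 := by
        intro h5
        have : μ = ν := by exact_mod_cast sub_eq_zero.mp h5
        have h6 : ((|ν| : ℤ) : ℝ) ≤ n := by exact_mod_cast hν
        rw [this] at hlt
        push_cast at h6
        linarith
      simp only [map_mul, Complex.conj_I, Complex.conj_ofReal] at h3
      have h5 : Complex.I * (((μ : ℂ) - ν) * ⟪v, w⟫_ℂ) = 0 := by linear_combination -h3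
      simpa [h4] using h5
    | zero => simp
    | add a b _ _ ha hb => rw [inner_add_right, ha, hb, add_zero]
    | smul c a _ ha => rw [inner_smul_right, ha, mul_zero]
  exact h0 (inner_self_eq_zero.mp (key v (V_le n hv)))

theorem spack {n : ℕ} {E : Submodule ℂ H} (hE : E ≤ V n) (hL : ∀ h, ∀ e ∈ E, L h e ∈ E) :
    ∃ lam : ℝ, 0 ≤ lam ∧ lam ≤ n ∧ lam ≤ 2 * finrank ℂ E ∧
      ∀ h, ∀ e ∈ E, ‖L h e - e‖ ≤ 2 * lam * ds h * ‖e‖ := by
  have : FiniteDimensional ℂ E := Submodule.finiteDimensional_of_le hE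
  rcases subsingleton_or_nontrivial E with hs | hs
  · refine ⟨0, le_rfl, by positivity, by positivity, fun h e he => ?_⟩
    have : e = 0 := congrArg Subtype.val (Subsingleton.elim (⟨e, he⟩ : E) 0)
    simp [this]
  let AE : Pu → E →ₗ[ℂ] E := fun X =>
    { toFun := fun e => ⟨A X e, A_mem hE hL X e.2⟩
      map_add' := fun a b => Subtype.ext (A_add (hE a.2) (hE b.2) X)
      map_smul' := fun c a => Subtype.ext (A_smul (hE a.2) c X) }
  have hsk : ∀ X (u w : E), ⟪AE X u, w⟫_ℂ = -⟪u, AE X w⟫_ℂ :=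
    fun X u w => A_skew X (hE u.2) (hE w.2)
  have hcm : ∀ Y X Z : Pu, Y.1 * X.1 - X.1 * Y.1 = (2 : ℝ) • Z.1 → ∀ u : E,
      AE Y (AE X u) = AE X (AE Y u) + (2 : ℂ) • AE Z u :=
    fun Y X Z h u => Subtype.ext (A_comm Y X Z h (hE u.2))
  have hsym : LinearMap.IsSymmetric ((-Complex.I) • AE ei) := fun u w => by
    simp only [LinearMap.smul_apply, inner_smul_left, inner_smul_right, hsk]
    simp
  obtain ⟨μ, v, hv, h1, h2⟩ := eig hsym
  have h3 : AE ei v = (Complex.I * μ) • v := by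
    rw [mul_smul, ← h1, LinearMap.smul_apply, smul_smul]; simp
  refine ⟨|μ|, abs_nonneg _, weight_le (hE v.2) (fun h => hv (Subtype.ext h))
    (congrArg Subtype.val h3), sl2_dim (hsk ej) (hsk ek)
      (hcm ei ej ek (by ext <;> simp [ei, ej, ek]; norm_num))
      (hcm ej ek ei (by ext <;> simp [ei, ej, ek]; norm_num))
      (hcm ek ei ej (by ext <;> simp [ei, ej, ek]; norm_num)) hv h3, fun h e he => ?_⟩
  have h4 : ∀ e ∈ E, ‖A ei e‖ ≤ |μ| * ‖e‖ := fun e he => by
    have := h2 ⟨e, he⟩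
    rw [LinearMap.smul_apply, norm_smul, norm_neg, Complex.norm_I, one_mul] at this
    exact this
  obtain ⟨X, t, rfl, ht⟩ := polar h
  obtain ⟨g, rfl⟩ := exists_cj X
  have h5 : ‖A (cjP g ei) e‖ ≤ |μ| * ‖e‖ := by
    have h6 := A_cj g ei (hE (hL g⁻¹ e he))
    rw [L_L, mul_inv_cancel, L_one] at h6
    rw [h6, norm_L]
    simpa using h4 _ (hL g⁻¹ e he)
  have h7 := convex_univ.norm_image_sub_le_of_norm_hasDerivWithin_le
    (fun s _ => (hasA' (hE he) (cjP g ei) s).hasDerivWithinAt)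
    (fun s _ => (norm_L _ _).trans_le h5) (Set.mem_univ 0) (Set.mem_univ t)
  simp only [qq_zero, L_one, sub_zero, Real.norm_eq_abs] at h7
  refine h7.trans ?_
  calc |μ| * ‖e‖ * |t| ≤ |μ| * ‖e‖ * (2 * ds (qq (cjP g ei) t)) := by gcongr
    _ = _ := by ring

lemma bern {n : ℕ} {f : H} (hf : f ∈ V n) (h : G) : ‖L h f - f‖ ≤ 2 * n * ds h * ‖f‖ := by
  obtain ⟨lam, -, h1, -, h2⟩ := spack (n := n) le_rfl (fun h _ => L_mem h)
  refine (h2 h f hf).trans ?_
  have := ds_nonneg h
  gcongr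

lemma bernR {n : ℕ} {f : H} (hf : f ∈ V n) (h : G) : ‖R h f - f‖ ≤ 2 * n * ds h * ‖f‖ := by
  have := bern (Iv_mem hf) h
  rwa [← Iv_R, ← map_sub, norm_Iv, norm_Iv] at this

end Pool.Agent.MP_9bb777_an.NG
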