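import Pool.Agent.MP_9bb777_an.NG.Words

/-! Statements of the steps of the near spectral gap theorem. -/

namespace Pool.Agent.MP_9bb777_an.NG

open MeasureTheory Quaternion Real Module
open scoped ComplexConjugate InnerProductSpace

/-- Jackson estimate, weak form (kernel `((1 + re h) / 2) ^ (r ^ 4)`). -/
def Jack : Prop := ∃ C : ℝ, 1 ≤ C ∧ ∀ r : ℕ, 1 ≤ r → ∀ (u v : H) (K γ : ℝ), 0 ≤ K → 0 ≤ γ →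
  LLip u K γ → v ∈ (V (r ^ 4))ᗮ → ‖⟪u, v⟫_ℂ‖ ≤ (C * K / r + γ) * ‖v‖

/-- the same at level zero -/
def Jack0 : Prop := ∀ (u : H) (γ : ℝ), ⟪1, u⟫_ℂ = 0 → (∀ h, ‖L h u - u‖ ≤ γ) → ‖u‖ ≤ γ

/-- Poincare inequality for approximately Lipschitz functions -/
def PL : Prop := ∃ C : ℝ, 1 ≤ C ∧ ∀ (m : ℕ) (a : Fin m → G) (r : ℕ) (c0 : ℝ) (u : H) (K γ β : ℝ),
  1 ≤ m → 1 ≤ r → 0 < c0 → 0 ≤ K → 0 ≤ γ → 0 ≤ β → Gap a (r ^ 4) c0 → LLip u K γ →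
  ∑ s, ‖R (lt a s) u - u‖ ^ 2 ≤ 2 * m * (2 * c0 * β ^ 2) →
  ‖u - ⟪1, u⟫_ℂ • (1 : H)‖ ≤ β + C * K / r + γ

/-- a bad eigenspace, its size, and descent to a lower level -/
def EL : Prop := ∃ C : ℝ, 1 ≤ C ∧ ∀ (m : ℕ) (a : Fin m → G) (J : ℕ) (c : ℝ), 1 ≤ m → ¬Gap a J c →
  ∃ (ev lam : ℝ) (E : Submodule ℂ H), 1 - c < |ev| ∧ E ≤ V J ∧ E ≠ ⊥ ∧
    (∀ h, ∀ e ∈ E, L h e ∈ E) ∧ (∀ e ∈ E, P a e = (ev : ℂ) • e ∧ ⟪1, e⟫_ℂ = 0) ∧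
    lam ≤ 2 * finrank ℂ E ∧ ∀ r : ℕ, 1 ≤ r → C * lam ≤ r → ¬Gap a (r ^ 4) c

/-- Solovay-Kitaev nets of words of even length -/
def SKnet : Prop := ∀ (m : ℕ) (a : Fin m → G),
  Dense (Subgroup.closure (Set.range a) : Set G) → ∃ l0 : ℕ, 1 ≤ l0 ∧ ∀ (j : ℕ) (g : G),
    ∃ w : List (Ltr m), Even w.length ∧ w.length ≤ l0 * 256 ^ j ∧
      ‖(wd a w : ℍ) - g‖ ≤ (1 / 2 : ℝ) ^ 2 ^ j

/-- a priori polylogarithmic gap -/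
def Base : Prop := ∀ (m : ℕ) (a : Fin m → G), 1 ≤ m →
  Dense (Subgroup.closure (Set.range a) : Set G) →
  ∃ c1 : ℝ, 0 < c1 ∧ ∀ l : ℕ, Gap a (2 ^ l) (c1 / ((l : ℝ) + 1) ^ 16)

/-- powers of the twisted walk applied to one are close to polynomials -/
def Tay : Prop := ∀ (m : ℕ) (a : Fin m → G) (x : Fin m → ℝ) (X : ℝ) (k D : ℕ), 1 ≤ m →
  (∀ i, |x i| ≤ X) → 6 * k * X ≤ D →
  ∃ p ∈ V (2 * D), ‖(T a ei.1 x ^ k) 1 - p‖ ≤ 2 * (1 / 2 : ℝ) ^ D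

/-- from a large norm to an almost invariant or anti-invariant vector -/
def B1 : Prop := ∀ (m : ℕ) (a : Fin m → G) (z : ℍ) (x : Fin m → ℝ) (f : H) (ε : ℝ), 1 ≤ m →
  0 ≤ ε → ε ≤ 1 → (1 - ε) * ‖f‖ ≤ ‖T a z x f‖ → ∃ σ : ℂ, (σ = 1 ∨ σ = -1) ∧
    ‖f‖ ≤ ‖f + σ • T a z x f‖ ∧
    ∑ s, ‖U a z x s (f + σ • T a z x f) - σ • (f + σ • T a z x f)‖ ^ 2 ≤
      2 * m * (8 * ε) * ‖f + σ • T a z x f‖ ^ 2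

/-- truncation and differencing -/
def B2 : Prop := ∀ (m : ℕ) (a : Fin m → G) (y : ℍ) (x : Fin m → ℝ) (F : H) (σ : ℂ) (h : G)
  (K γ β e : ℝ), 0 ≤ K → 0 ≤ γ → (σ = 1 ∨ σ = -1) → ‖F‖ = 1 → LLip F K γ →
  ‖ab F - ⟪1, ab F⟫_ℂ • (1 : H)‖ ≤ β → ∑ s, ‖U a y x s F - σ • F‖ ^ 2 ≤ e →
  ∃ W : H, LLip W (4 * K) (4 * γ) ∧ 1 - 4 * β ≤ ‖W‖ ∧ (∀ g, ‖W g‖ ≤ 1) ∧
    ∑ s, ‖U a (y - cj h y) x s W - W‖ ^ 2 ≤ 16 * e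

/-- second moment of a phase -/
def Mom : Prop := ∀ z v : ℍ, z.re = 0 → v.re = 0 → ‖ph z v‖ ^ 2 = ‖z‖ ^ 2 * ‖v‖ ^ 2 / 3

/-- second order lower bound for harmonic weights -/
def B3 : Prop := ∀ (m : ℕ) (a : Fin m → G) (z : ℍ) (x : Fin m → ℝ) (W : H) (b : ℂ),
  Harm a x → z.re = 0 → (∀ i, |x i| * ‖z‖ ≤ 1 / 20) → (∀ g, ‖W g‖ ≤ 1) →
  4 / 5 ≤ ‖b‖ → ‖b‖ ≤ 1 → ‖W - b • (1 : H)‖ ≤ 1 / 10 →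
  (∑ i, x i ^ 2) * ‖z‖ ^ 2 / 6 ≤ ∑ s, ‖U a z x s W - W‖ ^ 2

/-- decay of the twisted walk with an absolute loss -/
def Bmain : Prop := ∃ C : ℝ, 1 ≤ C ∧ ∀ (m : ℕ) (a : Fin m → G) (x : Fin m → ℝ) (X c0 θ : ℝ)
  (N D r : ℕ), 1 ≤ m → 1 ≤ D → Harm a x → 1 ≤ ∑ i, x i ^ 2 → (∀ i, |x i| ≤ X) → 0 < c0 →
  c0 ≤ 1 / m → 6 * (N + 1) * X ≤ D → C * D ≤ r → Gap a (r ^ 4) c0 → 0 < θ →
  (1 / 2 : ℝ) ^ D ≤ θ / 10 ^ 5 → ‖(T a ei.1 x ^ N) 1‖ ≤ θ + (1 - c0 / 10 ^ 6) ^ N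

/-- probability of degenerate words -/
def DegP : Prop := ∃ C : ℝ, 1 ≤ C ∧ ∀ (m : ℕ) (a : Fin m → G) (N Y : ℕ) (Θ : ℝ),
  4 ≤ m → 1 ≤ N → 1 ≤ Y → 0 ≤ Θ →
  (∀ x : Fin m → ℝ, Harm a x → 1 ≤ ∑ i, x i ^ 2 → (∀ i, |x i| ≤ m * Y) →
    ‖(T a ei.1 x ^ N) 1‖ ≤ Θ) →
  pr m N (Deg a (1 / (2 * m * Y))) ≤ C * ((N : ℝ) * m * Y) ^ 3 * ((1 / Y : ℝ) ^ (m - 4) + Θ)

/-- a nondegenerate word has a good triple of columns -/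
def Greedy : Prop := ∀ (m : ℕ) (a : Fin m → G) (η : ℝ) (w : List (Ltr m)), 0 ≤ η →
  ¬Deg a η w → ∃ i j k, η ^ 3 ≤ |det3 a w i j k|

/-- linearisation of a word -/
def LinW : Prop := ∀ (m : ℕ) (a : Fin m → G) (t : Fin m → ℝ) (τ : ℝ) (w : List (Ltr m)),
  τ ≤ 1 → (∀ i, |t i| ≤ τ) →
  ‖((wd (fun i => a i * qq ei (t i)) w * (wd a w)⁻¹ : G) : ℍ) - 1 - dsum a t w‖ ≤
    (w.length * τ) ^ 2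

/-- measure of the tuples on which a nondegenerate word is close to the identity -/
def Hens : Prop := ∀ (m : ℕ) (w : List (Ltr m)) (i j k : Fin m) (δ η : ℝ), 0 < δ → 0 < η → η ≤ 1 →
  (Measure.pi fun _ : Fin m => hm).real {a | ds (wd a w) ≤ δ ∧ η ^ 3 ≤ |det3 a w i j k|} ≤
    1000 * δ ^ 3 * (w.length : ℝ) ^ 18 / η ^ 18

/-- multiplicity bound -/
def SX : Prop := ∃ C : ℝ, 1 ≤ C ∧ ∀ (m : ℕ) (a : Fin m → G) (J N : ℕ) (ev : ℝ)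
  (E : Submodule ℂ H), 1 ≤ m → 1 ≤ J → E ≤ V J → (∀ h, ∀ e ∈ E, L h e ∈ E) →
  (∀ e ∈ E, P a e = (ev : ℂ) • e) →
  ev ^ (2 * N) * finrank ℂ E ≤ C * (J : ℝ) ^ 3 * pr m (2 * N) fun w => ds (wd a w) ≤ 1 / J

/-- the good event at scale `2 ^ n` -/
def Good (b : ℕ) {m : ℕ} (a : Fin m → G) (n : ℕ) : Prop := ∀ N : ℕ, N ≤ 2 ^ n →
  (pr m N fun w => ds (wd a w) ≤ 1 / (2 : ℝ) ^ (12 * b * n) ∧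
    ∃ i j k, (1 / (2 * m * 2 ^ n : ℝ)) ^ 3 ≤ |det3 a w i j k|) ≤ (1 / 2 : ℝ) ^ (35 * b * n)

/-- Borel-Cantelli -/
def BC : Prop := ∀ m b : ℕ, 1 ≤ m → 38 ≤ b →
  ∀ᵐ a ∂(Measure.pi fun _ : Fin m => hm), ∃ n1, ∀ n, n1 ≤ n → Good b a n

/-- one step of the recursion -/
def Step : Prop := ∀ m b : ℕ, 38 ≤ b → 36 * b + 4 ≤ m → ∃ n1 : ℕ, ∀ (a : Fin m → G) (n : ℕ)
  (c0 c : ℝ), n1 ≤ n → Good b a n → 0 < c0 → c0 ≤ 1 / m → 37 * b * n * 10 ^ 6 ≤ c0 * 2 ^ n →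
  c ≤ c0 / 10 ^ 9 → Gap a (2 ^ (12 * n)) c0 → Gap a (2 ^ (12 * b * (n - 1))) c →
  Gap a (2 ^ (12 * b * n)) c

/-- the recursion, for an abstract predicate `g l c` (gap `c` at level `2 ^ l`) -/
def Rec : Prop := ∀ (g : ℕ → ℝ → Prop) (b n1 : ℕ) (M c1 A : ℝ), 38 ≤ b → 0 < M → 0 < c1 → 0 < A →
  10 ^ 9 ≤ ((b : ℝ) / 2) ^ A →
  (∀ l l' c c', g l c → l' ≤ l → c' ≤ c → g l' c') →
  (∀ l : ℕ, g l (c1 / ((l : ℝ) + 1) ^ 16)) →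
  (∀ (n : ℕ) (c0 c : ℝ), n1 ≤ n → 0 < c0 → c0 ≤ M → 37 * b * n * 10 ^ 6 ≤ c0 * 2 ^ n →
    c ≤ c0 / 10 ^ 9 → g (12 * n) c0 → g (12 * b * (n - 1)) c → g (12 * b * n) c) →
  ∃ c : ℝ, 0 < c ∧ ∀ l : ℕ, 1 ≤ l → g l (c * (l : ℝ) ^ (-A))

/-- the theorem on unit quaternions -/
def MainG : Prop := ∀ m : ℕ, 1400 ≤ m → ∀ᵐ a ∂(Measure.pi fun _ : Fin m => hm),
  Dense (Subgroup.closure (Set.range a) : Set G) → ∃ c : ℝ, 0 < c ∧ ∀ J : ℕ, 2 ≤ J →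
    Gap a J (c * Real.log J ^ (-(21 / Real.log (m / 100))))

/-- the theorem on `SU(2)` -/
def MainSU : Prop := ∀ (m : ℕ), 1400 ≤ m →
  ∀ [MeasurableSpace (Matrix.specialUnitaryGroup (Fin 2) ℂ)]
    [BorelSpace (Matrix.specialUnitaryGroup (Fin 2) ℂ)]
    (μ : Measure (Matrix.specialUnitaryGroup (Fin 2) ℂ)) [μ.IsHaarMeasure]
    [IsProbabilityMeasure μ],
    ∀ᵐ a ∂(Measure.pi fun _ : Fin m => μ),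
      Dense (Subgroup.closure (Set.range a) : Set (Matrix.specialUnitaryGroup (Fin 2) ℂ)) →
      ∃ c : ℝ, 0 < c ∧ ∀ J : ℕ, 2 ≤ J →
        ∀ (p : MvPolynomial (Fin 4) ℂ) (f : Matrix.specialUnitaryGroup (Fin 2) ℂ → ℂ),
          p.totalDegree ≤ J →
          (∀ g, f g = MvPolynomial.eval
            ![((g.1 0 0).re : ℂ), (g.1 0 0).im, (g.1 0 1).re, (g.1 0 1).im] p) →
          ∫ g, f g ∂μ = 0 →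
          √(∫ g, ‖∑ i, (f (a i * g) + f ((a i)⁻¹ * g))‖ ^ 2 ∂μ) ≤
            2 * m * (1 - c * Real.log J ^ (-(21 / Real.log (m / 100)))) *
              √(∫ g, ‖f g‖ ^ 2 ∂μ)

end Pool.Agent.MP_9bb777_an.NG
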