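import Pool.Agent.MP_9bb777_an.NG.Spack

/-! Words, the columns of their derivative, the walk operator and its twisted versions. -/

namespace Pool.Agent.MP_9bb777_an.NG

open MeasureTheory Quaternion Real Module
open scoped ComplexConjugate InnerProductSpace

variable {m : ℕ}

/-- letters: a generator and a sign -/
abbrev Ltr (m : ℕ) : Type := Fin m × Bool

/-- value of a letter -/
noncomputable def lt (a : Fin m → G) (s : Ltr m) : G := cond s.2 (a s.1) (a s.1)⁻¹

/-- value of a word -/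
noncomputable def wd (a : Fin m → G) (w : List (Ltr m)) : G := (w.map (lt a)).prod

/-- derivative of a letter along `a i ↦ a i * qq ei t` -/
noncomputable def vl (a : Fin m → G) (s : Ltr m) : ℍ := cond s.2 (cj (a s.1) ei.1) (-ei.1)

/-- derivative of a word along `a i ↦ a i * qq ei t` -/
noncomputable def dcol (a : Fin m → G) : List (Ltr m) → Fin m → ℍ
  | [] => fun _ => 0
  | s :: w => fun i => (if s.1 = i then vl a s else 0) + cj (lt a s) (dcol a w i)

/-- weighted sum of the columns -/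
noncomputable def dsum (a : Fin m → G) (x : Fin m → ℝ) (w : List (Ltr m)) : ℍ :=
  ∑ i, x i • dcol a w i

/-- phase -/
noncomputable def ph (z v : ℍ) : H := mk (fun g => ((⟪z, cj g v⟫_ℝ : ℝ) : ℂ)) (by fun_prop)

/-- exponential of a phase -/
noncomputable def ex (z v : ℍ) : H :=
  mk (fun g => Complex.exp (Complex.I * (⟪z, cj g v⟫_ℝ : ℝ))) (by fun_prop)

/-- twisted translation -/
noncomputable def U (a : Fin m → G) (z : ℍ) (x : Fin m → ℝ) (s : Ltr m) : H →ₗ[ℂ] H :=
  (LinearMap.mulLeft ℂ (ex z (x s.1 • vl a s))).comp (R (lt a s)).toLinearMap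

/-- twisted walk -/
noncomputable def T (a : Fin m → G) (z : ℍ) (x : Fin m → ℝ) : Module.End ℂ H :=
  (2 * m : ℂ)⁻¹ • ∑ s, U a z x s

/-- the walk -/
noncomputable def P (a : Fin m → G) : Module.End ℂ H :=
  (2 * m : ℂ)⁻¹ • ∑ s, (R (lt a s)).toLinearMap

/-- gap `c` on mean-zero polynomials of degree at most `J` -/
def Gap (a : Fin m → G) (J : ℕ) (c : ℝ) : Prop :=
  ∀ f ∈ V J, ⟪1, f⟫_ℂ = 0 → ‖P a f‖ ≤ (1 - c) * ‖f‖

/-- harmonic weights -/
def Harm (a : Fin m → G) (x : Fin m → ℝ) : Prop := ∑ i, x i • (cj (a i) ei.1 - ei.1) = 0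

/-- approximate Lipschitz bound under left translations -/
def LLip (u : H) (K γ : ℝ) : Prop := ∀ h, ‖L h u - u‖ ≤ K * ds h + γ

open Classical in
/-- proportion of the words of length `N` with a property -/
noncomputable def pr (m N : ℕ) (p : List (Ltr m) → Prop) : ℝ :=
  ((2 * m : ℝ) ^ N)⁻¹ * ∑ w : Fin N → Ltr m, if p (List.ofFn w) then 1 else 0

/-- all columns are close to one plane -/
def Deg (a : Fin m → G) (η : ℝ) (w : List (Ltr m)) : Prop :=
  ∃ y : Pu, ∀ i, |⟪y.1, dcol a w i⟫_ℝ| ≤ η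

/-- determinant of three columns -/
noncomputable def det3 (a : Fin m → G) (w : List (Ltr m)) (i j k : Fin m) : ℝ :=
  (dcol a w i * dcol a w j * dcol a w k).re

/-- the opposite letter -/
def flip (s : Ltr m) : Ltr m := (s.1, !s.2)

@[simp] lemma wd_nil (a : Fin m → G) : wd a [] = 1 := rfl
lemma wd_cons (a : Fin m → G) (s : Ltr m) (w : List (Ltr m)) :
    wd a (s :: w) = lt a s * wd a w := by simp [wd]
lemma wd_append (a : Fin m → G) (v w : List (Ltr m)) : wd a (v ++ w) = wd a v * wd a w := by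
  simp [wd]
@[simp] lemma flip_flip (s : Ltr m) : flip (flip s) = s := by simp [flip]
lemma lt_flip (a : Fin m → G) (s : Ltr m) : lt a (flip s) = (lt a s)⁻¹ := by
  obtain ⟨i, _ | _⟩ := s <;> simp [lt, flip]
lemma sum_flip {M : Type*} [AddCommMonoid M] (f : Ltr m → M) : ∑ s, f (flip s) = ∑ s, f s :=
  Equiv.sum_comp (Function.Involutive.toPerm flip flip_flip) f
lemma wd_rev (a : Fin m → G) (w : List (Ltr m)) : wd a (w.map flip).reverse = (wd a w)⁻¹ := by
  induction w with
  | nil => simp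
  | cons s w ih =>
    rw [List.map_cons, List.reverse_cons, wd_append, ih, wd_cons, wd_cons, lt_flip]; simp

lemma vl_flip (a : Fin m → G) (s : Ltr m) : vl a (flip s) = -cj (lt a s)⁻¹ (vl a s) := by
  obtain ⟨i, _ | _⟩ := s <;> simp [lt, flip, vl, ← cj_mul]
@[simp] lemma norm_vl (a : Fin m → G) (s : Ltr m) : ‖vl a s‖ = 1 := by
  obtain ⟨i, _ | _⟩ := s <;> simp [vl, ei.norm]
@[simp] lemma re_vl (a : Fin m → G) (s : Ltr m) : (vl a s).re = 0 := by
  obtain ⟨i, _ | _⟩ := s <;> simp [vl, ei.2.1]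

lemma dcol_cons (a : Fin m → G) (s : Ltr m) (w : List (Ltr m)) (i : Fin m) :
    dcol a (s :: w) i = (if s.1 = i then vl a s else 0) + cj (lt a s) (dcol a w i) := rfl

lemma re_dcol (a : Fin m → G) (w : List (Ltr m)) (i : Fin m) : (dcol a w i).re = 0 := by
  induction w with
  | nil => rfl
  | cons s w ih => rw [dcol_cons, re_add, re_cj, ih]; split_ifs <;> simp

lemma norm_dcol (a : Fin m → G) (w : List (Ltr m)) (i : Fin m) : ‖dcol a w i‖ ≤ w.length := by
  induction w with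
  | nil => simp [dcol]
  | cons s w ih =>
    rw [dcol_cons, List.length_cons]
    refine (norm_add_le _ _).trans ?_
    rw [norm_cj]; push_cast
    split_ifs <;> simp <;> linarith

@[simp] lemma dsum_nil (a : Fin m → G) (x : Fin m → ℝ) : dsum a x [] = 0 := by simp [dsum, dcol]

lemma dsum_cons (a : Fin m → G) (x : Fin m → ℝ) (s : Ltr m) (w : List (Ltr m)) :
    dsum a x (s :: w) = x s.1 • vl a s + cj (lt a s) (dsum a x w) := by
  simp [dsum, dcol_cons, Finset.sum_add_distrib]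

lemma norm_dsum (a : Fin m → G) {x : Fin m → ℝ} {X : ℝ} (hx : ∀ i, |x i| ≤ X)
    (w : List (Ltr m)) : ‖dsum a x w‖ ≤ w.length * X := by
  induction w with
  | nil => simp
  | cons s w ih =>
    rw [dsum_cons, List.length_cons]
    refine (norm_add_le _ _).trans ?_
    rw [norm_cj, norm_smul, norm_vl, Real.norm_eq_abs]; push_cast
    linarith [hx s.1]

lemma continuous_lt (s : Ltr m) : Continuous fun a : Fin m → G => lt a s := by
  obtain ⟨i, _ | _⟩ := s <;> simp only [lt, cond_true, cond_false] <;> fun_prop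

lemma continuous_wd (w : List (Ltr m)) : Continuous fun a : Fin m → G => wd a w := by
  induction w with
  | nil => exact continuous_const
  | cons s w ih => simp only [wd_cons]; exact (continuous_lt s).mul ih

lemma continuous_dcol (w : List (Ltr m)) (i : Fin m) :
    Continuous fun a : Fin m → G => dcol a w i := by
  induction w with
  | nil => exact continuous_const
  | cons s w ih =>
    simp only [dcol_cons]
    refine Continuous.add ?_ (continuous_cj (continuous_lt s) ih)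
    split_ifs
    · obtain ⟨j, _ | _⟩ := s <;> simp only [vl, cond_true, cond_false] <;> fun_prop
    · exact continuous_const

lemma ph_ap (z v : ℍ) (g : G) : ph z v g = ((⟪z, cj g v⟫_ℝ : ℝ) : ℂ) := rfl
lemma ex_ap (z v : ℍ) (g : G) : ex z v g = Complex.exp (Complex.I * (⟪z, cj g v⟫_ℝ : ℝ)) := rfl
@[simp] lemma norm_ex_ap (z v : ℍ) (g : G) : ‖ex z v g‖ = 1 := by
  rw [ex_ap, mul_comm, Complex.norm_exp_ofReal_mul_I]
lemma abs_ph_le (z v : ℍ) (g : G) : |⟪z, cj g v⟫_ℝ| ≤ ‖z‖ * ‖v‖ := by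
  simpa using abs_real_inner_le_norm z (cj g v)
lemma ex_add (z u v : ℍ) : ex z (u + v) = ex z u * ex z v := by
  ext g; simp [ex_ap, inner_add_right, mul_add, Complex.exp_add]
@[simp] lemma ex_zero (z : ℍ) : ex z 0 = 1 := by ext g; simp [ex_ap]
lemma conj_ex (z v : ℍ) (g : G) : conj (ex z v g) = ex z (-v) g := by
  simp [ex_ap, ← Complex.exp_conj]
lemma R_ex (s : G) (z v : ℍ) : R s (ex z v) = ex z (cj s v) := by ext g; simp [ex_ap, cj_mul]
lemma R_ph (s : G) (z v : ℍ) : R s (ph z v) = ph z (cj s v) := by ext g; simp [ph_ap, cj_mul]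
lemma L_ex (h : G) (z v : ℍ) : L h (ex z v) = ex (cj h z) v := by
  ext g; simp [ex_ap, cj_mul, inner_cj_inv]

lemma U_def (a : Fin m → G) (z : ℍ) (x : Fin m → ℝ) (s : Ltr m) (F : H) :
    U a z x s F = ex z (x s.1 • vl a s) * R (lt a s) F := rfl

lemma norm_U_ap (a : Fin m → G) (z : ℍ) (x : Fin m → ℝ) (s : Ltr m) (F : H) (g : G) :
    ‖U a z x s F g‖ = ‖F (g * lt a s)‖ := by simp [U_def]

@[simp] lemma norm_U (a : Fin m → G) (z : ℍ) (x : Fin m → ℝ) (s : Ltr m) (F : H) :
    ‖U a z x s F‖ = ‖F‖ := by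
  rw [← norm_R (lt a s) F]
  apply le_antisymm
  · simpa using norm_le_pt (f := U a z x s F) (g := R (lt a s) F) zero_le_one
      (by simp [norm_U_ap])
  · simpa using norm_le_pt (g := U a z x s F) (f := R (lt a s) F) zero_le_one
      (by simp [norm_U_ap])

lemma inner_U (a : Fin m → G) (z : ℍ) (x : Fin m → ℝ) (s : Ltr m) (F K : H) :
    ⟪U a z x s F, K⟫_ℂ = ⟪F, U a z x (flip s) K⟫_ℂ := by
  rw [← inner_R (lt a s) F, U_def, U_def, map_mul, R_R, lt_flip, mul_inv_cancel, R_one, R_ex,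
    vl_flip, map_smul, map_neg, ← cj_mul, mul_inv_cancel, cj_one, inner_def, inner_def]
  congr 1; funext g
  simp only [mul_ap, map_mul, conj_ex, flip, smul_neg]; ring

lemma T_def (a : Fin m → G) (z : ℍ) (x : Fin m → ℝ) (F : H) :
    T a z x F = (2 * m : ℂ)⁻¹ • ∑ s, U a z x s F := by simp [T]

lemma P_def (a : Fin m → G) (F : H) : P a F = (2 * m : ℂ)⁻¹ • ∑ s, R (lt a s) F := by simp [P]

lemma T_zero (a : Fin m → G) (z : ℍ) : T a z 0 = P a := by
  ext1 F; simp [T_def, P_def, U_def]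

lemma T_sym (a : Fin m → G) (z : ℍ) (x : Fin m → ℝ) (F K : H) :
    ⟪T a z x F, K⟫_ℂ = ⟪F, T a z x K⟫_ℂ := by
  rw [T_def, T_def, inner_smul_left, inner_smul_right, sum_inner, inner_sum,
    ← sum_flip fun s => ⟪F, U a z x s K⟫_ℂ]
  simp only [inner_U, map_inv₀, map_mul, map_ofNat, map_natCast]

lemma P_sym (a : Fin m → G) (F K : H) : ⟪P a F, K⟫_ℂ = ⟪F, P a K⟫_ℂ := by
  rw [← T_zero a 0, T_sym]

lemma norm_T (a : Fin m → G) (z : ℍ) (x : Fin m → ℝ) (F : H) : ‖T a z x F‖ ≤ ‖F‖ := by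
  rcases Nat.eq_zero_or_pos m with rfl | hm
  · simp [T_def]
  have : (0 : ℝ) < m := by exact_mod_cast hm
  rw [T_def, norm_smul]
  refine (mul_le_mul_of_nonneg_left (norm_sum_le _ _) (norm_nonneg _)).trans (le_of_eq ?_)
  simp
  field_simp

lemma norm_P (a : Fin m → G) (F : H) : ‖P a F‖ ≤ ‖F‖ := by rw [← T_zero a 0]; exact norm_T ..

lemma P_mem (a : Fin m → G) {J : ℕ} {F : H} (h : F ∈ V J) : P a F ∈ V J := by
  rw [P_def]; exact Submodule.smul_mem _ _ (Submodule.sum_mem _ fun s _ => R_mem _ h)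

lemma L_P (a : Fin m → G) (h : G) (F : H) : L h (P a F) = P a (L h F) := by
  simp [P_def, L_R]

lemma P_one (hm : 1 ≤ m) (a : Fin m → G) : P a 1 = 1 := by
  have : (m : ℂ) ≠ 0 := by exact_mod_cast (by omega : m ≠ 0)
  ext g
  simp only [P_def, smul_ap, sum_ap, R_ap, one_ap]
  simp
  field_simp

lemma Gap.mono {a : Fin m → G} {J J' : ℕ} {c c' : ℝ} (h : Gap a J c) (hJ : J' ≤ J) (hc : c' ≤ c) :
    Gap a J' c' := fun f hf h0 =>
  (h f (V_mono hJ hf) h0).trans (mul_le_mul_of_nonneg_right (by linarith) (norm_nonneg _))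

lemma sum_words {M : Type*} [AddCommMonoid M] (N : ℕ) (φ : List (Ltr m) → M) :
    ∑ w : Fin (N + 1) → Ltr m, φ (List.ofFn w) =
      ∑ s, ∑ w : Fin N → Ltr m, φ (s :: List.ofFn w) := by
  rw [← Fintype.sum_prod_type', ← (Fin.consEquiv fun _ => Ltr m).sum_comp]
  simp [Fin.consEquiv]

theorem T_pow (a : Fin m → G) (z : ℍ) (x : Fin m → ℝ) (N : ℕ) (F : H) :
    (T a z x ^ N) F = ((2 * m : ℂ) ^ N)⁻¹ • ∑ w : Fin N → Ltr m,
      ex z (dsum a x (List.ofFn w)) * R (wd a (List.ofFn w)) F := by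
  induction N with
  | zero => simp
  | succ N ih =>
    have h1 := sum_words (M := H) N fun w => ex z (dsum a x w) * R (wd a w) F
    have h2 : ∀ s, U a z x s (∑ w : Fin N → Ltr m,
        ex z (dsum a x (List.ofFn w)) * R (wd a (List.ofFn w)) F) = ∑ w : Fin N → Ltr m,
        ex z (dsum a x (s :: List.ofFn w)) * R (wd a (s :: List.ofFn w)) F := fun s => by
      rw [map_sum]
      refine Finset.sum_congr rfl fun w _ => ?_
      rw [U_def, map_mul, R_ex, R_R, dsum_cons, ex_add, wd_cons, mul_assoc]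
    rw [pow_succ', Module.End.mul_apply, ih, map_smul, T_def, smul_smul, h1, pow_succ, ← mul_inv]
    simp only [h2]

theorem P_pow (a : Fin m → G) (N : ℕ) (F : H) :
    (P a ^ N) F = ((2 * m : ℂ) ^ N)⁻¹ • ∑ w : Fin N → Ltr m, R (wd a (List.ofFn w)) F := by
  rw [← T_zero a 0, T_pow]; simp [dsum]

lemma pr_nonneg (N : ℕ) (p : List (Ltr m) → Prop) : 0 ≤ pr m N p :=
  mul_nonneg (by positivity) (Finset.sum_nonneg fun w _ => by split_ifs <;> norm_num)

lemma pr_le_add (N : ℕ) {p q r : List (Ltr m) → Prop} (h : ∀ w, w.length = N → p w → q w ∨ r w) :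
    pr m N p ≤ pr m N q + pr m N r := by
  unfold pr
  rw [← mul_add, ← Finset.sum_add_distrib]
  refine mul_le_mul_of_nonneg_left (Finset.sum_le_sum fun w _ => ?_) (by positivity)
  have := h (List.ofFn w) (by simp)
  split_ifs <;> first | tauto | norm_num

end Pool.Agent.MP_9bb777_an.NG
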